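import Mathlib
import Pool.Agent.H391R2.WrGrp
import Pool.Agent.H391R2.T4.Red
import Pool.Agent.Y793.Stm

/-!
Statements (NOT results) of the pieces of the project AW: `G ≀ A_n` over `𝔽_p(X)`, `p` odd,
`G` perfect (owner helper140, problem MP_7f581e_nt).
-/

set_option autoImplicit false

namespace Pool.Agent.Y140.AW

open Polynomial Pool.Agent.H391R2 Pool.Agent.H391R2.T4

/-! ### Group theory -/

/-- MT: an `(r + 1)`-fold transitive group of degree `n = q + r`, `q > r ≥ 5`, `q` prime, contains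
the alternating group. -/
def St_mt : Prop :=
  ∀ n r q : ℕ, q.Prime → n = q + r → 5 ≤ r → r < q → ∀ H : Subgroup (Equiv.Perm (Fin n)),
    (∀ a b : Fin (r + 1) → Fin n, Function.Injective a → Function.Injective b →
      ∃ h ∈ H, ∀ i, h (a i) = b i) → alternatingGroup (Fin n) ≤ H

/-! ### The polynomials -/

section defs

variable {K N : Type} [Field K] [Field N] [Algebra K N]

/-- `Θ(a, Z)` for a polynomial `Θ(x, Z)` (the outer variable is `Z`) and `a ∈ N`. -/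
noncomputable def tA (Θ : K[X][X]) (a : N) : N[X] :=
  Θ.map (Polynomial.aeval a : K[X] →ₐ[K] N).toRingHom

/-- The derivative `Θ_Z(a, b)`. -/
noncomputable def tZ (Θ : K[X][X]) (a b : N) : N := (tA Θ a).derivative.eval b

/-- The polynomial `G(X) = X D^p + (X^B D + 1)^p + D^p ∑ ν_a X^(p a)`. -/
noncomputable def GG (D : K[X]) (p B : ℕ) {m : ℕ} (ν : Fin m → N) : N[X] :=
  X * (D.map (algebraMap K N)) ^ p + (X ^ B * D.map (algebraMap K N) + 1) ^ p +
    (D.map (algebraMap K N)) ^ p * ∑ a : Fin m, C (ν a) * X ^ (p * (a : ℕ))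

/-- The point `(a, b)` of the curve `Θ = 0` lies over `(ν, s)`. -/
def IsPt (Θ : K[X][X]) (D : K[X]) (p B : ℕ) {m : ℕ} (ν : Fin m → N) (s a b : N) : Prop :=
  (tA Θ a).eval b = 0 ∧ aeval a D ≠ 0 ∧ (GG D p B ν).eval a = s * (aeval a D * b) ^ p

end defs

/-- The data: `Θ` is monic of degree `d` in `Z` with discriminant (up to sign) `D₀ ≠ 0`. -/
structure DD {K : Type} [Field K] (Θ : K[X][X]) (D₀ : K[X]) (d : ℕ) : Prop where
  monic : Θ.Monic
  deg : Θ.natDegree = d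
  pos : 0 < d
  res : resultant Θ Θ.derivative d (d - 1) = D₀
  ne : D₀ ≠ 0

/-- The number `B` is large: `B ≥ m`, `B ≥ 1` and `B` exceeds the degrees of the coefficients of
`Θ`. -/
structure BB {K : Type} [Field K] (Θ : K[X][X]) (B m : ℕ) : Prop where
  one : 1 ≤ B
  m : m ≤ B
  coeff : ∀ k, (Θ.coeff k).natDegree < B

/-- RES: the discriminant as a product. -/
def St_res : Prop :=
  ∀ (K N : Type) [Field K] [Field N] [IsAlgClosed N] [Algebra K N] (Θ : K[X][X]) (D₀ : K[X])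
    (d : ℕ), DD Θ D₀ d → ∀ a : N, aeval a D₀ ≠ 0 → ∃ b : Fin d → N, Function.Injective b ∧
      (∀ c, (tA Θ a).eval c = 0 ↔ ∃ i, c = b i) ∧ ∏ i, tZ Θ a (b i) = aeval a D₀

/-- PTS: the points over `(ν, s)`. -/
def St_pts : Prop :=
  ∀ (p : ℕ) [Fact p.Prime] (K N : Type) [Field K] [CharP K p] [Field N] [IsAlgClosed N]
    [Algebra K N] (Θ : K[X][X]) (D₀ D : K[X]) (d B m : ℕ), DD Θ D₀ d → BB Θ B m → D = D₀ ^ 4 →
    ∀ (ν : Fin m → N) (s : N), s ≠ 0 →
    ∃ x θ : Fin (d * (p * (B + D.natDegree))) → N, Function.Injective x ∧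
      (∀ l, IsPt Θ D p B ν s (x l) (θ l)) ∧
      (∀ a b, IsPt Θ D p B ν s a b → ∃ l, a = x l ∧ b = θ l) ∧
      (∀ l, (algebraMap K N D.leadingCoeff) ^ (p * d) * ∏ j ∈ Finset.univ.erase l, (x l - x j) =
        (aeval (x l) D) ^ p * (s * (aeval (x l) D) ^ p) ^ (d - 1) * (tZ Θ (x l) (θ l)) ^ p)

/-- INT: integrality of the coordinates of the points and of the inverse of `D`. -/
def St_int : Prop :=
  ∀ (p : ℕ) [Fact p.Prime] (K N : Type) [Field K] [CharP K p] [Field N] [IsAlgClosed N]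
    [Algebra K N] (Θ : K[X][X]) (D₀ D : K[X]) (d B m : ℕ), DD Θ D₀ d → BB Θ B m → D = D₀ ^ 4 →
    ∀ (ν : Fin m → N) (s a b : N), IsPt Θ D p B ν s a b → ∀ A : Subalgebra K N, s ∈ A →
    (∀ i, ν i ∈ A) → IsIntegral A a ∧ IsIntegral A b ∧ IsIntegral A (aeval a D)⁻¹ ∧
      IsIntegral A (tZ Θ a b) ∧ IsIntegral A (tZ Θ a b)⁻¹

/-- ZERO: the points over `s = 0`. -/
def St_zero : Prop :=
  ∀ (p : ℕ) [Fact p.Prime] (K N : Type) [Field K] [CharP K p] [Field N] [IsAlgClosed N]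
    [Algebra K N] (Θ : K[X][X]) (D₀ D : K[X]) (d B m : ℕ), DD Θ D₀ d → BB Θ B m → D = D₀ ^ 4 →
    Even B → ∀ ν : Fin m → N, ∃ S : Finset (N × N),
      (∀ z, z ∈ S ↔ (GG D p B ν).eval z.1 = 0 ∧ (tA Θ z.1).eval z.2 = 0) ∧
      (∀ z ∈ S, aeval z.1 D ≠ 0) ∧
      S.card = d * (p * (B + D.natDegree)) ∧
      ∏ z ∈ S, tZ Θ z.1 z.2 = algebraMap K N (D₀.leadingCoeff ^ (p * B))

/-- PLACE: the norm of `Θ_Z` is a square, once it is known to be algebraic over `K`. -/
def St_place : Prop :=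
  ∀ (p : ℕ) [Fact p.Prime] (K N : Type) [Field K] [CharP K p] [Field N] [IsAlgClosed N]
    [Algebra K N] (Θ : K[X][X]) (D₀ D : K[X]) (d B m : ℕ), DD Θ D₀ d → BB Θ B m → D = D₀ ^ 4 →
    Even B → ∀ (ν : Fin m → N) (s : N),
    AlgebraicIndependent K (fun o : Option (Fin m) => o.elim s ν) →
    ∀ x θ : Fin (d * (p * (B + D.natDegree))) → N, Function.Injective x →
      (∀ l, IsPt Θ D p B ν s (x l) (θ l)) → IsAlgebraic K (∏ l, tZ Θ (x l) (θ l)) →
      ∃ e : K, ∏ l, tZ Θ (x l) (θ l) = algebraMap K N (e ^ 2)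

/-- UNI: invariant units are algebraic over `K`. -/
def St_uni : Prop :=
  ∀ (p : ℕ) [Fact p.Prime] (K N ι : Type) [Field K] [CharP K p] [Field N] [IsAlgClosed N]
    [Algebra K N] [Finite ι] (η : ι → N), IsTranscendenceBasis K η → ∀ c : N, c ≠ 0 →
    IsIntegral (Algebra.adjoin K (Set.range η)) c →
    IsIntegral (Algebra.adjoin K (Set.range η)) c⁻¹ →
    (∀ σ : N ≃ₐ[K] N, (∀ i, σ (η i) = η i) → σ c = c) → IsAlgebraic K c

/-- PAR: parity. -/
def St_par : Prop :=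
  ∀ (p : ℕ) (N : Type) [Field N] (n d : ℕ), 4 ∣ n → (2 : N) ≠ 0 → ∀ (x δ z : Fin n → N) (s c e : N),
    Function.Injective x → c ≠ 0 → s ≠ 0 → (∀ l, δ l ≠ 0) → ∏ l, z l = e ^ 2 →
    (∀ l, c * ∏ j ∈ Finset.univ.erase l, (x l - x j) =
      (δ l ^ 4) ^ p * (s * (δ l ^ 4) ^ p) ^ (d - 1) * (z l) ^ p) →
    ∀ (σ : N ≃+* N) (π : Equiv.Perm (Fin n)), (∀ l, σ (x l) = x (π l)) →
      (∀ l, σ (δ l) = δ (π l)) → σ s = s → σ c = c → σ e = e → Equiv.Perm.sign π = 1

/-! ### Transitivity -/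

/-- STEP: two embeddings of a regular Galois extension `E` of `K(t)` are conjugate over `F`. -/
def St_step : Prop :=
  ∀ (K E N : Type) [Field K] [Infinite K] [Field E] [Algebra (RatFunc K) E] [Algebra K E]
    [IsScalarTower K (RatFunc K) E] [FiniteDimensional (RatFunc K) E] [IsGalois (RatFunc K) E]
    [Field N] [IsAlgClosed N] [Algebra K N],
    (∀ y : E, IsAlgebraic K y → y ∈ Set.range (algebraMap K E)) →
    (∃ (ι : Type) (_ : Finite ι) (η : ι → N), IsTranscendenceBasis K η) →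
    ∀ (F : IntermediateField K N) (φ ψ : E →ₐ[K] N),
      Transcendental F (φ (algebraMap (RatFunc K) E RatFunc.X)) →
      Transcendental F (ψ (algebraMap (RatFunc K) E RatFunc.X)) →
      ∃ τ : N ≃ₐ[F] N, ∀ y, τ (φ y) = ψ y

/-- TUPLE: the same for several embeddings. -/
def St_tuple : Prop :=
  ∀ (K E N : Type) [Field K] [Infinite K] [Field E] [Algebra (RatFunc K) E] [Algebra K E]
    [IsScalarTower K (RatFunc K) E] [FiniteDimensional (RatFunc K) E] [IsGalois (RatFunc K) E]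
    [Field N] [IsAlgClosed N] [Algebra K N],
    (∀ y : E, IsAlgebraic K y → y ∈ Set.range (algebraMap K E)) →
    (∃ (ι : Type) (_ : Finite ι) (η : ι → N), IsTranscendenceBasis K η) →
    ∀ (F : IntermediateField K N) (m : ℕ) (φ ψ : Fin m → E →ₐ[K] N),
      AlgebraicIndependent F (fun j => φ j (algebraMap (RatFunc K) E RatFunc.X)) →
      AlgebraicIndependent F (fun j => ψ j (algebraMap (RatFunc K) E RatFunc.X)) →
      ∃ τ : N ≃ₐ[F] N, ∀ j y, τ (φ j y) = ψ j y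

/-- INDEP: the first coordinates of `m` different points are algebraically independent. -/
def St_indep : Prop :=
  ∀ (p : ℕ) [Fact p.Prime] (K K₀ N : Type) [Field K] [CharP K p] [Field K₀] [Algebra K K₀]
    [Algebra.IsAlgebraic K K₀] [Field N] [IsAlgClosed N] [Algebra K N] [Algebra K₀ N]
    [IsScalarTower K K₀ N] (Θ : K[X][X]) (D₀ D : K[X]) (d B m : ℕ), DD Θ D₀ d → D = D₀ ^ 4 →
    ∀ (ν : Fin m → N) (s : N),
    IsTranscendenceBasis K₀ (fun o : Option (Fin m) => o.elim s ν) →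
    ∀ x θ : Fin m → N, Function.Injective x → (∀ j, IsPt Θ D p B ν s (x j) (θ j)) →
      AlgebraicIndependent (IntermediateField.adjoin K₀ {s}) x

/-! ### The extension -/

/-- DATA: the polynomial `Θ` for a subgroup of the Galois group of a regular extension. -/
def St_data : Prop :=
  ∀ (K : Type) [Field K] (Γ G : Type) [Group Γ] [Finite Γ] [Group G] [Finite G] (f : G →* Γ),
    Function.Injective f → RegSol K K Γ 1 →
    ∃ (E : Type) (_ : Field E) (_ : Algebra (RatFunc K) E) (_ : Algebra K E)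
      (_ : IsScalarTower K (RatFunc K) E) (_ : FiniteDimensional (RatFunc K) E)
      (_ : IsGalois (RatFunc K) E) (g : G →* (E ≃ₐ[RatFunc K] E)) (θ : E) (Θ : K[X][X])
      (D₀ : K[X]),
      (∀ y : E, IsAlgebraic K y → y ∈ Set.range (algebraMap K E)) ∧ Function.Injective g ∧
      (∀ σ : E ≃ₐ[RatFunc K] E, σ θ = θ ↔ σ ∈ g.range) ∧
      Θ.map (algebraMap K[X] (RatFunc K)) = minpoly (RatFunc K) θ ∧ DD Θ D₀ Θ.natDegree

/-- LIFT: the points with transcendental first coordinate come from embeddings of `E`, unique up to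
`G`. -/
def St_lift : Prop :=
  ∀ (K E N G : Type) [Field K] [Field E] [Algebra (RatFunc K) E] [Algebra K E]
    [IsScalarTower K (RatFunc K) E] [FiniteDimensional (RatFunc K) E] [IsGalois (RatFunc K) E]
    [Group G] [Field N] [IsAlgClosed N] [Algebra K N] (g : G →* (E ≃ₐ[RatFunc K] E)) (θ : E)
    (Θ : K[X][X]), (∀ σ : E ≃ₐ[RatFunc K] E, σ θ = θ ↔ σ ∈ g.range) →
    Θ.map (algebraMap K[X] (RatFunc K)) = minpoly (RatFunc K) θ →
    (∀ a b : N, Transcendental K a → (tA Θ a).eval b = 0 →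
      ∃ φ : E →ₐ[K] N, φ (algebraMap (RatFunc K) E RatFunc.X) = a ∧ φ θ = b) ∧
    (∀ φ : E →ₐ[K] N, (tA Θ (φ (algebraMap (RatFunc K) E RatFunc.X))).eval (φ θ) = 0) ∧
    (∀ φ ψ : E →ₐ[K] N, φ (algebraMap (RatFunc K) E RatFunc.X) =
      ψ (algebraMap (RatFunc K) E RatFunc.X) → φ θ = ψ θ → ∃ h : G, ∀ y, φ y = ψ (g h y))

/-- ARI: the analogue of `Pool.Agent.Y793.St_arith` for infinite fields of any characteristic. -/
def St_arith : Prop :=
  ∀ (K K₀ N : Type) [Field K] [Infinite K] [Field K₀] [Algebra K K₀] [IsAlgClosed K₀]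
    [Algebra.IsAlgebraic K K₀] [Field N] [IsAlgClosed N] [Algebra K₀ N] [Algebra K N]
    [IsScalarTower K K₀ N] (ι : Type) [Finite ι] (η : ι → N), IsTranscendenceBasis K₀ η →
    ∀ (G : Type) [Group G] [Finite G] (n : ℕ) (H₀ : Subgroup (Wr G n)) (r : Fin n → N),
    Function.Injective r → ∀ (vv : Fin n → G → N), (∀ i, Function.Injective (vv i)) →
    (∀ (σ : N ≃ₐ[K] N), (∀ v, σ (η v) = η v) → ∃ x ∈ H₀, ∀ i,
        σ (r i) = r (x.right i) ∧
        ∀ g, σ (vv i g) = vv (x.right i) (x.left (x.right i) * g)) →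
    (∀ x ∈ H₀, ∃ σ : N ≃ₐ[K₀] N, (∀ v, σ (η v) = η v) ∧ ∀ i,
        σ (r i) = r (x.right i) ∧
        ∀ g, σ (vv i g) = vv (x.right i) (x.left (x.right i) * g)) →
    RegSol K K H₀ 1

/-- The main theorem of the project. -/
def St_main : Prop :=
  ∀ (p : ℕ) [Fact p.Prime], p ≠ 2 → ∀ (K : Type) [Field K] [CharP K p] [Infinite K]
    (Γ G : Type) [Group Γ] [Finite Γ] [Group G] [Finite G] (f : G →* Γ), Function.Injective f →
    RegSol K K Γ 1 → commutator G = ⊤ → ∀ n₀ : ℕ, ∃ n ≥ n₀, RegSol K K (Pool.Agent.Y793.AWr G n) 1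

end Pool.Agent.Y140.AW
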