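import Mathlib
import Pool.Agent.Y140.AW.Stm
import Pool.Agent.W200.IG.HF

/-!
Statements (NOT results) of the second part of the project AW: `G ≀ A_n` is the group of an étale
Galois cover of the affine line over `𝔽_p` (owner helper140, problems MP_7f581e_nt, MP_5de024_nt,
MP_9c0cee_ag, MP_37a734_ag).
-/

set_option autoImplicit false

namespace Pool.Agent.Y140.AW

open Polynomial Pool.Agent.H391R2 Pool.Agent.H391R2.T4

/-! ### Points, now with `D = (D₀ D₁)^4` -/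

/-- PTS2. -/
def St_pts2 : Prop :=
  ∀ (p : ℕ) [Fact p.Prime] (K N : Type) [Field K] [CharP K p] [Field N] [IsAlgClosed N]
    [Algebra K N] (Θ : K[X][X]) (D₀ D₁ D : K[X]) (d B m : ℕ), DD Θ D₀ d → BB Θ B m → D₁ ≠ 0 →
    D = (D₀ * D₁) ^ 4 → ∀ (ν : Fin m → N) (s : N), s ≠ 0 →
    ∃ x θ : Fin (d * (p * (B + D.natDegree))) → N, Function.Injective x ∧
      (∀ l, IsPt Θ D p B ν s (x l) (θ l)) ∧
      (∀ a b, IsPt Θ D p B ν s a b → ∃ l, a = x l ∧ b = θ l) ∧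
      (∀ l, (algebraMap K N D.leadingCoeff) ^ (p * d) * ∏ j ∈ Finset.univ.erase l, (x l - x j) =
        (aeval (x l) D) ^ p * (s * (aeval (x l) D) ^ p) ^ (d - 1) * (tZ Θ (x l) (θ l)) ^ p)

/-- INT2. -/
def St_int2 : Prop :=
  ∀ (p : ℕ) [Fact p.Prime] (K N : Type) [Field K] [CharP K p] [Field N] [IsAlgClosed N]
    [Algebra K N] (Θ : K[X][X]) (D₀ D₁ D : K[X]) (d B m : ℕ), DD Θ D₀ d → BB Θ B m → D₁ ≠ 0 →
    D = (D₀ * D₁) ^ 4 → ∀ (ν : Fin m → N) (s a b : N), IsPt Θ D p B ν s a b →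
    ∀ A : Subalgebra K N, s ∈ A → (∀ i, ν i ∈ A) → IsIntegral A a ∧ IsIntegral A b ∧
      IsIntegral A (aeval a D)⁻¹ ∧ IsIntegral A (tZ Θ a b) ∧ IsIntegral A (tZ Θ a b)⁻¹

/-- ZERO2. -/
def St_zero2 : Prop :=
  ∀ (p : ℕ) [Fact p.Prime] (K : Type) [Field K] [CharP K p] (Θ : K[X][X]) (D₀ D₁ D : K[X])
    (d B m : ℕ), DD Θ D₀ d → BB Θ B m → D₁ ≠ 0 → D = (D₀ * D₁) ^ 4 → Even B → ∃ e : K,
    ∀ (N : Type) [Field N] [IsAlgClosed N] [Algebra K N] (ν : Fin m → N), ∃ S : Finset (N × N),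
      (∀ z, z ∈ S ↔ (GG D p B ν).eval z.1 = 0 ∧ (tA Θ z.1).eval z.2 = 0) ∧
      (∀ z ∈ S, aeval z.1 D ≠ 0) ∧
      S.card = d * (p * (B + D.natDegree)) ∧
      ∏ z ∈ S, tZ Θ z.1 z.2 = algebraMap K N (e ^ 2)

/-- SPA: specialisation of the points, `s` to a nonzero value. -/
def St_spa : Prop :=
  ∀ (p : ℕ) [Fact p.Prime] (K N k₀ : Type) [Field K] [CharP K p] [Field N] [IsAlgClosed N]
    [Algebra K N] [Field k₀] [IsAlgClosed k₀] [Algebra K k₀] (Θ : K[X][X]) (D₀ D₁ D : K[X])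
    (d B m : ℕ), DD Θ D₀ d → BB Θ B m → D₁ ≠ 0 → D = (D₀ * D₁) ^ 4 →
    ∀ (ν : Fin m → N) (s : N), s ≠ 0 → ∀ x θ : Fin (d * (p * (B + D.natDegree))) → N,
      Function.Injective x → (∀ l, IsPt Θ D p B ν s (x l) (θ l)) →
    ∀ (A : Subalgebra K N) (ρ : A →ₐ[K] k₀) (_ : ∀ z : N, IsIntegral A z → z ∈ A) (hs : s ∈ A)
      (hν : ∀ i, ν i ∈ A), ρ ⟨s, hs⟩ ≠ 0 →
    ∃ x' θ' : Fin (d * (p * (B + D.natDegree))) → k₀, Function.Injective x' ∧
      (∀ l, IsPt Θ D p B (fun i => ρ ⟨ν i, hν i⟩) (ρ ⟨s, hs⟩) (x' l) (θ' l)) ∧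
      ∃ hc : ∏ l, tZ Θ (x l) (θ l) ∈ A, ρ ⟨_, hc⟩ = ∏ l, tZ Θ (x' l) (θ' l)

/-- SPB: specialisation of the points, `s` to zero. -/
def St_spb : Prop :=
  ∀ (p : ℕ) [Fact p.Prime] (K N k₀ : Type) [Field K] [CharP K p] [Field N] [IsAlgClosed N]
    [Algebra K N] [Field k₀] [IsAlgClosed k₀] [Algebra K k₀] (Θ : K[X][X]) (D₀ D₁ D : K[X])
    (d B m : ℕ), DD Θ D₀ d → BB Θ B m → D₁ ≠ 0 → D = (D₀ * D₁) ^ 4 →
    ∀ (ν : Fin m → N) (s : N), s ≠ 0 → ∀ x θ : Fin (d * (p * (B + D.natDegree))) → N,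
      Function.Injective x → (∀ l, IsPt Θ D p B ν s (x l) (θ l)) →
    ∀ (A : Subalgebra K N) (ρ : A →ₐ[K] k₀) (_ : ∀ z : N, IsIntegral A z → z ∈ A) (hs : s ∈ A)
      (hν : ∀ i, ν i ∈ A), ρ ⟨s, hs⟩ = 0 →
    ∀ S : Finset (k₀ × k₀),
      (∀ z, z ∈ S ↔ (GG D p B (fun i => ρ ⟨ν i, hν i⟩)).eval z.1 = 0 ∧
        (tA Θ z.1).eval z.2 = 0) →
      (∀ z ∈ S, aeval z.1 D ≠ 0) → S.card = d * (p * (B + D.natDegree)) →
      ∃ hc : ∏ l, tZ Θ (x l) (θ l) ∈ A, ρ ⟨_, hc⟩ = ∏ z ∈ S, tZ Θ z.1 z.2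

/-- SQ: the norm of `Θ_Z` is a constant square for all parameters. -/
def St_sq : Prop :=
  ∀ (p : ℕ) [Fact p.Prime] (K : Type) [Field K] [CharP K p] (Θ : K[X][X]) (D₀ D₁ D : K[X])
    (d B m : ℕ), DD Θ D₀ d → BB Θ B m → D₁ ≠ 0 → D = (D₀ * D₁) ^ 4 → Even B → ∃ e : K,
    ∀ (N : Type) [Field N] [IsAlgClosed N] [Algebra K N] (ν : Fin m → N) (s : N), s ≠ 0 →
    ∀ x θ : Fin (d * (p * (B + D.natDegree))) → N, Function.Injective x →
      (∀ l, IsPt Θ D p B ν s (x l) (θ l)) → ∏ l, tZ Θ (x l) (θ l) = algebraMap K N (e ^ 2)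

/-! ### Transitivity -/

/-- STEP2: as `St_step`, without `Infinite`. -/
def St_step2 : Prop :=
  ∀ (K E N : Type) [Field K] [Field E] [Algebra (RatFunc K) E] [Algebra K E]
    [IsScalarTower K (RatFunc K) E] [FiniteDimensional (RatFunc K) E] [IsGalois (RatFunc K) E]
    [Field N] [IsAlgClosed N] [Algebra K N],
    (∀ y : E, IsAlgebraic K y → y ∈ Set.range (algebraMap K E)) →
    (∃ (ι : Type) (_ : Finite ι) (η : ι → N), IsTranscendenceBasis K η) →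
    ∀ (F : IntermediateField K N) (φ ψ : E →ₐ[K] N),
      Transcendental F (φ (algebraMap (RatFunc K) E RatFunc.X)) →
      Transcendental F (ψ (algebraMap (RatFunc K) E RatFunc.X)) →
      ∃ τ : N ≃ₐ[F] N, ∀ y, τ (φ y) = ψ y

/-- TUPLE2: as `St_tuple`, without `Infinite`. -/
def St_tuple2 : Prop :=
  ∀ (K E N : Type) [Field K] [Field E] [Algebra (RatFunc K) E] [Algebra K E]
    [IsScalarTower K (RatFunc K) E] [FiniteDimensional (RatFunc K) E] [IsGalois (RatFunc K) E]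
    [Field N] [IsAlgClosed N] [Algebra K N],
    (∀ y : E, IsAlgebraic K y → y ∈ Set.range (algebraMap K E)) →
    (∃ (ι : Type) (_ : Finite ι) (η : ι → N), IsTranscendenceBasis K η) →
    ∀ (F : IntermediateField K N) (m : ℕ) (φ ψ : Fin m → E →ₐ[K] N),
      AlgebraicIndependent F (fun j => φ j (algebraMap (RatFunc K) E RatFunc.X)) →
      AlgebraicIndependent F (fun j => ψ j (algebraMap (RatFunc K) E RatFunc.X)) →
      ∃ τ : N ≃ₐ[F] N, ∀ j y, τ (φ j y) = ψ j y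

/-- INDEP2: the first coordinates of `m` different points are algebraically independent, `s` in
`K₀`. -/
def St_indep2 : Prop :=
  ∀ (p : ℕ) [Fact p.Prime] (K K₀ N : Type) [Field K] [CharP K p] [Field K₀] [Algebra K K₀]
    [Field N] [IsAlgClosed N] [Algebra K N] [Algebra K₀ N] [IsScalarTower K K₀ N]
    (Θ : K[X][X]) (D₀ D₁ D : K[X]) (d B m : ℕ), DD Θ D₀ d → D₁ ≠ 0 → D = (D₀ * D₁) ^ 4 →
    ∀ (ν : Fin m → N) (s : K₀), IsTranscendenceBasis K₀ ν →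
    ∀ x θ : Fin m → N, Function.Injective x →
      (∀ j, IsPt Θ D p B ν (algebraMap K₀ N s) (x j) (θ j)) → AlgebraicIndependent K₀ x

/-! ### The extension -/

/-- DATA2: as `St_data`, with a generator `y` and the polynomial `D₁`. -/
def St_data2 : Prop :=
  ∀ (K : Type) [Field K] (Γ G : Type) [Group Γ] [Finite Γ] [Group G] [Finite G] (f : G →* Γ),
    Function.Injective f → RegSol K K Γ 1 →
    ∃ (E : Type) (_ : Field E) (_ : Algebra (RatFunc K) E) (_ : Algebra K E)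
      (_ : IsScalarTower K (RatFunc K) E) (_ : FiniteDimensional (RatFunc K) E)
      (_ : IsGalois (RatFunc K) E) (g : G →* (E ≃ₐ[RatFunc K] E)) (θ : E) (Θ : K[X][X])
      (D₀ D₁ : K[X]) (y : E),
      (∀ y : E, IsAlgebraic K y → y ∈ Set.range (algebraMap K E)) ∧ Function.Injective g ∧
      (∀ σ : E ≃ₐ[RatFunc K] E, σ θ = θ ↔ σ ∈ g.range) ∧
      Θ.map (algebraMap K[X] (RatFunc K)) = minpoly (RatFunc K) θ ∧ DD Θ D₀ Θ.natDegree ∧
      D₁ ≠ 0 ∧ IsIntegral (Algebra.adjoin K {algebraMap (RatFunc K) E RatFunc.X}) y ∧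
      ∀ σ : E ≃ₐ[RatFunc K] E, σ ≠ 1 → σ y ≠ y ∧
        IsIntegral (Algebra.adjoin K {algebraMap (RatFunc K) E RatFunc.X})
          (aeval (algebraMap (RatFunc K) E RatFunc.X) D₁ / (σ y - y))

/-! ### Specialisation to the affine line over a finite field -/

/-- `H` is the group of a Galois extension of `κ(t)` unramified over `κ[t]`. -/
def UnrAff (κ H : Type) [Field κ] [Group H] : Prop :=
  ∃ (L : Type) (_ : Field L) (_ : Algebra (RatFunc κ) L) (_ : Algebra κ[X] L)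
    (_ : IsScalarTower κ[X] (RatFunc κ) L) (_ : FiniteDimensional (RatFunc κ) L)
    (_ : IsGalois (RatFunc κ) L), Nonempty ((L ≃ₐ[RatFunc κ] L) ≃* H) ∧
    ∀ (q : Ideal (integralClosure κ[X] L)) (_ : q.IsPrime), Algebra.IsUnramifiedAt κ[X] q

/-- HIT: polynomial specialisations over `κ(t)` keeping a finite family of monic polynomials without
roots. -/
def St_hit : Prop :=
  ∀ (κ ι J : Type) [Field κ] [Finite κ] [Finite ι] [Finite J]
    (f : J → (MvPolynomial ι (RatFunc κ))[X]), (∀ j, (f j).Monic) →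
    (∀ j, Pool.Agent.W200.IG.RSep (f j)) → (∀ j x, (f j).eval x ≠ 0) →
    ∀ D : MvPolynomial ι (RatFunc κ), D ≠ 0 → ∃ a : ι → κ[X],
      MvPolynomial.eval (fun i => algebraMap κ[X] (RatFunc κ) (a i)) D ≠ 0 ∧
      ∀ j x, ((f j).map (MvPolynomial.eval (fun i => algebraMap κ[X] (RatFunc κ) (a i)))).eval x ≠ 0

/-- GSP: specialisation of a Galois extension with values in `κ[t]`. -/
def St_gsp : Prop :=
  ∀ (κ ι F M : Type) [Field κ] [Finite κ] [Finite ι] [Field F]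
    [Algebra (MvPolynomial ι (RatFunc κ)) F] [IsFractionRing (MvPolynomial ι (RatFunc κ)) F]
    [Field M] [Algebra F M] [Algebra (MvPolynomial ι (RatFunc κ)) M]
    [IsScalarTower (MvPolynomial ι (RatFunc κ)) F M] [FiniteDimensional F M] [IsGalois F M],
    ∃ (a : ι → κ[X]) (L : Type) (_ : Field L) (_ : Algebra (RatFunc κ) L)
      (_ : FiniteDimensional (RatFunc κ) L) (_ : IsGalois (RatFunc κ) L)
      (γ : (M ≃ₐ[F] M) ≃* (L ≃ₐ[RatFunc κ] L))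
      (π : integralClosure (MvPolynomial ι (RatFunc κ)) M →+* L),
      (∀ c : MvPolynomial ι (RatFunc κ), π (algebraMap _ _ c) =
        algebraMap (RatFunc κ) L (MvPolynomial.eval (fun i => algebraMap κ[X] (RatFunc κ) (a i)) c)) ∧
      ∀ (σ : M ≃ₐ[F] M) (b b' : integralClosure (MvPolynomial ι (RatFunc κ)) M),
        (b' : M) = σ (b : M) → π b' = γ σ (π b)

/-- UNR: a criterion for being unramified. -/
def St_unr : Prop :=
  ∀ (κ L : Type) [Field κ] [Finite κ] [Field L] [Algebra (RatFunc κ) L] [Algebra κ[X] L]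
    [IsScalarTower κ[X] (RatFunc κ) L] [FiniteDimensional (RatFunc κ) L] [IsGalois (RatFunc κ) L],
    (∀ τ : L ≃ₐ[RatFunc κ] L, τ ≠ 1 → ∃ b : L, IsIntegral κ[X] b ∧ τ b ≠ b ∧
      IsIntegral κ[X] (τ b - b)⁻¹) →
    ∀ (q : Ideal (integralClosure κ[X] L)) (_ : q.IsPrime), Algebra.IsUnramifiedAt κ[X] q

/-- ABS: from Galois extensions over `κ(t)(ν)`, unramified over `κ[t][ν]`, to the affine line. -/
def St_abs : Prop :=
  ∀ (κ ι F M H : Type) [Field κ] [Finite κ] [Finite ι] [Field F]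
    [Algebra (MvPolynomial ι (RatFunc κ)) F] [IsFractionRing (MvPolynomial ι (RatFunc κ)) F]
    [Field M] [Algebra F M] [Algebra (MvPolynomial ι (RatFunc κ)) M]
    [IsScalarTower (MvPolynomial ι (RatFunc κ)) F M] [FiniteDimensional F M] [IsGalois F M]
    [Group H] (_ : (M ≃ₐ[F] M) ≃* H),
    (∀ σ : M ≃ₐ[F] M, σ ≠ 1 → ∃ b : M, σ b ≠ b ∧
      ((algebraMap (MvPolynomial ι (RatFunc κ)) M).comp
        (MvPolynomial.map (algebraMap κ[X] (RatFunc κ)))).IsIntegralElem b ∧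
      ((algebraMap (MvPolynomial ι (RatFunc κ)) M).comp
        (MvPolynomial.map (algebraMap κ[X] (RatFunc κ)))).IsIntegralElem (σ b - b)⁻¹) →
    UnrAff κ H

/-- ARI2: arithmetic assembly. -/
def St_arith2 : Prop :=
  ∀ (κ K₀ N : Type) [Field κ] [Finite κ] [Field K₀] [Algebra (RatFunc κ) K₀] [IsAlgClosed K₀]
    [Algebra.IsAlgebraic (RatFunc κ) K₀] [Field N] [IsAlgClosed N] [Algebra K₀ N]
    [Algebra (RatFunc κ) N] [IsScalarTower (RatFunc κ) K₀ N] [Algebra κ N]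
    [IsScalarTower κ (RatFunc κ) N] (ι : Type) [Finite ι] (η : ι → N),
    IsTranscendenceBasis K₀ η →
    ∀ (G : Type) [Group G] [Finite G] (n : ℕ) (H₀ : Subgroup (Wr G n)) (r : Fin n → N),
    Function.Injective r → ∀ (vv : Fin n → G → N), (∀ i, Function.Injective (vv i)) →
    (∀ (σ : N ≃ₐ[RatFunc κ] N), (∀ v, σ (η v) = η v) → ∃ x ∈ H₀, ∀ i,
        σ (r i) = r (x.right i) ∧
        ∀ g, σ (vv i g) = vv (x.right i) (x.left (x.right i) * g)) →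
    (∀ x ∈ H₀, ∃ σ : N ≃ₐ[K₀] N, (∀ v, σ (η v) = η v) ∧ ∀ i,
        σ (r i) = r (x.right i) ∧
        ∀ g, σ (vv i g) = vv (x.right i) (x.left (x.right i) * g)) →
    (∀ i, IsIntegral (Algebra.adjoin κ (Set.range η)) (r i)) →
    (∀ i j, i ≠ j → IsIntegral (Algebra.adjoin κ (Set.range η)) (r i - r j)⁻¹) →
    (∀ i g, IsIntegral (Algebra.adjoin κ (Set.range η)) (vv i g)) →
    (∀ i g g', g ≠ g' → IsIntegral (Algebra.adjoin κ (Set.range η)) (vv i g - vv i g')⁻¹) →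
    UnrAff κ H₀

/-- The second main theorem of the project. -/
def St_main2 : Prop :=
  ∀ (p : ℕ) [Fact p.Prime], p ≠ 2 → ∀ (κ : Type) [Field κ] [CharP κ p] [Finite κ]
    (Γ G : Type) [Group Γ] [Finite Γ] [Group G] [Finite G] (f : G →* Γ), Function.Injective f →
    RegSol κ κ Γ 1 → commutator G = ⊤ → ∀ n₀ : ℕ, ∃ n ≥ n₀, UnrAff κ (Pool.Agent.Y793.AWr G n)

end Pool.Agent.Y140.AW
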