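import Mathlib
import Pool.Agent.Y140.AW.Stm2

/-!
From extensions of `κ(t)(ν)` unramified over `κ[t][ν]` to the affine line (project AW, owner
helper140).
-/

set_option autoImplicit false

namespace Pool.Agent.Y140.AW

open Polynomial

section

variable {κ ι M L : Type} [Field κ] [Field M] [Algebra (MvPolynomial ι (RatFunc κ)) M] [Field L]
  [Algebra (RatFunc κ) L] [Algebra κ[X] L] [IsScalarTower κ[X] (RatFunc κ) L]

theorem intg (a : ι → κ[X]) (π : integralClosure (MvPolynomial ι (RatFunc κ)) M →+* L)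
    (hπ : ∀ c : MvPolynomial ι (RatFunc κ), π (algebraMap _ _ c) =
      algebraMap (RatFunc κ) L (MvPolynomial.eval (fun i => algebraMap κ[X] (RatFunc κ) (a i)) c))
    (z : integralClosure (MvPolynomial ι (RatFunc κ)) M)
    (hz : ((algebraMap (MvPolynomial ι (RatFunc κ)) M).comp
      (MvPolynomial.map (algebraMap κ[X] (RatFunc κ)))).IsIntegralElem (z : M)) :
    IsIntegral κ[X] (π z) := by
  obtain ⟨P, hP, hPz⟩ := hz
  let j' : MvPolynomial ι κ[X] →+* integralClosure (MvPolynomial ι (RatFunc κ)) M :=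
    (algebraMap (MvPolynomial ι (RatFunc κ)) _).comp
      (MvPolynomial.map (algebraMap κ[X] (RatFunc κ)))
  have h1 : P.eval₂ j' z = 0 := by
    apply Subtype.val_injective
    change (algebraMap (integralClosure (MvPolynomial ι (RatFunc κ)) M) M) (P.eval₂ j' z) = 0
    rw [hom_eval₂]
    exact hPz
  have h2 : π.comp j' = (algebraMap κ[X] L).comp (MvPolynomial.eval a) := by
    apply RingHom.ext
    intro c
    change π (algebraMap _ _ (MvPolynomial.map (algebraMap κ[X] (RatFunc κ)) c)) =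
      algebraMap κ[X] L (MvPolynomial.eval a c)
    rw [hπ, IsScalarTower.algebraMap_apply κ[X] (RatFunc κ) L]
    congr 1
    rw [MvPolynomial.eval_map]
    exact (MvPolynomial.eval₂_comp_left (algebraMap κ[X] (RatFunc κ)) (RingHom.id _) a c).symm
  refine ⟨P.map (MvPolynomial.eval a), hP.map _, ?_⟩
  rw [eval₂_map, ← h2, ← hom_eval₂, h1, map_zero]

end

theorem t_abs (h1 : St_gsp) (h2 : St_unr) : St_abs := by
  intro κ ι F M H _ _ _ _ _ _ _ _ _ _ _ _ _ e hσ
  obtain ⟨a, L, _, _, _, _, γ, π, hπ1, hπ2⟩ := h1 κ ι F M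
  let _ : Algebra κ[X] L := ((algebraMap (RatFunc κ) L).comp
    (algebraMap κ[X] (RatFunc κ))).toAlgebra
  have hT : IsScalarTower κ[X] (RatFunc κ) L := IsScalarTower.of_algebraMap_eq fun _ => rfl
  refine ⟨L, inferInstance, inferInstance, inferInstance, hT, inferInstance, inferInstance,
    ⟨γ.symm.trans e⟩, h2 κ L fun τ hτ => ?_⟩
  have hσ1 : γ.symm τ ≠ 1 := by
    intro h
    apply hτ
    rw [← γ.apply_symm_apply τ, h, map_one]
  obtain ⟨b, hb, hbi, hci⟩ := hσ (γ.symm τ) hσ1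
  have toA : ∀ z : M, ((algebraMap (MvPolynomial ι (RatFunc κ)) M).comp
      (MvPolynomial.map (algebraMap κ[X] (RatFunc κ)))).IsIntegralElem z →
      IsIntegral (MvPolynomial ι (RatFunc κ)) z := by
    rintro z ⟨P, hP, hPz⟩
    refine ⟨P.map (MvPolynomial.map (algebraMap κ[X] (RatFunc κ))), hP.map _, ?_⟩
    rw [eval₂_map]
    exact hPz
  have hbσ : IsIntegral (MvPolynomial ι (RatFunc κ)) (γ.symm τ b) :=
    (toA b hbi).map (((γ.symm τ).restrictScalars (MvPolynomial ι (RatFunc κ)) : M ≃ₐ[_] M) :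
      M →ₐ[MvPolynomial ι (RatFunc κ)] M)
  let bb : integralClosure (MvPolynomial ι (RatFunc κ)) M := ⟨b, toA b hbi⟩
  let b' : integralClosure (MvPolynomial ι (RatFunc κ)) M := ⟨γ.symm τ b, hbσ⟩
  let c : integralClosure (MvPolynomial ι (RatFunc κ)) M := ⟨(γ.symm τ b - b)⁻¹, toA _ hci⟩
  have h3 : π b' = τ (π bb) := by
    rw [hπ2 (γ.symm τ) bb b' rfl, γ.apply_symm_apply]
  have h4 : (b' - bb) * c = 1 := by
    apply Subtype.val_injective
    exact mul_inv_cancel₀ (sub_ne_zero.2 hb)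
  have h5 : (τ (π bb) - π bb) * π c = 1 := by
    rw [← h3, ← map_sub, ← map_mul, h4, map_one]
  refine ⟨π bb, intg a π hπ1 bb hbi, fun h => ?_, ?_⟩
  · rw [h, sub_self, zero_mul] at h5
    exact zero_ne_one h5
  · rw [← eq_inv_of_mul_eq_one_right h5]
    exact intg a π hπ1 c hci

end Pool.Agent.Y140.AW
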