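import Mathlib
import Pool.Agent.Y140.AW.Stm2
import Pool.Agent.Y140.AW.Abs
import Pool.Agent.H391R2.T4.Ari
import Pool.Agent.W200.IJ.SG

/-! ARI2: arithmetic assembly for étale covers of the affine line
(project AW, owner helper140). -/

set_option autoImplicit false

namespace Pool.Agent.Y140.AW

open MvPolynomial
open Pool.Agent.H391R2 Pool.Agent.H391R2.T4 Pool.Agent.W200.IJ

/-- Integral elements over the image of a ring map. -/
theorem integral_lift {R F N : Type} [CommRing R] [Field F] [Field N] [Algebra F N]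
    (j : R →+* F) (R₀ : Subring N) (h : ∀ z ∈ R₀, ∃ c, algebraMap F N (j c) = z) (b : F)
    (hb : ∃ P : Polynomial R₀, P.Monic ∧ P.eval₂ R₀.subtype (algebraMap F N b) = 0) :
    j.IsIntegralElem b := by
  obtain ⟨P, hP, hPb⟩ := hb
  let f : R →+* N := (algebraMap F N).comp j
  have hle : ∀ z : R₀, (z : N) ∈ f.range := fun z => by
    obtain ⟨c, hc⟩ := h z z.2
    exact ⟨c, hc⟩
  let inc : R₀ →+* f.range := R₀.subtype.codRestrict f.range hle
  have hl : P.map inc ∈ Polynomial.lifts f.rangeRestrict := by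
    rw [Polynomial.mem_lifts]
    exact Polynomial.map_surjective _ f.rangeRestrict_surjective _
  obtain ⟨Q, hQ, -, hQm⟩ := Polynomial.lifts_and_natDegree_eq_and_monic hl (hP.map _)
  refine ⟨Q, hQm, (algebraMap F N).injective ?_⟩
  rw [Polynomial.hom_eval₂, map_zero]
  have h1 : f = f.range.subtype.comp f.rangeRestrict := rfl
  change Polynomial.eval₂ f (algebraMap F N b) Q = 0
  rw [h1, ← Polynomial.eval₂_map, hQ, Polynomial.eval₂_map]
  exact hPb

theorem t_arith2 (hABS : St_abs) : St_arith2 := by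
  intro κ K₀ N _ _ _ _ _ _ _ _ _ _ _ _ _ ι _ η hη G _ _ n H₀ r hr vv hvv hR hG hi1 hi2 hi3 hi4
  classical
  let K := RatFunc κ
  have hηK : IsTranscendenceBasis K η := basis_down η hη
  obtain ⟨E, iE1, iE2, iE3, iE4, iE5, ψ, hψ⟩ := exists_field hηK.1
  let _ : Algebra E N := ψ.toRingHom.toAlgebra
  have hTKEN : IsScalarTower K E N := IsScalarTower.of_algebraMap_eq fun x => (ψ.commutes x).symm
  have hηE : ∀ v, η v = algebraMap E N (algebraMap (MvPolynomial ι K) E (MvPolynomial.X v)) := by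
    intro v
    change _ = ψ _
    rw [hψ, aeval_X]
  have halg : Algebra.IsAlgebraic E N := alg_of_range η hηK fun v => ⟨_, (hηE v).symm⟩
  have hcl : IsAlgClosure E N := ⟨inferInstance, halg⟩
  have hnorm : Normal E N := IsAlgClosure.normal E N
  -- automorphisms over E
  have hσK : ∀ (σ : N ≃ₐ[E] N), ∀ v, σ (η v) = η v := by
    intro σ v
    rw [hηE, σ.commutes]
  have hEfix : ∀ (j : N →+* N), (∀ a : K, j (algebraMap K N a) = algebraMap K N a) →
      (∀ v, j (η v) = η v) → ∀ x : E, j (algebraMap E N x) = algebraMap E N x := by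
    intro j h1 h2 x
    let j' : N →ₐ[K] N := { j with commutes' := h1 }
    exact eq_on_adjoin j' (AlgHom.id K N) (Set.range η) (by
      rintro _ ⟨v, rfl⟩
      exact h2 v) _ (field_le η hηE x)
  -- the relation
  let Rel : (N ≃ₐ[E] N) → Wr G n → Prop := fun σ z =>
    ∀ i, σ (r i) = r (z.right i) ∧
      ∀ g, σ (vv i g) = vv (z.right i) (z.left (z.right i) * g)
  have hex : ∀ σ, ∃ z : H₀, Rel σ z := by
    intro σ
    obtain ⟨x, hx, hx2⟩ := hR (σ.restrictScalars K) (fun v => hσK σ v)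
    exact ⟨⟨x, hx⟩, hx2⟩
  have huniq : ∀ σ z z', Rel σ z → Rel σ z' → z = z' := by
    intro σ z z' hz hz'
    have h1 : z.right = z'.right := by
      apply Equiv.ext
      intro i
      apply hr
      rw [← (hz i).1, (hz' i).1]
    apply SemidirectProduct.ext _ h1
    funext j
    obtain ⟨i, rfl⟩ := z.right.surjective j
    have h2 := (hz i).2 1
    have h3 := (hz' i).2 1
    rw [h2, mul_one, mul_one, ← h1] at h3
    exact hvv _ h3
  have hmul : ∀ σ σ' z z', Rel σ z → Rel σ' z' → Rel (σ' * σ) (z' * z) := by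
    intro σ σ' z z' hz hz'
    refine fun i => ⟨?_, fun g => ?_⟩
    · rw [AlgEquiv.mul_apply, (hz i).1, (hz' _).1]
      rfl
    · rw [AlgEquiv.mul_apply, (hz i).2, (hz' _).2, wr_mul_right, wr_mul_left]
      change _ = vv (z'.right (z.right i)) (z'.left (z'.right (z.right i)) *
        z.left (z'.right⁻¹ (z'.right (z.right i))) * g)
      have h1 : z'.right⁻¹ (z'.right (z.right i)) = z.right i := by simp
      rw [h1, mul_assoc]
  choose Pf hPf using hex
  let π : (N ≃ₐ[E] N) →* H₀ := MonoidHom.mk' Pf (fun σ' σ =>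
    Subtype.ext (huniq _ _ _ (hPf _) (hmul σ σ' _ _ (hPf σ) (hPf σ'))))
  have hπ : ∀ σ, Rel σ (π σ) := hPf
  -- geometric automorphisms
  have hgeo : ∀ x : H₀, ∃ σ : N ≃ₐ[E] N, π σ = x ∧
      ∀ a : K₀, σ (algebraMap K₀ N a) = algebraMap K₀ N a := by
    intro x
    obtain ⟨σ, hσ1, hσ2⟩ := hG x x.2
    have h1 : ∀ x : E, σ (algebraMap E N x) = algebraMap E N x := by
      refine hEfix (σ : N →+* N) (fun a => ?_) hσ1
      rw [IsScalarTower.algebraMap_apply K K₀ N]
      exact σ.commutes _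
    let σ' : N ≃ₐ[E] N := AlgEquiv.ofRingEquiv (f := σ.toRingEquiv) h1
    exact ⟨σ', Subtype.ext (huniq σ' _ _ (hπ _) hσ2), fun a => σ.commutes a⟩
  have hsurj : Function.Surjective π := by
    intro z
    obtain ⟨σ, hσ, -⟩ := hgeo z
    exact ⟨σ, hσ⟩
  let S : Set N := Set.range r ∪ ⋃ i, Set.range (vv i)
  have hSf : S.Finite := (Set.finite_range r).union
    (Set.finite_iUnion fun i => Set.finite_range _)
  have hS : ∀ γ : N ≃ₐ[E] N, (∀ s ∈ S, γ s = s) → π γ = 1 := by
    intro γ hγ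
    refine Subtype.ext (huniq γ _ _ (hπ γ) fun i => ⟨hγ _ (Or.inl ⟨i, rfl⟩), fun g => ?_⟩)
    rw [hγ (vv i g) (Or.inr (Set.mem_iUnion.2 ⟨i, ⟨g, rfl⟩⟩))]
    change vv i g = vv i (1 * g)
    rw [one_mul]
  obtain ⟨F, iF1, iF2, iF3, iF4, iF5, iF6, e, he1, he2⟩ := finite_descent2 π hsurj S hSf hS
  let _ : Algebra (MvPolynomial ι K) F := ((algebraMap E F).comp
    (algebraMap (MvPolynomial ι K) E)).toAlgebra
  have hT1 : IsScalarTower (MvPolynomial ι K) E F := IsScalarTower.of_algebraMap_eq fun x => rfl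
  let j : MvPolynomial ι (Polynomial κ) →+* F := (algebraMap (MvPolynomial ι K) F).comp
    (MvPolynomial.map (algebraMap (Polynomial κ) K))
  -- the polynomial ring in the parameters
  have hR0 : ∀ z ∈ (Algebra.adjoin κ (Set.range η)).toSubring, ∃ c, algebraMap F N (j c) = z := by
    intro z hz
    let jN : MvPolynomial ι (Polynomial κ) →+* N := (algebraMap F N).comp j
    have hz' : z ∈ Algebra.adjoin κ (Set.range η) := hz
    induction hz' using Algebra.adjoin_induction with
    | mem x hx =>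
      obtain ⟨v, rfl⟩ := hx
      refine ⟨MvPolynomial.X v, ?_⟩
      change algebraMap F N (algebraMap E F (algebraMap (MvPolynomial ι K) E
        (MvPolynomial.map (algebraMap (Polynomial κ) K) (MvPolynomial.X v)))) = _
      rw [MvPolynomial.map_X, ← IsScalarTower.algebraMap_apply E F N, ← hηE]
    | algebraMap c =>
      refine ⟨MvPolynomial.C (Polynomial.C c), ?_⟩
      change algebraMap F N (algebraMap E F (algebraMap (MvPolynomial ι K) E
        (MvPolynomial.map (algebraMap (Polynomial κ) K) (MvPolynomial.C (Polynomial.C c))))) = _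
      rw [MvPolynomial.map_C, ← IsScalarTower.algebraMap_apply E F N]
      change algebraMap E N (algebraMap (MvPolynomial ι K) E (algebraMap K (MvPolynomial ι K) _)) =
        _
      rw [← IsScalarTower.algebraMap_apply K (MvPolynomial ι K) E,
        ← IsScalarTower.algebraMap_apply K E N,
        IsScalarTower.algebraMap_apply κ K N]
      rfl
    | add x y hx hy h1 h2 =>
      obtain ⟨c, hc⟩ := h1 hx
      obtain ⟨c', hc'⟩ := h2 hy
      exact ⟨c + c', by rw [map_add, map_add, hc, hc']⟩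
    | mul x y hx hy h1 h2 =>
      obtain ⟨c, hc⟩ := h1 hx
      obtain ⟨c', hc'⟩ := h2 hy
      exact ⟨c * c', by rw [map_mul, map_mul, hc, hc']⟩
  have hlift : ∀ b : F, IsIntegral (Algebra.adjoin κ (Set.range η)) (algebraMap F N b) →
      j.IsIntegralElem b := by
    rintro b ⟨P, hP, hPb⟩
    exact integral_lift j (Algebra.adjoin κ (Set.range η)).toSubring hR0 b ⟨P, hP, hPb⟩
  -- elements of `N` with a power in `F`
  obtain ⟨q, hq⟩ := ExpChar.exists E
  have hq' : ExpChar N q := expChar_of_injective_algebraMap (algebraMap E N).injective q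
  have hmain : ∀ (γ : N ≃ₐ[E] N) (σ : F ≃ₐ[E] F), π γ = e σ → ∀ z : N, γ z ≠ z →
      (∀ γ' : N ≃ₐ[E] N, π γ' = 1 → γ' z = z) →
      IsIntegral (Algebra.adjoin κ (Set.range η)) z →
      IsIntegral (Algebra.adjoin κ (Set.range η)) (γ z - z)⁻¹ →
      ∃ b : F, σ b ≠ b ∧ j.IsIntegralElem b ∧ j.IsIntegralElem (σ b - b)⁻¹ := by
    intro γ σ hγσ z hγz hfixz hz1 hz2
    obtain ⟨k, y, hy⟩ := IsPurelyInseparable.pow_mem (separableClosure E N) q z
    have hsep : IsSeparable E (z ^ q ^ k) := by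
      rw [← hy]
      exact mem_separableClosure_iff.1 y.2
    obtain ⟨b, hb⟩ := he2 (z ^ q ^ k) hsep (fun γ' hγ' => by rw [map_pow, hfixz γ' hγ'])
    have h1 : algebraMap F N (σ b) = γ (z ^ q ^ k) := by
      rw [← hb, he1 γ b, hγσ, MulEquiv.symm_apply_apply]
    have h2 : algebraMap F N (σ b - b) = (γ z - z) ^ q ^ k := by
      rw [map_sub, h1, hb, map_pow, sub_pow_expChar_pow]
    refine ⟨b, fun h => ?_, hlift b (by rw [hb]; exact hz1.pow _), hlift _ ?_⟩
    · rw [h, sub_self, map_zero] at h2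
      exact pow_ne_zero _ (sub_ne_zero.2 hγz) h2.symm
    · rw [map_inv₀, h2, ← inv_pow]
      exact hz2.pow _
  refine hABS κ ι E F H₀ e fun σ hσ => ?_
  obtain ⟨γ, hγ⟩ := hsurj (e σ)
  have hfix1 : ∀ γ' : N ≃ₐ[E] N, π γ' = 1 → (∀ i, γ' (r i) = r i) ∧
      ∀ i g, γ' (vv i g) = vv i g := by
    intro γ' h
    have h1 := hπ γ'
    rw [h] at h1
    refine ⟨fun i => (h1 i).1, fun i g => ?_⟩
    have h2 := (h1 i).2 g
    rw [h2]
    change vv i (1 * g) = vv i g
    rw [one_mul]
  by_cases hr1 : ∃ i, (π γ : Wr G n).right i ≠ i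
  · obtain ⟨i, hi⟩ := hr1
    have h1 : γ (r i) = r ((π γ : Wr G n).right i) := (hπ γ i).1
    refine hmain γ σ hγ (r i) (fun h => hi (hr (by rw [← h1, h]))) (fun γ' h => (hfix1 γ' h).1 i)
      (hi1 i) ?_
    rw [h1]
    exact hi2 _ _ hi
  · push Not at hr1
    have hex1 : ∃ i, (π γ : Wr G n).left i ≠ 1 := by
      by_contra hcon
      push Not at hcon
      apply hσ
      apply e.injective
      rw [map_one, ← hγ]
      apply Subtype.ext
      apply SemidirectProduct.ext
      · funext i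
        exact hcon i
      · apply Equiv.ext
        intro i
        exact hr1 i
    obtain ⟨i, hi⟩ := hex1
    have h1 : γ (vv i 1) = vv i ((π γ : Wr G n).left i) := by
      have h2 := (hπ γ i).2 1
      rw [hr1 i, mul_one] at h2
      exact h2
    refine hmain γ σ hγ (vv i 1) (fun h => hi (hvv i (by rw [← h1, h])))
      (fun γ' h => (hfix1 γ' h).2 i 1) (hi3 i 1) ?_
    rw [h1]
    exact hi4 i _ _ hi

end Pool.Agent.Y140.AW
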