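import Mathlib
import Pool.Agent.Y140.AW.Stm
import Pool.Agent.Y140.IG.PI
import Pool.Agent.Y140.HD.Hilb
import Pool.Agent.Y241.WR.Grp
import Pool.Agent.W200.IJ.CA

/-!
Consequences of the main theorem for `𝔽_p(X)` (project AW, owner helper140).
-/

set_option autoImplicit false

namespace Pool.Agent.Y140.AW

open Pool.Agent.H391R2 Pool.Agent.H391R2.T4 Pool.Agent.Y793 Pool.Agent.Y140.IG
open Pool.Agent.TH444.TW (RegularOver)

theorem infinite_ratFunc (k : Type) [Field k] : Infinite (RatFunc k) :=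
  Infinite.of_injective (algebraMap (Polynomial k) (RatFunc k))
    (FaithfulSMul.algebraMap_injective _ _)

/-- Every finite group is a subgroup of a group occurring regularly. -/
theorem exists_big (p : ℕ) [Fact p.Prime] (K : Type) [Field K] [Infinite K] [CharP K p]
    (G : Type) [Group G] [Finite G] :
    ∃ (Γ : Type) (_ : Group Γ) (_ : Finite Γ) (f : G →* Γ), Function.Injective f ∧
      RegSol K K Γ 1 := by
  let φ : (K ≃ₐ[K] K) →* MulAut G := 1
  obtain ⟨n₀, hn₀⟩ := Pool.Agent.W200.IJ.reg_wreath_inf p K K G φ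
  obtain ⟨hn, hR⟩ := hn₀ n₀ le_rfl
  have hfin : Finite (EG φ n₀) := finite_eg φ n₀
  have h1 : (SemidirectProduct.rightHom : EG φ n₀ →* (K ≃ₐ[K] K)) = 1 := by
    ext x y
    have h2 : ∀ ρ : K ≃ₐ[K] K, ρ y = y := fun ρ => ρ.commutes y
    rw [h2, h2]
  rw [h1] at hR
  let f₁ : G →* (Fin n₀ → G) := Pi.constMonoidHom (Fin n₀) G
  refine ⟨EG φ n₀, inferInstance, hfin,
    (SemidirectProduct.inl : Wr G n₀ →* EG φ n₀).comp
      ((SemidirectProduct.inl : (Fin n₀ → G) →* Wr G n₀).comp f₁), ?_, hR⟩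
  intro a b hab
  have h3 : f₁ a = f₁ b :=
    SemidirectProduct.inl_injective (SemidirectProduct.inl_injective hab)
  exact congrFun h3 ⟨0, by omega⟩

/-- Consequences over all fields of characteristic `p`. -/
theorem out_of (h : St_main) (p : ℕ) [Fact p.Prime] (hp : p ≠ 2) (G : Type) [Group G] [Finite G]
    (hG : commutator G = ⊤) (n₀ : ℕ) :
    ∃ n ≥ n₀, commutator (AWr G n) = ⊤ ∧ Occurs (RatFunc (ZMod p)) (AWr G n) ∧
      ∀ (K : Type) [Field K] [CharP K p], RegularOver K (AWr G n) ∧ WreathRegular K (AWr G n) ∧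
        (HilbField K → WreathProper K (AWr G n)) := by
  have hinf : Infinite (RatFunc (ZMod p)) := infinite_ratFunc _
  have hch : CharP (RatFunc (ZMod p)) p :=
    charP_of_injective_algebraMap (algebraMap (ZMod p) (RatFunc (ZMod p))).injective p
  obtain ⟨Γ, _, _, f, hf, hR⟩ := exists_big p (RatFunc (ZMod p)) G
  obtain ⟨n, hn, hn2⟩ := h p hp (RatFunc (ZMod p)) Γ G f hf hR hG (n₀ + 5)
  have hfin : Finite (Wr G n) := finite_wr G n
  have hfin2 : Finite (AWr G n) := inferInstance
  have hperf : commutator (AWr G n) = ⊤ := Pool.Agent.Y241.WR.t_perf G hG n (by omega)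
  have hocc : Occurs (RatFunc (ZMod p)) (AWr G n) :=
    occurs_of_regular (Pool.Agent.Y140.HD.hilb_ratFunc (ZMod p)) ((regularOver_iff _ _).2 hn2)
  have hab : Nat.card (Abelianization (AWr G n)) = 1 := by
    have h1 : Subsingleton (Abelianization (AWr G n)) := by
      rw [show Abelianization (AWr G n) = ((AWr G n) ⧸ commutator (AWr G n)) from rfl, hperf]
      exact QuotientGroup.subsingleton_quotient_top
    exact Nat.card_unique
  have h0 : (Nat.card (Abelianization (AWr G n))).primeFactors.card = 0 := by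
    rw [hab]
    simp
  have hT := one_group (ZMod p) (AWr G n)
  have h2 : Occurs (RatFunc (ZMod p))
      (Fin ((Nat.card (Abelianization (AWr G n))).primeFactors.card + 1) → AWr G n) := by
    rw [h0]
    exact hocc.congr (MulEquiv.funUnique (Fin 1) (AWr G n)).symm
  have h3 : ∀ (K : Type) [Field K] [Algebra (ZMod p) K], WreathRegular K (AWr G n) :=
    (hT.out 1 2).1 h2
  refine ⟨n, by omega, hperf, hocc, fun K _ _ => ?_⟩
  let _ : Algebra (ZMod p) K := ZMod.algebra K p
  exact ⟨regular_congr (MulEquiv.funUnique (Fin 1) (AWr G n)) (regular_of_wreath (h3 K) 1), h3 K,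
    fun hK => wreath_proper hK (h3 K)⟩

end Pool.Agent.Y140.AW
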