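import Mathlib
import Pool.Agent.Y140.AW.Stm

/-!
Equivariance of the points (project AW, owner helper140).
-/

set_option autoImplicit false

namespace Pool.Agent.Y140.AW

open Polynomial

section

variable {K N N' : Type} [Field K] [Field N] [Algebra K N] [Field N'] [Algebra K N']

theorem tA_map (Θ : K[X][X]) (σ : N →ₐ[K] N') (a : N) :
    tA Θ (σ a) = (tA Θ a).map (σ : N →+* N') := by
  unfold tA
  rw [Polynomial.map_map]
  congr 1
  apply Polynomial.ringHom_ext
  · intro r
    change aeval (σ a) (C r) = σ (aeval a (C r))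
    rw [aeval_C, aeval_C, σ.commutes]
  · change aeval (σ a) X = σ (aeval a X)
    rw [aeval_X, aeval_X]

theorem tZ_map (Θ : K[X][X]) (σ : N →ₐ[K] N') (a b : N) :
    tZ Θ (σ a) (σ b) = σ (tZ Θ a b) := by
  unfold tZ
  rw [tA_map, derivative_map, eval_map]
  exact eval₂_at_apply (σ : N →+* N') b

theorem GG_map (D : K[X]) (p B : ℕ) {m : ℕ} (ν : Fin m → N) (σ : N →ₐ[K] N') :
    GG D p B (fun i => σ (ν i)) = (GG D p B ν).map (σ : N →+* N') := by
  have hD : (D.map (algebraMap K N)).map (σ : N →+* N') = D.map (algebraMap K N') := by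
    rw [Polynomial.map_map]
    congr 1
    ext r
    exact σ.commutes r
  unfold GG
  simp only [Polynomial.map_add, Polynomial.map_mul, Polynomial.map_pow, Polynomial.map_sum,
    Polynomial.map_X, Polynomial.map_C, Polynomial.map_one, hD]
  rfl

theorem IsPt.map {Θ : K[X][X]} {D : K[X]} {p B m : ℕ} {ν : Fin m → N} {s a b : N}
    (h : IsPt Θ D p B ν s a b) (σ : N →ₐ[K] N') :
    IsPt Θ D p B (fun i => σ (ν i)) (σ s) (σ a) (σ b) := by
  refine ⟨?_, ?_, ?_⟩
  · rw [tA_map]
    have : ((tA Θ a).map (σ : N →+* N')).eval (σ b) = σ ((tA Θ a).eval b) := by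
      rw [eval_map]
      exact eval₂_at_apply (σ : N →+* N') b
    rw [this, h.1, map_zero]
  · rw [aeval_algHom_apply]
    exact (map_ne_zero_iff _ (σ : N →+* N').injective).2 h.2.1
  · rw [GG_map]
    have : ((GG D p B ν).map (σ : N →+* N')).eval (σ a) = σ ((GG D p B ν).eval a) := by
      rw [eval_map]
      exact eval₂_at_apply (σ : N →+* N') a
    rw [this, h.2.2, aeval_algHom_apply, map_mul, map_pow, map_mul]

theorem GG_eval (D : K[X]) (p B : ℕ) {m : ℕ} (ν : Fin m → N) (a : N) :
    (GG D p B ν).eval a = a * (aeval a D) ^ p + (a ^ B * aeval a D + 1) ^ p +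
      (aeval a D) ^ p * ∑ i : Fin m, ν i * (a ^ p) ^ (i : ℕ) := by
  unfold GG
  simp only [eval_add, eval_mul, eval_pow, eval_X, eval_C, eval_one, eval_finset_sum,
    eval_map_algebraMap, pow_mul]

/-- The parameters are determined by `m` points. -/
theorem lin {p : ℕ} [Fact p.Prime] [CharP N p] {Θ : K[X][X]} {D : K[X]} {B m : ℕ}
    {ν ν' : Fin m → N} {s : N} (x θ : Fin m → N) (hx : Function.Injective x)
    (h : ∀ j, IsPt Θ D p B ν s (x j) (θ j)) (h' : ∀ j, IsPt Θ D p B ν' s (x j) (θ j)) :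
    ν = ν' := by
  have hinj : Function.Injective (fun j => x j ^ p) := by
    intro i j hij
    exact hx (frobenius_inj N p hij)
  have h1 : (fun i => ν i - ν' i) = 0 := by
    refine Matrix.eq_zero_of_forall_index_sum_pow_mul_eq_zero hinj fun j => ?_
    have h2 := (h j).2.2
    have h3 := (h' j).2.2
    rw [← h3, GG_eval, GG_eval] at h2
    have h4 := mul_left_cancel₀ (pow_ne_zero p (h j).2.1) (add_left_cancel h2)
    have h5 : ∑ i : Fin m, (x j ^ p) ^ (i : ℕ) * (ν i - ν' i) =
        ∑ i : Fin m, ν i * (x j ^ p) ^ (i : ℕ) - ∑ i : Fin m, ν' i * (x j ^ p) ^ (i : ℕ) := by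
      rw [← Finset.sum_sub_distrib]
      exact Finset.sum_congr rfl fun i _ => by ring
    rw [h5, h4, sub_self]
  funext i
  exact sub_eq_zero.1 (congrFun h1 i)

end

end Pool.Agent.Y140.AW
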