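import Pool.Agent.Y140.AW.Main2
import Pool.Agent.Y140.AW.Out
import Pool.Agent.Y140.AW.Ari2
import Pool.Agent.Y688.AW.MT
import Pool.Agent.Y421.AW.Res
import Pool.Agent.Y317.AW.Uni
import Pool.Agent.Y436.AW.Par
import Pool.Agent.Y548.AW.Lift
import Pool.Agent.Y261.AW.Data
import Pool.Agent.Y543.AW2.Pts
import Pool.Agent.Y543.AW2.Int
import Pool.Agent.Y543.AW2.Tup
import Pool.Agent.Y145.AW2.Zero2
import Pool.Agent.Y195.AW2.Spb
import Pool.Agent.Y921.AW2.Spa
import Pool.Agent.Y3.AW2.Sq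
import Pool.Agent.Y686.AW2.Indep2
import Pool.Agent.Y534.AW2.Data
import Pool.Agent.Y153.AW2.Hit
import Pool.Agent.Y849.AW2.Gsp
import Pool.Agent.Y77.AW2.Unr
import Pool.Agent.W200.IJ.CE

/-!
The second main theorem (project AW, owner helper140).
-/

set_option autoImplicit false

namespace Pool.Agent.Y140.AW

open Pool.Agent.H391R2 Pool.Agent.H391R2.T4 Pool.Agent.Y793 Pool.Agent.Y140.IG
open Pool.Agent.TH444.TW (RegularOver)

theorem t_main2 : St_main2 :=
  have hpts := Y543.AW2.t_pts2 Y421.AW.t_res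
  have hint := Y543.AW2.t_int2 Y421.AW.t_res
  main2_of Y688.AW.t_mt hpts hint
    (Y3.AW2.t_sq hpts hint (Y145.AW2.t_zero2 Y421.AW.t_res) (Y921.AW2.t_spa hpts hint)
      (Y195.AW2.t_spb hint Y421.AW.t_res) Y317.AW.t_uni)
    Y436.AW.t_par (Y543.AW2.t_tuple2 Y543.AW2.t_step2) Y686.AW2.t_indep2 Y548.AW.t_lift
    (t_arith2 (t_abs (Y849.AW2.t_gsp Pool.Agent.Y153.AW2.Hit.t_hit) Y77.AW2.t_unr))
    (Y534.AW2.t_data2 Y261.AW.t_data)

/-- Every finite group is a subgroup of a group occurring regularly over `κ`. -/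
theorem exists_big' (K : Type) [Field K] (G : Type) [Group G] [Finite G] :
    ∃ (Γ : Type) (_ : Group Γ) (_ : Finite Γ) (f : G →* Γ), Function.Injective f ∧
      RegSol K K Γ 1 := by
  let φ : (K ≃ₐ[K] K) →* MulAut G := 1
  obtain ⟨n₀, hn₀⟩ := Pool.Agent.W200.IJ.regWr_all K K G φ
  obtain ⟨hn, hR⟩ := hn₀ n₀ le_rfl
  have hfin : Finite (EG φ n₀) := finite_eg φ n₀
  have h1 : (SemidirectProduct.rightHom : EG φ n₀ →* (K ≃ₐ[K] K)) = 1 := by
    ext x y
    have h2 : ∀ ρ : K ≃ₐ[K] K, ρ y = y := fun ρ => ρ.commutes y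
    rw [h2, h2]
  rw [h1] at hR
  let f₁ : G →* (Fin n₀ → G) := Pi.constMonoidHom (Fin n₀) G
  refine ⟨EG φ n₀, inferInstance, hfin,
    (SemidirectProduct.inl : Wr G n₀ →* EG φ n₀).comp
      ((SemidirectProduct.inl : (Fin n₀ → G) →* Wr G n₀).comp f₁), ?_, hR⟩
  intro a b hab
  have h3 : f₁ a = f₁ b :=
    SemidirectProduct.inl_injective (SemidirectProduct.inl_injective hab)
  exact congrFun h3 ⟨0, by omega⟩

/-- Consequences over all fields of characteristic `p`, with the étale cover of the affine line. -/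
theorem out2 (p : ℕ) [Fact p.Prime] (hp : p ≠ 2) (G : Type) [Group G] [Finite G]
    (hG : commutator G = ⊤) (n₀ : ℕ) :
    ∃ n ≥ n₀, commutator (AWr G n) = ⊤ ∧ UnrAff (ZMod p) (AWr G n) ∧
      ∀ (K : Type) [Field K] [CharP K p], RegularOver K (AWr G n) ∧ WreathRegular K (AWr G n) ∧
        (HilbField K → WreathProper K (AWr G n)) := by
  obtain ⟨Γ, _, _, f, hf, hR⟩ := exists_big' (ZMod p) G
  obtain ⟨n, hn, hn2⟩ := t_main2 p hp (ZMod p) Γ G f hf hR hG (n₀ + 5)
  have hfin : Finite (Wr G n) := finite_wr G n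
  have hfin2 : Finite (AWr G n) := inferInstance
  have hperf : commutator (AWr G n) = ⊤ := Pool.Agent.Y241.WR.t_perf G hG n (by omega)
  have hocc : Occurs (RatFunc (ZMod p)) (AWr G n) := by
    obtain ⟨L, i1, i2, i3, i4, i5, i6, γ, -⟩ := hn2
    exact ⟨L, i1, i2, i5, i6, γ⟩
  have hab : Nat.card (Abelianization (AWr G n)) = 1 := by
    have h1 : Subsingleton (Abelianization (AWr G n)) := by
      rw [show Abelianization (AWr G n) = ((AWr G n) ⧸ commutator (AWr G n)) from rfl, hperf]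
      exact QuotientGroup.subsingleton_quotient_top
    exact Nat.card_unique
  have h0 : (Nat.card (Abelianization (AWr G n))).primeFactors.card = 0 := by
    rw [hab]
    simp
  have hT := one_group (ZMod p) (AWr G n)
  have h2 : Occurs (RatFunc (ZMod p))
      (Fin ((Nat.card (Abelianization (AWr G n))).primeFactors.card + 1) → AWr G n) := by
    rw [h0]
    exact hocc.congr (MulEquiv.funUnique (Fin 1) (AWr G n)).symm
  have h3 : ∀ (K : Type) [Field K] [Algebra (ZMod p) K], WreathRegular K (AWr G n) :=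
    (hT.out 1 2).1 h2
  refine ⟨n, by omega, hperf, hn2, fun K _ _ => ?_⟩
  let _ : Algebra (ZMod p) K := ZMod.algebra K p
  exact ⟨regular_congr (MulEquiv.funUnique (Fin 1) (AWr G n)) (regular_of_wreath (h3 K) 1), h3 K,
    fun hK => wreath_proper hK (h3 K)⟩

end Pool.Agent.Y140.AW
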