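import Pool.Agent.Y140.AW.Main3
import Pool.Agent.Y140.AW.Fin2

/-!
The third main theorem (project AW, owner helper140).
-/

set_option autoImplicit false

namespace Pool.Agent.Y140.AW

open Pool.Agent.H391R2 Pool.Agent.H391R2.T4 Pool.Agent.Y793 Pool.Agent.Y140.IG

theorem t_main3 : St_main3 :=
  have hpts := Y543.AW2.t_pts2 Y421.AW.t_res
  have hint := Y543.AW2.t_int2 Y421.AW.t_res
  main3_of Y688.AW.t_mt hpts hint
    (Y3.AW2.t_sq hpts hint (Y145.AW2.t_zero2 Y421.AW.t_res) (Y921.AW2.t_spa hpts hint)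
      (Y195.AW2.t_spb hint Y421.AW.t_res) Y317.AW.t_uni)
    Y436.AW.t_par (Y543.AW2.t_tuple2 Y543.AW2.t_step2) Y686.AW2.t_indep2 Y548.AW.t_lift
    (t_arith3 (t_abs (Y849.AW2.t_gsp Pool.Agent.Y153.AW2.Hit.t_hit) Y77.AW2.t_unr))
    (Y534.AW2.t_data2 Y261.AW.t_data)

theorem UnrAff.congr {κ H H' : Type} [Field κ] [Group H] [Group H'] (h : UnrAff κ H)
    (e : H ≃* H') : UnrAff κ H' := by
  obtain ⟨L, i1, i2, i3, i4, i5, i6, ⟨γ⟩, h2⟩ := h
  exact ⟨L, i1, i2, i3, i4, i5, i6, ⟨γ.trans e⟩, h2⟩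

/-- Covers of the affine line with a cyclic factor. -/
theorem out3 (p : ℕ) [Fact p.Prime] (hp : p ≠ 2) (κ : Type) [Field κ] [Finite κ] [CharP κ p]
    (G : Type) [Group G] [Finite G] (hG : commutator G = ⊤) (n₀ : ℕ) :
    ∃ n ≥ n₀, ∀ (C : Type) [Group C] [Finite C], IsCyclic C → UnrAff κ (AWr G n × C) := by
  obtain ⟨Γ, _, _, f, hf, hR⟩ := exists_big' κ G
  obtain ⟨n, hn, hn2⟩ := t_main3 p hp κ Γ G f hf hR hG n₀
  refine ⟨n, hn, fun C _ _ hC => ?_⟩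
  have h0 : NeZero (Nat.card C) := ⟨Nat.card_pos.ne'⟩
  let κ' := FiniteField.Extension κ p (Nat.card C)
  have h1 : Nat.card (κ' ≃ₐ[κ] κ') = Nat.card C := by
    rw [IsGalois.card_aut_eq_finrank, FiniteField.finrank_extension]
  exact (hn2 κ').congr ((MulEquiv.refl _).prodCongr (mulEquivOfCyclicCardEq h1))

end Pool.Agent.Y140.AW
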