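import Mathlib
import Pool.Agent.Y140.AW.Stm2

/-!
Statements (NOT results) of the third part of the project AW: wreath products over étale covers of
the affine line (owner helper140, problem MP_37a734_ag).
-/

set_option autoImplicit false

namespace Pool.Agent.Y140.AW

open Polynomial

/-- UNR3: a criterion for being unramified, and its converse. -/
def St_unr3 : Prop :=
  ∀ (κ L : Type) [Field κ] [Finite κ] [Field L] [Algebra (RatFunc κ) L] [Algebra κ[X] L]
    [IsScalarTower κ[X] (RatFunc κ) L] [FiniteDimensional (RatFunc κ) L] [IsGalois (RatFunc κ) L],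
    (∀ τ : L ≃ₐ[RatFunc κ] L, τ ≠ 1 → ∃ (m : ℕ) (b c : Fin m → L), (∀ i, IsIntegral κ[X] (b i)) ∧
      (∀ i, IsIntegral κ[X] (c i)) ∧ ∑ i, c i * (τ (b i) - b i) = 1) ↔
    ∀ (q : Ideal (integralClosure κ[X] L)) (_ : q.IsPrime), Algebra.IsUnramifiedAt κ[X] q

/-- ABS3: from Galois extensions over `κ(t)(ν)`, unramified over `κ[t][ν]`, to the affine line. -/
def St_abs3 : Prop :=
  ∀ (κ ι F M H : Type) [Field κ] [Finite κ] [Finite ι] [Field F]
    [Algebra (MvPolynomial ι (RatFunc κ)) F] [IsFractionRing (MvPolynomial ι (RatFunc κ)) F]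
    [Field M] [Algebra F M] [Algebra (MvPolynomial ι (RatFunc κ)) M]
    [IsScalarTower (MvPolynomial ι (RatFunc κ)) F M] [FiniteDimensional F M] [IsGalois F M]
    [Group H] (_ : (M ≃ₐ[F] M) ≃* H),
    (∀ σ : M ≃ₐ[F] M, σ ≠ 1 → ∃ (m : ℕ) (b c : Fin m → M),
      (∀ i, ((algebraMap (MvPolynomial ι (RatFunc κ)) M).comp
        (MvPolynomial.map (algebraMap κ[X] (RatFunc κ)))).IsIntegralElem (b i)) ∧
      (∀ i, ((algebraMap (MvPolynomial ι (RatFunc κ)) M).comp
        (MvPolynomial.map (algebraMap κ[X] (RatFunc κ)))).IsIntegralElem (c i)) ∧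
      ∑ i, c i * (σ (b i) - b i) = 1) →
    UnrAff κ H

end Pool.Agent.Y140.AW
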