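import Mathlib
import Pool.Agent.Y140.AW.Stm3
import Pool.Agent.Y77.AW2.UnrM

/-!
The criterion for being unramified in terms of finite sums, and its converse (project AW, owner
helper140; after helper77's file UnrM).
-/

set_option autoImplicit false

namespace Pool.Agent.Y140.AW

open Polynomial

attribute [local instance] Pool.Agent.Y77.AW2.smulCommClass_aux

section

variable (κ L : Type) [Field κ] [Finite κ] [Field L] [Algebra (RatFunc κ) L] [Algebra κ[X] L]
    [IsScalarTower κ[X] (RatFunc κ) L] [FiniteDimensional (RatFunc κ) L] [IsGalois (RatFunc κ) L]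

/-- Unramified means trivial inertia. -/
theorem unr_iff (q : Ideal (integralClosure κ[X] L)) [hq : q.IsPrime] (hq0 : q ≠ ⊥) :
    Algebra.IsUnramifiedAt κ[X] q ↔ ∀ τ : L ≃ₐ[RatFunc κ] L,
      (∀ β : integralClosure κ[X] L, τ • β - β ∈ q) → τ = 1 := by
  classical
  have hfr : IsFractionRing (integralClosure κ[X] L) L :=
    integralClosure.isFractionRing_of_finite_extension (RatFunc κ) L
  have hdd : IsDedekindDomain (integralClosure κ[X] L) :=
    integralClosure.isDedekindDomain κ[X] (RatFunc κ) L
  have hfin : Module.Finite κ[X] (integralClosure κ[X] L) :=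
    IsIntegralClosure.finite κ[X] (RatFunc κ) L (integralClosure κ[X] L)
  have hinj : Function.Injective (algebraMap κ[X] L) := by
    rw [IsScalarTower.algebraMap_eq κ[X] (RatFunc κ) L]
    exact (algebraMap (RatFunc κ) L).injective.comp (IsFractionRing.injective κ[X] (RatFunc κ))
  have hinj' : Function.Injective (algebraMap κ[X] (integralClosure κ[X] L)) := by
    intro a b hab
    exact hinj (congrArg (algebraMap (integralClosure κ[X] L) L) hab)
  have htf : Module.IsTorsionFree κ[X] (integralClosure κ[X] L) := by
    rw [Module.isTorsionFree_iff_algebraMap_injective]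
    exact hinj'
  have hfree : Module.Free κ[X] (integralClosure κ[X] L) := inferInstance
  have hp0 : q.under κ[X] ≠ ⊥ := fun h0 => hq0 (Ideal.eq_bot_of_comap_eq_bot h0)
  have hpm : (q.under κ[X]).IsMaximal := Ideal.IsPrime.isMaximal inferInstance hp0
  let _ : Field (κ[X] ⧸ q.under κ[X]) := Ideal.Quotient.field _
  have hf1 : Module.Finite κ (κ[X] ⧸ q.under κ[X]) :=
    finite_of_finite_type_of_isJacobsonRing κ _
  have hf2 : Finite (κ[X] ⧸ q.under κ[X]) := Module.finite_of_finite κ
  have hf3 : Finite (q.under κ[X]).ResidueField :=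
    Finite.of_surjective _ (Ideal.bijective_algebraMap_quotient_residueField (q.under κ[X])).2
  have hperf : PerfectField (q.under κ[X]).ResidueField := inferInstance
  have hgal : IsGaloisGroup (L ≃ₐ[RatFunc κ] L) κ[X] (integralClosure κ[X] L) :=
    IsGaloisGroup.of_isFractionRing (L ≃ₐ[RatFunc κ] L) κ[X] (integralClosure κ[X] L)
      (RatFunc κ) L
  rw [← Ideal.ramificationIdx_eq_one_iff,
    ← Ideal.ramificationIdxIn_eq_ramificationIdx (q.under κ[X]) q (L ≃ₐ[RatFunc κ] L),
    ← Ideal.card_inertia_eq_ramificationIdxIn (G := L ≃ₐ[RatFunc κ] L) (q.under κ[X]) q]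
  rw [Subgroup.card_eq_one, Subgroup.eq_bot_iff_forall]
  exact ⟨fun h τ hτ => h τ hτ, fun h τ hτ => h τ hτ⟩

end

theorem t_unr3 : St_unr3 := by
  intro κ L _ _ _ _ _ _ _ _
  constructor
  · intro h q hq
    by_cases hq0 : q = ⊥
    · -- the generic point
      subst hq0
      have hfr : IsFractionRing (integralClosure κ[X] L) L :=
        integralClosure.isFractionRing_of_finite_extension (RatFunc κ) L
      have hloc : IsFractionRing (integralClosure κ[X] L)
          (Localization.AtPrime (⊥ : Ideal (integralClosure κ[X] L))) := by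
        simpa [Ideal.primeCompl_bot] using
          Localization.isLocalization (M := (⊥ : Ideal (integralClosure κ[X] L)).primeCompl)
      have h1 : Algebra.FormallyUnramified κ[X] (RatFunc κ) :=
        Algebra.FormallyUnramified.of_isLocalization (nonZeroDivisors κ[X])
      have h2 : Algebra.FormallyUnramified (RatFunc κ) L :=
        Algebra.FormallyUnramified.of_isSeparable _ _
      have h3 : Algebra.FormallyUnramified κ[X] L :=
        Algebra.FormallyUnramified.comp κ[X] (RatFunc κ) L
      exact Algebra.FormallyUnramified.of_equiv ((IsLocalization.algEquiv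
        (nonZeroDivisors (integralClosure κ[X] L)) L
        (Localization.AtPrime (⊥ : Ideal (integralClosure κ[X] L)))).restrictScalars κ[X])
    · refine (unr_iff κ L q hq0).2 fun τ hτ => ?_
      by_contra hne
      obtain ⟨m, b, c, hb, hc, hs⟩ := h τ hne
      let β : Fin m → integralClosure κ[X] L := fun i => ⟨b i, hb i⟩
      let γ : Fin m → integralClosure κ[X] L := fun i => ⟨c i, hc i⟩
      have h5 : ∑ i, γ i * (τ • β i - β i) = 1 := by
        apply Subtype.ext
        rw [AddSubmonoidClass.coe_finsetSum]
        exact hs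
      have h6 : (1 : integralClosure κ[X] L) ∈ q := by
        rw [← h5]
        exact q.sum_mem fun i _ => q.mul_mem_left _ (hτ (β i))
      exact hq.ne_top ((Ideal.eq_top_iff_one q).2 h6)
  · intro h τ hτ
    have hfr : IsFractionRing (integralClosure κ[X] L) L :=
      integralClosure.isFractionRing_of_finite_extension (RatFunc κ) L
    let I : Ideal (integralClosure κ[X] L) :=
      Ideal.span (Set.range fun β : integralClosure κ[X] L => τ • β - β)
    have hI : I = ⊤ := by
      by_contra hne
      obtain ⟨q, hqm, hIq⟩ := Ideal.exists_le_maximal I hne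
      have hmem : ∀ β : integralClosure κ[X] L, τ • β - β ∈ q := fun β =>
        hIq (Ideal.subset_span ⟨β, rfl⟩)
      have hqp : q.IsPrime := hqm.isPrime
      by_cases hq0 : q = ⊥
      · apply hτ
        apply AlgEquiv.ext
        intro z
        obtain ⟨a, b, hb, rfl⟩ := IsFractionRing.div_surjective (integralClosure κ[X] L) z
        have h1 : ∀ β : integralClosure κ[X] L, τ (algebraMap _ L β) = algebraMap _ L β := by
          intro β
          have h2 := hmem β
          rw [hq0, Ideal.mem_bot, sub_eq_zero] at h2
          exact congrArg Subtype.val h2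
        rw [map_div₀, h1, h1]
        rfl
      · exact hτ ((unr_iff κ L q hq0).1 (h q hqp) τ hmem)
    have h1 : (1 : integralClosure κ[X] L) ∈ I := by
      rw [hI]
      exact Submodule.mem_top
    obtain ⟨m, f, g, hfg⟩ := Submodule.mem_span_set'.1 h1
    choose b hb using fun i => (g i).2
    refine ⟨m, fun i => (b i : L), fun i => (f i : L), fun i => (b i).2, fun i => (f i).2, ?_⟩
    have h2 := congrArg Subtype.val hfg
    rw [AddSubmonoidClass.coe_finsetSum] at h2
    refine Eq.trans (Finset.sum_congr rfl fun i _ => ?_) h2
    have h3 : ((g i : integralClosure κ[X] L) : L) = τ (b i) - b i := by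
      rw [← hb i]
      rfl
    rw [← h3]
    rfl

end Pool.Agent.Y140.AW
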