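import Pool.Agent.Y140.AW.Tw2
import Pool.Agent.Y140.AW.Unr3
import Pool.Agent.Y140.AW.Fin3

/-!
Wreath products over étale covers of the affine line (project AW, owner helper140).
-/

set_option autoImplicit false

namespace Pool.Agent.Y140.AW

open Polynomial Pool.Agent.H391R2 Pool.Agent.H391R2.T4 Pool.Agent.Y793 Pool.Agent.Y140.IG

theorem t_main4 : St_main4 :=
  have hpts := Y543.AW2.t_pts2 Y421.AW.t_res
  have hint := Y543.AW2.t_int2 Y421.AW.t_res
  main4_of Y688.AW.t_mt hpts hint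
    (Y3.AW2.t_sq hpts hint (Y145.AW2.t_zero2 Y421.AW.t_res) (Y921.AW2.t_spa hpts hint)
      (Y195.AW2.t_spb hint Y421.AW.t_res) Y317.AW.t_uni)
    Y436.AW.t_par (Y543.AW2.t_tuple2 Y543.AW2.t_step2) Y686.AW2.t_indep2 Y548.AW.t_lift
    (Y534.AW2.t_data2 Y261.AW.t_data)

theorem t_abs3' : St_abs3 :=
  t_abs3 (Y849.AW2.t_gsp Pool.Agent.Y153.AW2.Hit.t_hit) t_unr3

/-- `X` is a transcendence basis of `K(X)`. -/
theorem basis_X (K : Type) [Field K] :
    IsTranscendenceBasis K (fun _ : Unit => (RatFunc.X : RatFunc K)) := by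
  have h1 : AlgebraicIndependent K (fun _ : Unit => (RatFunc.X : RatFunc K)) :=
    (algebraicIndependent_unique_type_iff (ι := Unit)).2 (RatFunc.transcendental_X (K := K))
  rw [h1.isTranscendenceBasis_iff_isAlgebraic]
  have h2 : ∀ q : K[X], algebraMap K[X] (RatFunc K) q ∈
      Algebra.adjoin K (Set.range (fun _ : Unit => (RatFunc.X : RatFunc K))) := by
    intro q
    have h3 : algebraMap K[X] (RatFunc K) q = aeval (RatFunc.X : RatFunc K) q := by
      rw [← RatFunc.algebraMap_X, aeval_algebraMap_apply, aeval_X_left_apply]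
    rw [h3]
    exact aeval_mem_adjoin_singleton K _ |> fun h => by
      rw [Set.range_const]
      exact h
  refine ⟨fun z => ?_⟩
  rw [← RatFunc.num_div_denom z]
  have h4 : ∀ q : K[X], IsAlgebraic (Algebra.adjoin K
      (Set.range (fun _ : Unit => (RatFunc.X : RatFunc K)))) (algebraMap K[X] (RatFunc K) q) :=
    fun q => isAlgebraic_algebraMap (R := Algebra.adjoin K
      (Set.range (fun _ : Unit => (RatFunc.X : RatFunc K)))) (⟨_, h2 q⟩ : Algebra.adjoin K
      (Set.range (fun _ : Unit => (RatFunc.X : RatFunc K))))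
  rw [div_eq_mul_inv]
  exact (h4 _).mul (h4 _).inv

/-- Wreath products with a group acting through an isomorphism. -/
def wrCongr {Γ Γ' H Ω : Type} [Group Γ] [Group Γ'] [Group H] [MulAction Γ Ω] [MulAction Γ' Ω]
    (e : Γ ≃* Γ') (he : ∀ (g : Γ) (w : Ω), e g • w = g • w) :
    ((Ω → H) ⋊[mulAutArrow] Γ) ≃* ((Ω → H) ⋊[mulAutArrow] Γ') where
  toFun x := ⟨x.left, e x.right⟩
  invFun x := ⟨x.left, e.symm x.right⟩
  left_inv x := by
    apply SemidirectProduct.ext
    · rfl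
    · exact e.symm_apply_apply _
  right_inv x := by
    apply SemidirectProduct.ext
    · rfl
    · exact e.apply_symm_apply _
  map_mul' x y := by
    apply SemidirectProduct.ext
    · funext w
      change x.left w * y.left (x.right⁻¹ • w) = x.left w * y.left ((e x.right)⁻¹ • w)
      rw [← map_inv, he]
    · exact map_mul e _ _

/-- Wreath products over étale covers of the affine line. -/
theorem out4 (p : ℕ) [Fact p.Prime] (hp : p ≠ 2) (κ : Type) [Field κ] [Finite κ] [CharP κ p]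
    (G : Type) [Group G] [Finite G] (hG : commutator G = ⊤) (n₀ : ℕ) :
    ∃ n ≥ n₀, ∀ (Γ Ω : Type) [Group Γ] [Finite Ω] [MulAction Γ Ω], UnrAff κ Γ →
      UnrAff κ ((Ω → AWr G n) ⋊[mulAutArrow] Γ) := by
  obtain ⟨Γ₀, _, _, f, hf, hR⟩ := exists_big' κ G
  obtain ⟨n, hn, V, _, hfam⟩ := t_main4 p hp κ Γ₀ G f hf hR hG n₀
  refine ⟨n, hn, fun Γ Ω _ _ _ hΓ => ?_⟩
  obtain ⟨L, _, _, _, _, _, _, ⟨γ⟩, hunr⟩ := hΓ
  let _ : MulAction (L ≃ₐ[RatFunc κ] L) Ω := MulAction.compHom Ω γ.toMonoidHom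
  have hL := (t_unr3 κ L).2 hunr
  let K := RatFunc κ
  let K₀ := AlgebraicClosure K
  let T := Unit ⊕ ((L ≃ₐ[RatFunc κ] L) × (Ω × V))
  let F₁ := FractionRing (MvPolynomial T K₀)
  let N := AlgebraicClosure F₁
  let jL : L →ₐ[K] K₀ := IsAlgClosed.lift
  let _ : Algebra L K₀ := jL.toRingHom.toAlgebra
  have hT0 : IsScalarTower K L K₀ := IsScalarTower.of_algebraMap_eq fun x => (jL.commutes x).symm
  have hT1 : IsScalarTower K K₀ N := inferInstance
  have hT2 : IsScalarTower κ K N := inferInstance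
  have hT3 : IsScalarTower κ K₀ N := inferInstance
  have hT4 : IsScalarTower L K₀ N := inferInstance
  have hfA : Finite (L ≃ₐ[RatFunc κ] L) := inferInstance
  let Z : T → N := fun v : T => algebraMap F₁ N
    (algebraMap (MvPolynomial T K₀) F₁ (MvPolynomial.X v))
  have hZ : IsTranscendenceBasis K₀ Z := Pool.Agent.W200.IG.basis_vars
  have hfin := fin_basis (K := κ) (K₁ := K) (K₀ := K₀) (N := N) Z hZ _ (basis_X κ)
  exact (wr_unr (κ := κ) (K₀ := K₀) (N := N) (G := G) (V := V) (Ω := Ω) (L := L) t_abs3' hfam hL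
    Z hZ hfin).congr (wrCongr γ fun _ _ => rfl)

/-- Cyclic groups. -/
theorem unrAff_cyclic (p : ℕ) [Fact p.Prime] (κ : Type) [Field κ] [Finite κ] [CharP κ p]
    (C : Type) [Group C] [Finite C] (hC : IsCyclic C) : UnrAff κ C := by
  have h0 : NeZero (Nat.card C) := ⟨Nat.card_pos.ne'⟩
  let κ' := FiniteField.Extension κ p (Nat.card C)
  have h1 : Nat.card (κ' ≃ₐ[κ] κ') = Nat.card C := by
    rw [IsGalois.card_aut_eq_finrank, FiniteField.finrank_extension]
  let K := RatFunc κ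
  let K₀ := AlgebraicClosure K
  let T := Fin 0
  let F₁ := FractionRing (MvPolynomial T K₀)
  let N := AlgebraicClosure F₁
  have hT1 : IsScalarTower K K₀ N := inferInstance
  have hT2 : IsScalarTower κ K N := inferInstance
  let Z : T → N := fun v : T => algebraMap F₁ N
    (algebraMap (MvPolynomial T K₀) F₁ (MvPolynomial.X v))
  have hZ : IsTranscendenceBasis K₀ Z := Pool.Agent.W200.IG.basis_vars
  have h2 := t_arith3 (t_abs (Y849.AW2.t_gsp Pool.Agent.Y153.AW2.Hit.t_hit) Y77.AW2.t_unr)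
    κ κ' K₀ N T Z hZ Unit 0 ⊥ (fun i : Fin 0 => i.elim0) (fun i => i.elim0)
    (fun i : Fin 0 => i.elim0) (fun i => i.elim0)
    (fun σ _ => ⟨1, Subgroup.mem_bot.2 rfl, fun i => i.elim0⟩)
    (fun x _ => ⟨AlgEquiv.refl, fun _ => rfl, fun i => i.elim0⟩) (fun i => i.elim0)
    (fun i => i.elim0) (fun i => i.elim0) (fun i => i.elim0)
  have e : (⊥ : Subgroup (Wr Unit 0)) × (κ' ≃ₐ[κ] κ') ≃* (κ' ≃ₐ[κ] κ') :=
    MulEquiv.uniqueProd
  exact h2.congr (e.trans (mulEquivOfCyclicCardEq h1))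

/-- The wreath product over a point, with trivial top group. -/
def pointEquiv (H : Type) [Group H] : ((Unit → H) ⋊[mulAutArrow] (Multiplicative (Fin 1))) ≃* H where
  toFun x := x.left ()
  invFun h := ⟨fun _ => h, 1⟩
  left_inv x := SemidirectProduct.ext (funext fun _ => rfl) (Subsingleton.elim _ _)
  right_inv _ := rfl
  map_mul' _ _ := rfl

/-- The group `G ≀ A_n` itself and wreath products. -/
theorem out5 (p : ℕ) [Fact p.Prime] (hp : p ≠ 2) (κ : Type) [Field κ] [Finite κ] [CharP κ p]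
    (G : Type) [Group G] [Finite G] (hG : commutator G = ⊤) (n₀ : ℕ) :
    ∃ n ≥ n₀, UnrAff κ (AWr G n) ∧ ∀ (Γ Ω : Type) [Group Γ] [Finite Ω] [MulAction Γ Ω],
      UnrAff κ Γ → UnrAff κ ((Ω → AWr G n) ⋊[mulAutArrow] Γ) := by
  obtain ⟨n, hn, h⟩ := out4 p hp κ G hG n₀
  have h1 : UnrAff κ (Multiplicative (Fin 1)) :=
    unrAff_cyclic p κ (Multiplicative (Fin 1)) inferInstance
  exact ⟨n, hn, (h (Multiplicative (Fin 1)) Unit h1).congr (pointEquiv _), h⟩

end Pool.Agent.Y140.AW
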