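import Pool.Agent.Y140.AW.Tw3
import Pool.Agent.Y140.AW.Fin4

/-!
Embedding problems over the affine line over a finite field (project AW, owner helper140).
-/

set_option autoImplicit false

namespace Pool.Agent.Y140.AW

open Polynomial Pool.Agent.H391R2 Pool.Agent.H391R2.T4 Pool.Agent.Y793 Pool.Agent.Y140.IG

/-- Wreath embedding problems over the affine line. -/
theorem out6 (p : ℕ) [Fact p.Prime] (hp : p ≠ 2) (κ : Type) [Field κ] [Finite κ] [CharP κ p]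
    (G : Type) [Group G] [Finite G] (hG : commutator G = ⊤) (n₀ : ℕ) :
    ∃ n ≥ n₀, ∀ (L : Type) [Field L] [Algebra (RatFunc κ) L] [Algebra κ[X] L]
      [IsScalarTower κ[X] (RatFunc κ) L] [FiniteDimensional (RatFunc κ) L]
      [IsGalois (RatFunc κ) L],
      (∀ (q : Ideal (integralClosure κ[X] L)) (_ : q.IsPrime), Algebra.IsUnramifiedAt κ[X] q) →
      ∀ (Ω : Type) [Finite Ω] [MulAction (L ≃ₐ[RatFunc κ] L) Ω],
        UnrEP κ L ((Ω → AWr G n) ⋊[mulAutArrow] (L ≃ₐ[RatFunc κ] L))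
          SemidirectProduct.rightHom := by
  obtain ⟨Γ₀, _, _, f, hf, hR⟩ := exists_big' κ G
  obtain ⟨n, hn, V, _, hfam⟩ := t_main4 p hp κ Γ₀ G f hf hR hG n₀
  refine ⟨n, hn, fun L _ _ _ _ _ _ hunr Ω _ _ => ?_⟩
  have hL := (t_unr3 κ L).2 hunr
  let K := RatFunc κ
  let K₀ := AlgebraicClosure K
  let T := Unit ⊕ ((L ≃ₐ[RatFunc κ] L) × (Ω × V))
  let F₁ := FractionRing (MvPolynomial T K₀)
  let N := AlgebraicClosure F₁
  let jL : L →ₐ[K] K₀ := IsAlgClosed.lift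
  let _ : Algebra L K₀ := jL.toRingHom.toAlgebra
  have hT0 : IsScalarTower K L K₀ := IsScalarTower.of_algebraMap_eq fun x => (jL.commutes x).symm
  have hT1 : IsScalarTower K K₀ N := inferInstance
  have hT2 : IsScalarTower κ K N := inferInstance
  have hT3 : IsScalarTower κ K₀ N := inferInstance
  have hT4 : IsScalarTower L K₀ N := inferInstance
  have hfA : Finite (L ≃ₐ[RatFunc κ] L) := inferInstance
  let Z : T → N := fun v : T => algebraMap F₁ N
    (algebraMap (MvPolynomial T K₀) F₁ (MvPolynomial.X v))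
  have hZ : IsTranscendenceBasis K₀ Z := Pool.Agent.W200.IG.basis_vars
  have hfin := fin_basis (K := κ) (K₁ := K) (K₀ := K₀) (N := N) Z hZ _ (basis_X κ)
  exact wr_ep (κ := κ) (K₀ := K₀) (N := N) (G := G) (V := V) (Ω := Ω) (L := L)
    (t_abs4 (Y849.AW2.t_gsp Pool.Agent.Y153.AW2.Hit.t_hit) t_unr3) hfam hL Z hZ hfin

theorem UnrEP.unrAff {κ L₀ W : Type} [Field κ] [Field L₀] [Algebra (RatFunc κ) L₀] [Group W]
    {r : W →* (L₀ ≃ₐ[RatFunc κ] L₀)} (h : UnrEP κ L₀ W r) : UnrAff κ W := by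
  obtain ⟨L, i1, i2, i3, i4, i5, i6, i7, i8, γ, -, h2⟩ := h
  exact ⟨L, i1, i2, i3, i4, i7, i8, ⟨γ⟩, h2⟩

/-- Wreath embedding problems over the affine line, and wreath products with cyclic groups. -/
theorem out7 (p : ℕ) [Fact p.Prime] (hp : p ≠ 2) (κ : Type) [Field κ] [Finite κ] [CharP κ p]
    (G : Type) [Group G] [Finite G] (hG : commutator G = ⊤) (n₀ : ℕ) :
    ∃ n ≥ n₀, (∀ (L : Type) [Field L] [Algebra (RatFunc κ) L] [Algebra κ[X] L]
      [IsScalarTower κ[X] (RatFunc κ) L] [FiniteDimensional (RatFunc κ) L]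
      [IsGalois (RatFunc κ) L],
      (∀ (q : Ideal (integralClosure κ[X] L)) (_ : q.IsPrime), Algebra.IsUnramifiedAt κ[X] q) →
      ∀ (Ω : Type) [Finite Ω] [MulAction (L ≃ₐ[RatFunc κ] L) Ω],
        UnrEP κ L ((Ω → AWr G n) ⋊[mulAutArrow] (L ≃ₐ[RatFunc κ] L))
          SemidirectProduct.rightHom) ∧
      ∀ (C Ω : Type) [Group C] [Finite C] [Finite Ω] [MulAction C Ω], IsCyclic C →
        UnrAff κ ((Ω → AWr G n) ⋊[mulAutArrow] C) := by
  obtain ⟨n, hn, h⟩ := out6 p hp κ G hG n₀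
  refine ⟨n, hn, h, fun C Ω _ _ _ _ hC => ?_⟩
  obtain ⟨L, _, _, _, _, _, _, ⟨γ⟩, hunr⟩ := unrAff_cyclic p κ C hC
  let _ : MulAction (L ≃ₐ[RatFunc κ] L) Ω := MulAction.compHom Ω γ.toMonoidHom
  exact (h L hunr Ω).unrAff.congr (wrCongr γ fun _ _ => rfl)

end Pool.Agent.Y140.AW
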