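import Mathlib
import Pool.Agent.Y140.AW.Stm
import Pool.Agent.H391R2.T4.Ari
import Pool.Agent.W200.IJ.SG
import Pool.Agent.W200.IJ.BC

/-! ARI: arithmetic assembly for a subgroup of the wreath product, infinite fields
(project AW, owner helper140). -/

set_option autoImplicit false

namespace Pool.Agent.Y140.AW

open MvPolynomial
open Pool.Agent.H391R2 Pool.Agent.H391R2.T4 Pool.Agent.W200.IJ

theorem t_arith : St_arith := by
  intro K K₀ N _ _ _ _ _ _ _ _ _ _ _ ι _ η hη G _ _ n H₀ r hr vv hvv hR hG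
  classical
  have hηK : IsTranscendenceBasis K η := basis_down η hη
  obtain ⟨E, iE1, iE2, iE3, iE4, iE5, ψ, hψ⟩ := exists_field hηK.1
  let _ : Algebra E N := ψ.toRingHom.toAlgebra
  have hTKEN : IsScalarTower K E N := IsScalarTower.of_algebraMap_eq fun x => (ψ.commutes x).symm
  have hηE : ∀ v, η v = algebraMap E N (algebraMap (MvPolynomial ι K) E (MvPolynomial.X v)) := by
    intro v
    change _ = ψ _
    rw [hψ, aeval_X]
  have halg : Algebra.IsAlgebraic E N := alg_of_range η hηK fun v => ⟨_, (hηE v).symm⟩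
  have hcl : IsAlgClosure E N := ⟨inferInstance, halg⟩
  have hnorm : Normal E N := IsAlgClosure.normal E N
  -- automorphisms over E
  have hσK : ∀ (σ : N ≃ₐ[E] N), ∀ v, σ (η v) = η v := by
    intro σ v
    rw [hηE, σ.commutes]
  have hEfix : ∀ (j : N →+* N), (∀ a : K, j (algebraMap K N a) = algebraMap K N a) →
      (∀ v, j (η v) = η v) → ∀ x : E, j (algebraMap E N x) = algebraMap E N x := by
    intro j h1 h2 x
    let j' : N →ₐ[K] N := { j with commutes' := h1 }
    exact eq_on_adjoin j' (AlgHom.id K N) (Set.range η) (by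
      rintro _ ⟨v, rfl⟩
      exact h2 v) _ (field_le η hηE x)
  -- the relation
  let Rel : (N ≃ₐ[E] N) → Wr G n → Prop := fun σ z =>
    ∀ i, σ (r i) = r (z.right i) ∧
      ∀ g, σ (vv i g) = vv (z.right i) (z.left (z.right i) * g)
  have hex : ∀ σ, ∃ z : H₀, Rel σ z := by
    intro σ
    obtain ⟨x, hx, hx2⟩ := hR (σ.restrictScalars K) (fun v => hσK σ v)
    exact ⟨⟨x, hx⟩, hx2⟩
  have huniq : ∀ σ z z', Rel σ z → Rel σ z' → z = z' := by
    intro σ z z' hz hz'
    have h1 : z.right = z'.right := by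
      apply Equiv.ext
      intro i
      apply hr
      rw [← (hz i).1, (hz' i).1]
    apply SemidirectProduct.ext _ h1
    funext j
    obtain ⟨i, rfl⟩ := z.right.surjective j
    have h2 := (hz i).2 1
    have h3 := (hz' i).2 1
    rw [h2, mul_one, mul_one, ← h1] at h3
    exact hvv _ h3
  have hmul : ∀ σ σ' z z', Rel σ z → Rel σ' z' → Rel (σ' * σ) (z' * z) := by
    intro σ σ' z z' hz hz'
    refine fun i => ⟨?_, fun g => ?_⟩
    · rw [AlgEquiv.mul_apply, (hz i).1, (hz' _).1]
      rfl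
    · rw [AlgEquiv.mul_apply, (hz i).2, (hz' _).2, wr_mul_right, wr_mul_left]
      change _ = vv (z'.right (z.right i)) (z'.left (z'.right (z.right i)) *
        z.left (z'.right⁻¹ (z'.right (z.right i))) * g)
      have h1 : z'.right⁻¹ (z'.right (z.right i)) = z.right i := by simp
      rw [h1, mul_assoc]
  choose Pf hPf using hex
  let π : (N ≃ₐ[E] N) →* H₀ := MonoidHom.mk' Pf (fun σ' σ =>
    Subtype.ext (huniq _ _ _ (hPf _) (hmul σ σ' _ _ (hPf σ) (hPf σ'))))
  have hπ : ∀ σ, Rel σ (π σ) := hPf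
  -- geometric automorphisms
  have hgeo : ∀ x : H₀, ∃ σ : N ≃ₐ[E] N, π σ = x ∧
      ∀ a : K₀, σ (algebraMap K₀ N a) = algebraMap K₀ N a := by
    intro x
    obtain ⟨σ, hσ1, hσ2⟩ := hG x x.2
    have h1 : ∀ x : E, σ (algebraMap E N x) = algebraMap E N x := by
      refine hEfix (σ : N →+* N) (fun a => ?_) hσ1
      rw [IsScalarTower.algebraMap_apply K K₀ N]
      exact σ.commutes _
    let σ' : N ≃ₐ[E] N := AlgEquiv.ofRingEquiv (f := σ.toRingEquiv) h1
    exact ⟨σ', Subtype.ext (huniq σ' _ _ (hπ _) hσ2), fun a => σ.commutes a⟩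
  have hsurj : Function.Surjective π := by
    intro z
    obtain ⟨σ, hσ, -⟩ := hgeo z
    exact ⟨σ, hσ⟩
  let S : Set N := Set.range r ∪ ⋃ i, Set.range (vv i)
  have hSf : S.Finite := (Set.finite_range r).union
    (Set.finite_iUnion fun i => Set.finite_range _)
  have hS : ∀ γ : N ≃ₐ[E] N, (∀ s ∈ S, γ s = s) → π γ = 1 := by
    intro γ hγ
    refine Subtype.ext (huniq γ _ _ (hπ γ) fun i => ⟨hγ _ (Or.inl ⟨i, rfl⟩), fun g => ?_⟩)
    rw [hγ (vv i g) (Or.inr (Set.mem_iUnion.2 ⟨i, ⟨g, rfl⟩⟩))]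
    change vv i g = vv i (1 * g)
    rw [one_mul]
  obtain ⟨F, iF1, iF2, iF3, iF4, iF5, iF6, e, he1, he2⟩ := finite_descent2 π hsurj S hSf hS
  let _ : Algebra K F := ((algebraMap E F).comp (algebraMap K E)).toAlgebra
  have hT1 : IsScalarTower K E F := IsScalarTower.of_algebraMap_eq fun x => rfl
  have hT2 : IsScalarTower K F N := IsScalarTower.of_algebraMap_eq fun x => by
    change _ = algebraMap F N (algebraMap E F (algebraMap K E x))
    rw [← IsScalarTower.algebraMap_apply E F N, ← IsScalarTower.algebraMap_apply K E N]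
  have hreg : ∀ y : F, IsAlgebraic K y → y ∈ Set.range (algebraMap K F) := by
    intro y hy
    refine reg_of_inv (k := K) (M := K) (E := E) (const_frac (V := ι)) (fun ρ => ?_) y hy
      (fun σ _ => ?_)
    · refine ⟨1, fun a => ?_⟩
      have h1 : ρ a = a := ρ.commutes a
      rw [h1]
      rfl
    · have h5 : IsAlgebraic K₀ (algebraMap F N y) := (hy.algebraMap (A := N)).tower_top K₀
      obtain ⟨c, hc⟩ := minpoly.mem_range_of_degree_eq_one K₀ (algebraMap F N y)
        (IsAlgClosed.degree_eq_one_of_irreducible K₀ (minpoly.irreducible h5.isIntegral))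
      obtain ⟨γ, hγ, hγK⟩ := hgeo (e σ)
      have h8 := he1 γ y
      rw [hγ, MulEquiv.symm_apply_apply, ← hc, hγK, hc] at h8
      exact ((algebraMap F N).injective h8).symm
  have hfix : ∀ (σ : F ≃ₐ[E] F) (x : K),
      σ (algebraMap K F x) = algebraMap K F (((1 : H₀ →* (K ≃ₐ[K] K)) (e σ)) x) := by
    intro σ x
    change σ (algebraMap E F (algebraMap K E x)) = algebraMap E F (algebraMap K E x)
    rw [σ.commutes]
  have hfin : Finite (Wr G n) := finite_wr G n
  have hfin' : Finite H₀ := inferInstance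
  exact Pool.Agent.W200.IJ.taskA K K H₀ 1 ι E F e hfix hreg

end Pool.Agent.Y140.AW
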