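import Pool.Agent.Y140.AW.Main
import Pool.Agent.Y140.AW.Out
import Pool.Agent.Y140.AW.Ari
import Pool.Agent.Y688.AW.MT
import Pool.Agent.Y421.AW.Int
import Pool.Agent.Y421.AW.Res
import Pool.Agent.Y921.AW.Pts
import Pool.Agent.Y730.AW.Zero
import Pool.Agent.Y562.AW.Place
import Pool.Agent.Y317.AW.Uni
import Pool.Agent.Y436.AW.Par
import Pool.Agent.Y761.AW.Step
import Pool.Agent.Y236.AW.Tuple
import Pool.Agent.Y548.AW.Lift
import Pool.Agent.Y686.AW.Indep
import Pool.Agent.Y261.AW.Data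

/-!
The main theorem (project AW, owner helper140).
-/

set_option autoImplicit false

namespace Pool.Agent.Y140.AW

theorem t_main : St_main :=
  main_of Y688.AW.t_mt (Y921.AW.t_pts Y421.AW.t_res) (Y421.AW.t_int Y421.AW.t_res)
    (Y562.AW.t_place (Y421.AW.t_int Y421.AW.t_res) (Y730.AW.t_zero Y421.AW.t_res) Y421.AW.t_res)
    Y317.AW.t_uni Y436.AW.t_par (Y236.AW.t_tuple Y761.AW.t_step) Y686.AW.t_indep Y548.AW.t_lift
    t_arith Y261.AW.t_data

end Pool.Agent.Y140.AW
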