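import Mathlib
import Pool.Agent.Y140.AW.Stm3
import Pool.Agent.Y140.AW.Abs

/-!
From extensions of `κ(t)(ν)` unramified over `κ[t][ν]` to the affine line, general form (project
AW, owner helper140).
-/

set_option autoImplicit false

namespace Pool.Agent.Y140.AW

open Polynomial

theorem t_abs3 (h1 : St_gsp) (h2 : St_unr3) : St_abs3 := by
  intro κ ι F M H _ _ _ _ _ _ _ _ _ _ _ _ _ e hσ
  obtain ⟨a, L, _, _, _, _, γ, π, hπ1, hπ2⟩ := h1 κ ι F M
  let _ : Algebra κ[X] L := ((algebraMap (RatFunc κ) L).comp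
    (algebraMap κ[X] (RatFunc κ))).toAlgebra
  have hT : IsScalarTower κ[X] (RatFunc κ) L := IsScalarTower.of_algebraMap_eq fun _ => rfl
  refine ⟨L, inferInstance, inferInstance, inferInstance, hT, inferInstance, inferInstance,
    ⟨γ.symm.trans e⟩, (h2 κ L).1 fun τ hτ => ?_⟩
  have hσ1 : γ.symm τ ≠ 1 := by
    intro h
    apply hτ
    rw [← γ.apply_symm_apply τ, h, map_one]
  obtain ⟨m, b, c, hbi, hci, hs⟩ := hσ (γ.symm τ) hσ1
  have toA : ∀ z : M, ((algebraMap (MvPolynomial ι (RatFunc κ)) M).comp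
      (MvPolynomial.map (algebraMap κ[X] (RatFunc κ)))).IsIntegralElem z →
      IsIntegral (MvPolynomial ι (RatFunc κ)) z := by
    rintro z ⟨P, hP, hPz⟩
    refine ⟨P.map (MvPolynomial.map (algebraMap κ[X] (RatFunc κ))), hP.map _, ?_⟩
    rw [eval₂_map]
    exact hPz
  have hbσ : ∀ i, IsIntegral (MvPolynomial ι (RatFunc κ)) (γ.symm τ (b i)) := fun i =>
    (toA (b i) (hbi i)).map
      (((γ.symm τ).restrictScalars (MvPolynomial ι (RatFunc κ)) : M ≃ₐ[_] M) :
      M →ₐ[MvPolynomial ι (RatFunc κ)] M)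
  let bb : Fin m → integralClosure (MvPolynomial ι (RatFunc κ)) M := fun i =>
    ⟨b i, toA (b i) (hbi i)⟩
  let b' : Fin m → integralClosure (MvPolynomial ι (RatFunc κ)) M := fun i =>
    ⟨γ.symm τ (b i), hbσ i⟩
  let cc : Fin m → integralClosure (MvPolynomial ι (RatFunc κ)) M := fun i =>
    ⟨c i, toA _ (hci i)⟩
  have h3 : ∀ i, π (b' i) = τ (π (bb i)) := fun i => by
    rw [hπ2 (γ.symm τ) (bb i) (b' i) rfl, γ.apply_symm_apply]
  have h4 : ∑ i, cc i * (b' i - bb i) = 1 := by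
    apply Subtype.val_injective
    change ((∑ i, cc i * (b' i - bb i) : integralClosure (MvPolynomial ι (RatFunc κ)) M) : M) = 1
    rw [AddSubmonoidClass.coe_finset_sum]
    exact hs
  refine ⟨m, fun i => π (bb i), fun i => π (cc i), fun i => intg a π hπ1 (bb i) (hbi i),
    fun i => intg a π hπ1 (cc i) (hci i), ?_⟩
  have h5 := congrArg π h4
  rw [map_one, map_sum] at h5
  rw [← h5]
  refine Finset.sum_congr rfl fun i _ => ?_
  rw [← h3, map_mul, map_sub]

end Pool.Agent.Y140.AW
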