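import Mathlib
import Pool.Agent.Y140.AW.Abs3

/-!
Embedding problems over the affine line, from the generic case (project AW, owner helper140).
-/

set_option autoImplicit false

namespace Pool.Agent.Y140.AW

open Polynomial

/-- The extension `L₀` of `κ(t)` is contained in a finite Galois extension `L` of `κ(t)`, unramified
over `κ[t]`, with group `W`, acting on `L₀` through `r`. -/
def UnrEP (κ L₀ W : Type) [Field κ] [Field L₀] [Algebra (RatFunc κ) L₀] [Group W]
    (r : W →* (L₀ ≃ₐ[RatFunc κ] L₀)) : Prop :=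
  ∃ (L : Type) (_ : Field L) (_ : Algebra (RatFunc κ) L) (_ : Algebra κ[X] L)
    (_ : IsScalarTower κ[X] (RatFunc κ) L) (_ : Algebra L₀ L) (_ : IsScalarTower (RatFunc κ) L₀ L)
    (_ : FiniteDimensional (RatFunc κ) L) (_ : IsGalois (RatFunc κ) L)
    (γ : (L ≃ₐ[RatFunc κ] L) ≃* W),
    (∀ (σ : L ≃ₐ[RatFunc κ] L) (a : L₀), σ (algebraMap L₀ L a) = algebraMap L₀ L (r (γ σ) a)) ∧
    ∀ (q : Ideal (integralClosure κ[X] L)) (_ : q.IsPrime), Algebra.IsUnramifiedAt κ[X] q

/-- ABS4: from the generic case to the affine line, for embedding problems. -/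
def St_abs4 : Prop :=
  ∀ (κ ι F M W L₀ : Type) [Field κ] [Finite κ] [Finite ι] [Field F]
    [Algebra (MvPolynomial ι (RatFunc κ)) F] [IsFractionRing (MvPolynomial ι (RatFunc κ)) F]
    [Field M] [Algebra F M] [Algebra (MvPolynomial ι (RatFunc κ)) M]
    [IsScalarTower (MvPolynomial ι (RatFunc κ)) F M] [FiniteDimensional F M] [IsGalois F M]
    [Group W] [Field L₀] [Algebra (RatFunc κ) L₀] [FiniteDimensional (RatFunc κ) L₀]
    [Algebra L₀ M] (_ : ∀ k : RatFunc κ, algebraMap L₀ M (algebraMap (RatFunc κ) L₀ k) =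
      algebraMap (MvPolynomial ι (RatFunc κ)) M (MvPolynomial.C k))
    (e : (M ≃ₐ[F] M) ≃* W) (r : W →* (L₀ ≃ₐ[RatFunc κ] L₀)),
    (∀ (σ : M ≃ₐ[F] M) (a : L₀), σ (algebraMap L₀ M a) = algebraMap L₀ M (r (e σ) a)) →
    (∀ σ : M ≃ₐ[F] M, σ ≠ 1 → ∃ (m : ℕ) (b c : Fin m → M),
      (∀ i, ((algebraMap (MvPolynomial ι (RatFunc κ)) M).comp
        (MvPolynomial.map (algebraMap κ[X] (RatFunc κ)))).IsIntegralElem (b i)) ∧
      (∀ i, ((algebraMap (MvPolynomial ι (RatFunc κ)) M).comp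
        (MvPolynomial.map (algebraMap κ[X] (RatFunc κ)))).IsIntegralElem (c i)) ∧
      ∑ i, c i * (σ (b i) - b i) = 1) →
    UnrEP κ L₀ W r

theorem t_abs4 (h1 : St_gsp) (h2 : St_unr3) : St_abs4 := by
  intro κ ι F M W L₀ _ _ _ _ _ _ _ _ _ _ _ _ _ _ _ _ _ hc e r hr hσ
  obtain ⟨a, L, _, _, _, _, γ, π, hπ1, hπ2⟩ := h1 κ ι F M
  let _ : Algebra κ[X] L := ((algebraMap (RatFunc κ) L).comp
    (algebraMap κ[X] (RatFunc κ))).toAlgebra
  have hT : IsScalarTower κ[X] (RatFunc κ) L := IsScalarTower.of_algebraMap_eq fun _ => rfl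
  -- the embedding of `L₀`
  have hint : ∀ x : L₀, IsIntegral (MvPolynomial ι (RatFunc κ)) (algebraMap L₀ M x) := by
    intro x
    obtain ⟨P, hP, hPx⟩ := Algebra.IsIntegral.isIntegral (R := RatFunc κ) x
    refine ⟨P.map (MvPolynomial.C : RatFunc κ →+* MvPolynomial ι (RatFunc κ)), hP.map _, ?_⟩
    have h3 : (algebraMap (MvPolynomial ι (RatFunc κ)) M).comp
        (MvPolynomial.C : RatFunc κ →+* MvPolynomial ι (RatFunc κ)) =
        (algebraMap L₀ M).comp (algebraMap (RatFunc κ) L₀) :=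
      RingHom.ext fun k => (hc k).symm
    rw [eval₂_map, h3, ← hom_eval₂, hPx, map_zero]
  let ι₁ : L₀ →+* integralClosure (MvPolynomial ι (RatFunc κ)) M :=
    (algebraMap L₀ M).codRestrict (integralClosure (MvPolynomial ι (RatFunc κ)) M).toSubring hint
  have hι₁ : ∀ x, ((ι₁ x : integralClosure (MvPolynomial ι (RatFunc κ)) M) : M) =
      algebraMap L₀ M x := fun x => rfl
  let _ : Algebra L₀ L := (π.comp ι₁).toAlgebra
  have hT2 : IsScalarTower (RatFunc κ) L₀ L := IsScalarTower.of_algebraMap_eq fun k => by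
    change _ = π (ι₁ (algebraMap (RatFunc κ) L₀ k))
    have h3 : ι₁ (algebraMap (RatFunc κ) L₀ k) = algebraMap (MvPolynomial ι (RatFunc κ))
        (integralClosure (MvPolynomial ι (RatFunc κ)) M) (MvPolynomial.C k) :=
      Subtype.ext (hc k)
    rw [h3, hπ1, MvPolynomial.eval_C]
  refine ⟨L, inferInstance, inferInstance, inferInstance, hT, inferInstance, hT2, inferInstance,
    inferInstance, γ.symm.trans e, fun τ x => ?_, (h2 κ L).1 fun τ hτ => ?_⟩
  · change τ (π (ι₁ x)) = π (ι₁ (r (e (γ.symm τ)) x))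
    have h3 := hπ2 (γ.symm τ) (ι₁ x) (ι₁ (r (e (γ.symm τ)) x)) (by
      rw [hι₁, hι₁, hr])
    rw [γ.apply_symm_apply] at h3
    exact h3.symm
  have hσ1 : γ.symm τ ≠ 1 := by
    intro h
    apply hτ
    rw [← γ.apply_symm_apply τ, h, map_one]
  obtain ⟨m, b, c, hbi, hci, hs⟩ := hσ (γ.symm τ) hσ1
  have toA : ∀ z : M, ((algebraMap (MvPolynomial ι (RatFunc κ)) M).comp
      (MvPolynomial.map (algebraMap κ[X] (RatFunc κ)))).IsIntegralElem z →
      IsIntegral (MvPolynomial ι (RatFunc κ)) z := by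
    rintro z ⟨P, hP, hPz⟩
    refine ⟨P.map (MvPolynomial.map (algebraMap κ[X] (RatFunc κ))), hP.map _, ?_⟩
    rw [eval₂_map]
    exact hPz
  have hbσ : ∀ i, IsIntegral (MvPolynomial ι (RatFunc κ)) (γ.symm τ (b i)) := fun i =>
    (toA (b i) (hbi i)).map
      (((γ.symm τ).restrictScalars (MvPolynomial ι (RatFunc κ)) : M ≃ₐ[_] M) :
      M →ₐ[MvPolynomial ι (RatFunc κ)] M)
  let bb : Fin m → integralClosure (MvPolynomial ι (RatFunc κ)) M := fun i =>
    ⟨b i, toA (b i) (hbi i)⟩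
  let b' : Fin m → integralClosure (MvPolynomial ι (RatFunc κ)) M := fun i =>
    ⟨γ.symm τ (b i), hbσ i⟩
  let cc : Fin m → integralClosure (MvPolynomial ι (RatFunc κ)) M := fun i =>
    ⟨c i, toA _ (hci i)⟩
  have h3 : ∀ i, π (b' i) = τ (π (bb i)) := fun i => by
    rw [hπ2 (γ.symm τ) (bb i) (b' i) rfl, γ.apply_symm_apply]
  have h4 : ∑ i, cc i * (b' i - bb i) = 1 := by
    apply Subtype.val_injective
    change ((∑ i, cc i * (b' i - bb i) : integralClosure (MvPolynomial ι (RatFunc κ)) M) : M) = 1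
    rw [AddSubmonoidClass.coe_finsetSum]
    exact hs
  refine ⟨m, fun i => π (bb i), fun i => π (cc i), fun i => intg a π hπ1 (bb i) (hbi i),
    fun i => intg a π hπ1 (cc i) (hci i), ?_⟩
  have h5 := congrArg π h4
  rw [map_one, map_sum] at h5
  rw [← h5]
  refine Finset.sum_congr rfl fun i _ => ?_
  rw [← h3, map_mul, map_sub]

end Pool.Agent.Y140.AW
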