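import Mathlib
import Pool.Agent.Y140.AW.Stm2
import Pool.Agent.Y140.AW.Abs
import Pool.Agent.Y140.AW.Ari2
import Pool.Agent.H391R2.T4.Ari
import Pool.Agent.W200.IJ.SG
import Pool.Agent.Y140.IG.PF

/-! ARI3: arithmetic assembly for étale covers of the affine line, with a constant extension
(project AW, owner helper140). -/

set_option autoImplicit false

namespace Pool.Agent.Y140.AW

open MvPolynomial
open Pool.Agent.H391R2 Pool.Agent.H391R2.T4 Pool.Agent.W200.IJ

/-- ARI3: as `St_arith2`, with a constant extension `κ'`. -/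
def St_arith3 : Prop :=
  ∀ (κ κ' K₀ N : Type) [Field κ] [Finite κ] [Field κ'] [Finite κ'] [Algebra κ κ'] [Field K₀]
    [Algebra (RatFunc κ) K₀] [IsAlgClosed K₀]
    [Algebra.IsAlgebraic (RatFunc κ) K₀] [Field N] [IsAlgClosed N] [Algebra K₀ N]
    [Algebra (RatFunc κ) N] [IsScalarTower (RatFunc κ) K₀ N] [Algebra κ N]
    [IsScalarTower κ (RatFunc κ) N] (ι : Type) [Finite ι] (η : ι → N),
    IsTranscendenceBasis K₀ η →
    ∀ (G : Type) [Group G] [Finite G] (n : ℕ) (H₀ : Subgroup (Wr G n)) (r : Fin n → N),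
    Function.Injective r → ∀ (vv : Fin n → G → N), (∀ i, Function.Injective (vv i)) →
    (∀ (σ : N ≃ₐ[RatFunc κ] N), (∀ v, σ (η v) = η v) → ∃ x ∈ H₀, ∀ i,
        σ (r i) = r (x.right i) ∧
        ∀ g, σ (vv i g) = vv (x.right i) (x.left (x.right i) * g)) →
    (∀ x ∈ H₀, ∃ σ : N ≃ₐ[K₀] N, (∀ v, σ (η v) = η v) ∧ ∀ i,
        σ (r i) = r (x.right i) ∧
        ∀ g, σ (vv i g) = vv (x.right i) (x.left (x.right i) * g)) →
    (∀ i, IsIntegral (Algebra.adjoin κ (Set.range η)) (r i)) →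
    (∀ i j, i ≠ j → IsIntegral (Algebra.adjoin κ (Set.range η)) (r i - r j)⁻¹) →
    (∀ i g, IsIntegral (Algebra.adjoin κ (Set.range η)) (vv i g)) →
    (∀ i g g', g ≠ g' → IsIntegral (Algebra.adjoin κ (Set.range η)) (vv i g - vv i g')⁻¹) →
    UnrAff κ (H₀ × (κ' ≃ₐ[κ] κ'))

theorem t_arith3 (hABS : St_abs) : St_arith3 := by
  intro κ κ' K₀ N _ _ _ _ _ _ _ _ _ _ _ _ _ _ _ _ ι _ η hη G _ _ n H₀ r hr vv hvv hR hG hi1 hi2
    hi3 hi4
  classical
  let K := RatFunc κ
  have hηK : IsTranscendenceBasis K η := basis_down η hη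
  obtain ⟨E, iE1, iE2, iE3, iE4, iE5, ψ, hψ⟩ := exists_field hηK.1
  let _ : Algebra E N := ψ.toRingHom.toAlgebra
  have hTKEN : IsScalarTower K E N := IsScalarTower.of_algebraMap_eq fun x => (ψ.commutes x).symm
  have hηE : ∀ v, η v = algebraMap E N (algebraMap (MvPolynomial ι K) E (MvPolynomial.X v)) := by
    intro v
    change _ = ψ _
    rw [hψ, aeval_X]
  have halg : Algebra.IsAlgebraic E N := alg_of_range η hηK fun v => ⟨_, (hηE v).symm⟩
  have hcl : IsAlgClosure E N := ⟨inferInstance, halg⟩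
  have hnorm : Normal E N := IsAlgClosure.normal E N
  -- automorphisms over E
  have hσK : ∀ (σ : N ≃ₐ[E] N), ∀ v, σ (η v) = η v := by
    intro σ v
    rw [hηE, σ.commutes]
  have hEfix : ∀ (j : N →+* N), (∀ a : K, j (algebraMap K N a) = algebraMap K N a) →
      (∀ v, j (η v) = η v) → ∀ x : E, j (algebraMap E N x) = algebraMap E N x := by
    intro j h1 h2 x
    let j' : N →ₐ[K] N := { j with commutes' := h1 }
    exact eq_on_adjoin j' (AlgHom.id K N) (Set.range η) (by
      rintro _ ⟨v, rfl⟩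
      exact h2 v) _ (field_le η hηE x)
  -- the relation
  let Rel : (N ≃ₐ[E] N) → Wr G n → Prop := fun σ z =>
    ∀ i, σ (r i) = r (z.right i) ∧
      ∀ g, σ (vv i g) = vv (z.right i) (z.left (z.right i) * g)
  have hex : ∀ σ, ∃ z : H₀, Rel σ z := by
    intro σ
    obtain ⟨x, hx, hx2⟩ := hR (σ.restrictScalars K) (fun v => hσK σ v)
    exact ⟨⟨x, hx⟩, hx2⟩
  have huniq : ∀ σ z z', Rel σ z → Rel σ z' → z = z' := by
    intro σ z z' hz hz'
    have h1 : z.right = z'.right := by
      apply Equiv.ext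
      intro i
      apply hr
      rw [← (hz i).1, (hz' i).1]
    apply SemidirectProduct.ext _ h1
    funext j
    obtain ⟨i, rfl⟩ := z.right.surjective j
    have h2 := (hz i).2 1
    have h3 := (hz' i).2 1
    rw [h2, mul_one, mul_one, ← h1] at h3
    exact hvv _ h3
  have hmul : ∀ σ σ' z z', Rel σ z → Rel σ' z' → Rel (σ' * σ) (z' * z) := by
    intro σ σ' z z' hz hz'
    refine fun i => ⟨?_, fun g => ?_⟩
    · rw [AlgEquiv.mul_apply, (hz i).1, (hz' _).1]
      rfl
    · rw [AlgEquiv.mul_apply, (hz i).2, (hz' _).2, wr_mul_right, wr_mul_left]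
      change _ = vv (z'.right (z.right i)) (z'.left (z'.right (z.right i)) *
        z.left (z'.right⁻¹ (z'.right (z.right i))) * g)
      have h1 : z'.right⁻¹ (z'.right (z.right i)) = z.right i := by simp
      rw [h1, mul_assoc]
  choose Pf hPf using hex
  let π : (N ≃ₐ[E] N) →* H₀ := MonoidHom.mk' Pf (fun σ' σ =>
    Subtype.ext (huniq _ _ _ (hPf _) (hmul σ σ' _ _ (hPf σ) (hPf σ'))))
  have hπ : ∀ σ, Rel σ (π σ) := hPf
  -- geometric automorphisms
  have hgeo : ∀ x : H₀, ∃ σ : N ≃ₐ[E] N, π σ = x ∧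
      ∀ a : K₀, σ (algebraMap K₀ N a) = algebraMap K₀ N a := by
    intro x
    obtain ⟨σ, hσ1, hσ2⟩ := hG x x.2
    have h1 : ∀ x : E, σ (algebraMap E N x) = algebraMap E N x := by
      refine hEfix (σ : N →+* N) (fun a => ?_) hσ1
      rw [IsScalarTower.algebraMap_apply K K₀ N]
      exact σ.commutes _
    let σ' : N ≃ₐ[E] N := AlgEquiv.ofRingEquiv (f := σ.toRingEquiv) h1
    exact ⟨σ', Subtype.ext (huniq σ' _ _ (hπ _) hσ2), fun a => σ.commutes a⟩
  have hsurj : Function.Surjective π := by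
    intro z
    obtain ⟨σ, hσ, -⟩ := hgeo z
    exact ⟨σ, hσ⟩
  -- the constants
  let j₁ : κ' →ₐ[κ] N := IsAlgClosed.lift
  have hκE : ∀ c : κ, ∃ x : E, algebraMap E N x = algebraMap κ N c := fun c =>
    ⟨algebraMap K E (algebraMap κ K c), by
      rw [← IsScalarTower.algebraMap_apply K E N, ← IsScalarTower.algebraMap_apply κ K N]⟩
  have hfixκ : ∀ (σ : N ≃ₐ[E] N) (c : κ), σ (algebraMap κ N c) = algebraMap κ N c := by
    intro σ c
    obtain ⟨x, hx⟩ := hκE c
    rw [← hx, σ.commutes]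
  have hcex : ∀ σ : N ≃ₐ[E] N, ∃ c : κ' ≃ₐ[κ] κ', ∀ z, σ (j₁ z) = j₁ (c z) := by
    intro σ
    let σκ : N →ₐ[κ] N := { (σ : N →+* N) with commutes' := hfixκ σ }
    let _ : Algebra κ' N := j₁.toRingHom.toAlgebra
    have hT : IsScalarTower κ κ' N := IsScalarTower.of_algebraMap_eq fun c => (j₁.commutes c).symm
    refine ⟨σκ.restrictNormal' κ', fun z => ?_⟩
    exact (AlgHom.restrictNormal_commutes σκ κ' z).symm
  have hcuniq : ∀ c c' : κ' ≃ₐ[κ] κ', (∀ z, j₁ (c z) = j₁ (c' z)) → c = c' := fun c c' h =>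
    AlgEquiv.ext fun z => j₁.toRingHom.injective (h z)
  choose cf hcf using hcex
  let πc : (N ≃ₐ[E] N) →* (κ' ≃ₐ[κ] κ') := MonoidHom.mk' cf (fun σ' σ =>
    hcuniq _ _ fun z => by
      rw [← hcf, AlgEquiv.mul_apply, hcf, hcf]
      rfl)
  have hπc : ∀ σ z, σ (j₁ z) = j₁ (πc σ z) := hcf
  have hπcs : Function.Surjective πc := by
    rw [← MonoidHom.range_eq_top, ← IntermediateField.fixingSubgroup_fixedField πc.range,
      ← IntermediateField.fixingSubgroup_bot]
    congr 1
    rw [eq_bot_iff]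
    intro z hz
    rw [IntermediateField.mem_fixedField_iff] at hz
    have h1 : ∀ σ : N ≃ₐ[E] N, σ (j₁ z) = j₁ z := fun σ => by
      rw [hπc, hz _ ⟨σ, rfl⟩]
    have h2 : IsSeparable κ z := Algebra.IsSeparable.isSeparable κ z
    have h3 : IsSeparable κ (j₁ z) := h2.map j₁ j₁.toRingHom.injective
    let _ : Algebra κ E := ((algebraMap K E).comp (algebraMap κ K)).toAlgebra
    have hTκ : IsScalarTower κ E N := IsScalarTower.of_algebraMap_eq fun c => by
      change _ = algebraMap E N (algebraMap K E (algebraMap κ K c))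
      rw [← IsScalarTower.algebraMap_apply K E N, ← IsScalarTower.algebraMap_apply κ K N]
    have hTκ2 : IsScalarTower κ K E := IsScalarTower.of_algebraMap_eq fun _ => rfl
    have h4 : IsSeparable E (j₁ z) := h3.tower_top E
    have h5 : j₁ z ∈ (⊥ : IntermediateField E N) := by
      have hmem : j₁ z ∈ separableClosure E N := mem_separableClosure_iff.2 h4
      have h6 : (⟨j₁ z, hmem⟩ : separableClosure E N) ∈
          (⊥ : IntermediateField E (separableClosure E N)) := by
        rw [InfiniteGalois.mem_bot_iff_fixed]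
        intro f
        obtain ⟨σ, hσ⟩ := AlgEquiv.restrictNormalHom_surjective (F := E)
          (K₁ := separableClosure E N) (E := N) f
        apply Subtype.ext
        have h7 := AlgEquiv.restrictNormal_commutes σ (separableClosure E N)
          (⟨j₁ z, hmem⟩ : separableClosure E N)
        have h8 : σ.restrictNormal (separableClosure E N) = f := hσ
        rw [h8] at h7
        exact h7.trans (h1 σ)
      obtain ⟨x, hx⟩ := IntermediateField.mem_bot.1 h6
      exact IntermediateField.mem_bot.2 ⟨x, congrArg Subtype.val hx⟩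
    obtain ⟨x, hx⟩ := IntermediateField.mem_bot.1 h5
    have h9 : IsAlgebraic κ (algebraMap E N x) := by
      rw [hx]
      exact ((Algebra.IsAlgebraic.isAlgebraic (R := κ) z).algHom j₁)
    have h10 : IsAlgebraic κ x := (isAlgebraic_algebraMap_iff (algebraMap E N).injective).1 h9
    obtain ⟨w, hw⟩ := const_frac (k := K) (V := ι) x (h10.tower_top K)
    rw [← hw, isAlgebraic_algebraMap_iff (algebraMap K E).injective] at h10
    obtain ⟨c, hc⟩ := Pool.Agent.Y140.IG.const_rat w h10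
    rw [IntermediateField.mem_bot]
    refine ⟨c, j₁.toRingHom.injective ?_⟩
    change j₁ (algebraMap κ κ' c) = j₁ z
    rw [j₁.commutes, ← hx, ← hw, ← hc, ← IsScalarTower.algebraMap_apply K E N,
      ← IsScalarTower.algebraMap_apply κ K N]
  let π' : (N ≃ₐ[E] N) →* H₀ × (κ' ≃ₐ[κ] κ') := π.prod πc
  have hκ'K₀ : ∀ z : κ', ∃ c : K₀, algebraMap K₀ N c = j₁ z := by
    intro z
    have h1 : IsAlgebraic κ (j₁ z) := (Algebra.IsAlgebraic.isAlgebraic (R := κ) z).algHom j₁
    have h2 : IsAlgebraic K₀ (j₁ z) := by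
      have h3 : IsAlgebraic K (j₁ z) := h1.tower_top K
      exact h3.tower_top K₀
    exact minpoly.mem_range_of_degree_eq_one K₀ (j₁ z)
      (IsAlgClosed.degree_eq_one_of_irreducible K₀ (minpoly.irreducible h2.isIntegral))
  have hsurj' : Function.Surjective π' := by
    rintro ⟨X, c⟩
    obtain ⟨σ₀, hσ₀⟩ := hπcs c
    obtain ⟨σ₁, hσ₁, hσ₁K⟩ := hgeo (X * (π σ₀)⁻¹)
    refine ⟨σ₁ * σ₀, Prod.ext ?_ ?_⟩
    · change π (σ₁ * σ₀) = X
      rw [map_mul, hσ₁, inv_mul_cancel_right]
    · change πc (σ₁ * σ₀) = c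
      have h1 : πc σ₁ = 1 := by
        refine hcuniq _ _ fun z => ?_
        rw [← hπc]
        obtain ⟨w, hw⟩ := hκ'K₀ z
        rw [← hw, hσ₁K, hw]
        rfl
      rw [map_mul, h1, one_mul, hσ₀]
  let S : Set N := (Set.range r ∪ ⋃ i, Set.range (vv i)) ∪ Set.range j₁
  have hSf : S.Finite := ((Set.finite_range r).union
    (Set.finite_iUnion fun i => Set.finite_range _)).union (Set.finite_range _)
  have hS : ∀ γ : N ≃ₐ[E] N, (∀ s ∈ S, γ s = s) → π' γ = 1 := by
    intro γ hγ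
    refine Prod.ext ?_ ?_
    · refine Subtype.ext (huniq γ _ _ (hπ γ) fun i => ⟨hγ _ (Or.inl (Or.inl ⟨i, rfl⟩)),
        fun g => ?_⟩)
      rw [hγ (vv i g) (Or.inl (Or.inr (Set.mem_iUnion.2 ⟨i, ⟨g, rfl⟩⟩)))]
      change vv i g = vv i (1 * g)
      rw [one_mul]
    · refine hcuniq _ _ fun z => ?_
      change j₁ (πc γ z) = j₁ z
      rw [← hπc]
      exact hγ _ (Or.inr ⟨z, rfl⟩)
  obtain ⟨F, iF1, iF2, iF3, iF4, iF5, iF6, e, he1, he2⟩ := finite_descent2 π' hsurj' S hSf hS
  let _ : Algebra (MvPolynomial ι K) F := ((algebraMap E F).comp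
    (algebraMap (MvPolynomial ι K) E)).toAlgebra
  have hT1 : IsScalarTower (MvPolynomial ι K) E F := IsScalarTower.of_algebraMap_eq fun x => rfl
  let j : MvPolynomial ι (Polynomial κ) →+* F := (algebraMap (MvPolynomial ι K) F).comp
    (MvPolynomial.map (algebraMap (Polynomial κ) K))
  -- the polynomial ring in the parameters
  have hR0 : ∀ z ∈ (Algebra.adjoin κ (Set.range η)).toSubring, ∃ c, algebraMap F N (j c) = z := by
    intro z hz
    let jN : MvPolynomial ι (Polynomial κ) →+* N := (algebraMap F N).comp j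
    have hz' : z ∈ Algebra.adjoin κ (Set.range η) := hz
    induction hz' using Algebra.adjoin_induction with
    | mem x hx =>
      obtain ⟨v, rfl⟩ := hx
      refine ⟨MvPolynomial.X v, ?_⟩
      change algebraMap F N (algebraMap E F (algebraMap (MvPolynomial ι K) E
        (MvPolynomial.map (algebraMap (Polynomial κ) K) (MvPolynomial.X v)))) = _
      rw [MvPolynomial.map_X, ← IsScalarTower.algebraMap_apply E F N, ← hηE]
    | algebraMap c =>
      refine ⟨MvPolynomial.C (Polynomial.C c), ?_⟩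
      change algebraMap F N (algebraMap E F (algebraMap (MvPolynomial ι K) E
        (MvPolynomial.map (algebraMap (Polynomial κ) K) (MvPolynomial.C (Polynomial.C c))))) = _
      rw [MvPolynomial.map_C, ← IsScalarTower.algebraMap_apply E F N]
      change algebraMap E N (algebraMap (MvPolynomial ι K) E (algebraMap K (MvPolynomial ι K) _)) =
        _
      rw [← IsScalarTower.algebraMap_apply K (MvPolynomial ι K) E,
        ← IsScalarTower.algebraMap_apply K E N,
        IsScalarTower.algebraMap_apply κ K N]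
      rfl
    | add x y hx hy h1 h2 =>
      obtain ⟨c, hc⟩ := h1 hx
      obtain ⟨c', hc'⟩ := h2 hy
      exact ⟨c + c', by rw [map_add, map_add, hc, hc']⟩
    | mul x y hx hy h1 h2 =>
      obtain ⟨c, hc⟩ := h1 hx
      obtain ⟨c', hc'⟩ := h2 hy
      exact ⟨c * c', by rw [map_mul, map_mul, hc, hc']⟩
  have hlift : ∀ b : F, IsIntegral (Algebra.adjoin κ (Set.range η)) (algebraMap F N b) →
      j.IsIntegralElem b := by
    rintro b ⟨P, hP, hPb⟩
    exact integral_lift j (Algebra.adjoin κ (Set.range η)).toSubring hR0 b ⟨P, hP, hPb⟩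
  -- elements of `N` with a power in `F`
  obtain ⟨q, hq⟩ := ExpChar.exists E
  have hq' : ExpChar N q := expChar_of_injective_algebraMap (algebraMap E N).injective q
  have hmain : ∀ (γ : N ≃ₐ[E] N) (σ : F ≃ₐ[E] F), π' γ = e σ → ∀ z : N, γ z ≠ z →
      (∀ γ' : N ≃ₐ[E] N, π' γ' = 1 → γ' z = z) →
      IsIntegral (Algebra.adjoin κ (Set.range η)) z →
      IsIntegral (Algebra.adjoin κ (Set.range η)) (γ z - z)⁻¹ →
      ∃ b : F, σ b ≠ b ∧ j.IsIntegralElem b ∧ j.IsIntegralElem (σ b - b)⁻¹ := by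
    intro γ σ hγσ z hγz hfixz hz1 hz2
    obtain ⟨k, y, hy⟩ := IsPurelyInseparable.pow_mem (separableClosure E N) q z
    have hsep : IsSeparable E (z ^ q ^ k) := by
      rw [← hy]
      exact mem_separableClosure_iff.1 y.2
    obtain ⟨b, hb⟩ := he2 (z ^ q ^ k) hsep (fun γ' hγ' => by rw [map_pow, hfixz γ' hγ'])
    have h1 : algebraMap F N (σ b) = γ (z ^ q ^ k) := by
      rw [← hb, he1 γ b, hγσ, MulEquiv.symm_apply_apply]
    have h2 : algebraMap F N (σ b - b) = (γ z - z) ^ q ^ k := by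
      rw [map_sub, h1, hb, map_pow, sub_pow_expChar_pow]
    refine ⟨b, fun h => ?_, hlift b (by rw [hb]; exact hz1.pow _), hlift _ ?_⟩
    · rw [h, sub_self, map_zero] at h2
      exact pow_ne_zero _ (sub_ne_zero.2 hγz) h2.symm
    · rw [map_inv₀, h2, ← inv_pow]
      exact hz2.pow _
  refine hABS κ ι E F (H₀ × (κ' ≃ₐ[κ] κ')) e fun σ hσ => ?_
  obtain ⟨γ, hγ⟩ := hsurj' (e σ)
  have hfix1 : ∀ γ' : N ≃ₐ[E] N, π' γ' = 1 → ((∀ i, γ' (r i) = r i) ∧
      ∀ i g, γ' (vv i g) = vv i g) ∧ ∀ z, γ' (j₁ z) = j₁ z := by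
    intro γ' h0
    have h : π γ' = 1 := congrArg Prod.fst h0
    have h1 := hπ γ'
    rw [h] at h1
    refine ⟨⟨fun i => (h1 i).1, fun i g => ?_⟩, fun z => ?_⟩
    · have h2 := (h1 i).2 g
      rw [h2]
      change vv i (1 * g) = vv i g
      rw [one_mul]
    · rw [hπc]
      have h3 : πc γ' = 1 := congrArg Prod.snd h0
      rw [h3]
      rfl
  by_cases hc1 : πc γ = 1
  swap
  · -- the constants move
    obtain ⟨z, hz⟩ : ∃ z, πc γ z ≠ z := by
      by_contra hcon
      push Not at hcon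
      exact hc1 (AlgEquiv.ext hcon)
    have h1 : γ (j₁ z) = j₁ (πc γ z) := hπc γ z
    have hint : ∀ w : κ', IsIntegral (Algebra.adjoin κ (Set.range η)) (j₁ w) := by
      intro w
      have h2 : IsIntegral κ w := Algebra.IsIntegral.isIntegral w
      exact (h2.map j₁).tower_top
    refine hmain γ σ hγ (j₁ z) (fun h => hz (j₁.toRingHom.injective (by
      change j₁ (πc γ z) = j₁ z
      rw [← h1, h]))) (fun γ' h => (hfix1 γ' h).2 z) (hint z) ?_
    rw [h1, ← map_sub, ← map_inv₀]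
    exact hint _
  by_cases hr1 : ∃ i, (π γ : Wr G n).right i ≠ i
  · obtain ⟨i, hi⟩ := hr1
    have h1 : γ (r i) = r ((π γ : Wr G n).right i) := (hπ γ i).1
    refine hmain γ σ hγ (r i) (fun h => hi (hr (by rw [← h1, h])))
      (fun γ' h => (hfix1 γ' h).1.1 i) (hi1 i) ?_
    rw [h1]
    exact hi2 _ _ hi
  · push Not at hr1
    have hex1 : ∃ i, (π γ : Wr G n).left i ≠ 1 := by
      by_contra hcon
      push Not at hcon
      apply hσ
      apply e.injective
      rw [map_one, ← hγ]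
      refine Prod.ext ?_ hc1
      apply Subtype.ext
      apply SemidirectProduct.ext
      · funext i
        exact hcon i
      · apply Equiv.ext
        intro i
        exact hr1 i
    obtain ⟨i, hi⟩ := hex1
    have h1 : γ (vv i 1) = vv i ((π γ : Wr G n).left i) := by
      have h2 := (hπ γ i).2 1
      rw [hr1 i, mul_one] at h2
      exact h2
    refine hmain γ σ hγ (vv i 1) (fun h => hi (hvv i (by rw [← h1, h])))
      (fun γ' h => (hfix1 γ' h).1.2 i 1) (hi3 i 1) ?_
    rw [h1]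
    exact hi4 i _ _ hi

end Pool.Agent.Y140.AW
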