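import Mathlib
import Pool.Agent.Y140.AW.Stm
import Pool.Agent.Y241.WR.Grp

/-!
The wreath product part of the project AW (owner helper140).
-/

set_option autoImplicit false

namespace Pool.Agent.Y140.AW

open Pool.Agent.H391R2 Pool.Agent.Y793

/-- Extension of a pair to an injective tuple. -/
theorem ext_pair {m n : ℕ} (hm : 2 ≤ m) (hmn : m ≤ n) (a b : Fin n) (hab : a ≠ b) :
    ∃ α : Fin m → Fin n, Function.Injective α ∧ α ⟨0, by omega⟩ = a ∧ α ⟨1, by omega⟩ = b := by
  let z : Fin n := ⟨0, by omega⟩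
  let o : Fin n := ⟨1, by omega⟩
  have hzo : z ≠ o := by
    intro h
    have := congrArg Fin.val h
    simp [z, o] at this
  let σ₁ := Equiv.swap z a
  let b₁ := σ₁ b
  have hb₁ : b₁ ≠ z := by
    intro h
    have h1 : σ₁ (σ₁ b) = σ₁ z := congrArg σ₁ h
    rw [Equiv.swap_apply_self, Equiv.swap_apply_left] at h1
    exact hab h1.symm
  let σ₂ := Equiv.swap o b₁
  refine ⟨fun i => σ₁ (σ₂ (Fin.castLE hmn i)), fun i j h => ?_, ?_, ?_⟩
  · exact Fin.castLE_injective hmn (σ₂.injective (σ₁.injective h))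
  · change σ₁ (σ₂ z) = a
    rw [show σ₂ z = z from Equiv.swap_apply_of_ne_of_ne hzo hb₁.symm]
    exact Equiv.swap_apply_left _ _
  · change σ₁ (σ₂ o) = b
    rw [show σ₂ o = b₁ from Equiv.swap_apply_left _ _]
    exact Equiv.swap_apply_self _ _ _

/-- A subgroup of the wreath product, transitive on labelled tuples, contains the alternating
wreath product. -/
theorem grw (hMT : St_mt) (G : Type) [Group G] [Finite G] (hG : commutator G = ⊤) (n r q : ℕ)
    (hq : q.Prime) (hn : n = q + r) (hr : 5 ≤ r) (hrq : r < q)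
    (hc : 2 * (Nat.card G) ^ 2 < (n - 2).factorial) (H : Subgroup (Wr G n))
    (htr : ∀ a b : Fin (r + 1) → Fin n, Function.Injective a → Function.Injective b →
      ∀ h : Fin (r + 1) → G, ∃ x ∈ H, ∀ i, x.right (a i) = b i ∧ x.left (b i) = h i) :
    AWr G n ≤ H := by
  refine Pool.Agent.Y241.WR.t_grp G hG n (by omega) hc H ?_ ?_
  · intro a b a' b' hab hab' g h
    obtain ⟨α, hα, hα0, hα1⟩ := ext_pair (m := r + 1) (n := n) (by omega) (by omega) a b hab
    obtain ⟨β, hβ, hβ0, hβ1⟩ := ext_pair (m := r + 1) (n := n) (by omega) (by omega) a' b' hab'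
    obtain ⟨x, hx, hx1⟩ := htr α β hα hβ
      (fun i => if i = ⟨0, by omega⟩ then g else h)
    refine ⟨x, hx, ?_, ?_, ?_, ?_⟩
    · have := (hx1 ⟨0, by omega⟩).1
      rwa [hα0, hβ0] at this
    · have := (hx1 ⟨1, by omega⟩).1
      rwa [hα1, hβ1] at this
    · have := (hx1 ⟨0, by omega⟩).2
      rw [hβ0, if_pos rfl] at this
      exact this
    · have := (hx1 ⟨1, by omega⟩).2
      rw [hβ1, if_neg (by
        intro h
        have := congrArg Fin.val h
        simp at this)] at this
      exact this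
  · have h1 : alternatingGroup (Fin n) ≤ H.map SemidirectProduct.rightHom := by
      refine hMT n r q hq hn hr hrq _ fun a b ha hb => ?_
      obtain ⟨x, hx, hx1⟩ := htr a b ha hb (fun _ => 1)
      exact ⟨x.right, ⟨x, hx, rfl⟩, fun i => (hx1 i).1⟩
    let a : Fin n := ⟨0, by omega⟩
    let b : Fin n := ⟨1, by omega⟩
    let c : Fin n := ⟨2, by omega⟩
    have hab : a ≠ b := by
      intro h
      have := congrArg Fin.val h
      simp [a, b] at this
    have hac : a ≠ c := by
      intro h
      have := congrArg Fin.val h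
      simp [a, c] at this
    have hbc : b ≠ c := by
      intro h
      have := congrArg Fin.val h
      simp [b, c] at this
    have h3 : (Equiv.swap a b * Equiv.swap a c).IsThreeCycle :=
      Equiv.Perm.isThreeCycle_swap_mul_swap_same hab hac hbc
    obtain ⟨x, hx, hx2⟩ := h1 h3.mem_alternatingGroup
    refine ⟨x, hx, ?_⟩
    have h4 : x.right = Equiv.swap a b * Equiv.swap a c := hx2
    rw [h4]
    exact h3

/-- Primes in a residue class. -/
theorem exists_q (M n₀ : ℕ) (hM : 0 < M) : ∃ q > n₀, q.Prime ∧ M ∣ q + 1 := by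
  have : NeZero M := ⟨hM.ne'⟩
  obtain ⟨q, hq, hq1, hq2⟩ := Nat.forall_exists_prime_gt_and_eq_mod (q := M) (a := -1)
    isUnit_one.neg n₀
  refine ⟨q, hq, hq1, ?_⟩
  rw [← ZMod.natCast_eq_zero_iff]
  push_cast
  rw [hq2, neg_add_cancel]

end Pool.Agent.Y140.AW
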