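import Mathlib
import Pool.Agent.Y140.AW.Bas
import Pool.Agent.Y140.AW.Grw
import Pool.Agent.W200.IJ.SD
import Pool.Agent.H391R2.T4.Utl

/-!
The main construction (project AW, owner helper140).
-/

set_option autoImplicit false

namespace Pool.Agent.Y140.AW

open Polynomial Pool.Agent.H391R2 Pool.Agent.H391R2.T4 Pool.Agent.Y793

section rel

variable {K E N G : Type} [Field K] [Field E] [Algebra (RatFunc K) E] [Algebra K E]
  [IsScalarTower K (RatFunc K) E] [Group G] [Field N] [Algebra K N] {n : ℕ}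
  (g : G →* (E ≃ₐ[RatFunc K] E)) (φ : Fin n → E →ₐ[K] N)

/-- The automorphism acts on the embeddings through the element `X` of the wreath product. -/
def RelE (σ : N → N) (X : Wr G n) : Prop :=
  ∀ l z, σ (φ l z) = φ (X.right l) (g (X.left (X.right l)) z)

variable {g φ}

theorem RelE.one : RelE g φ id 1 := by
  intro l z
  change φ l z = φ l (g 1 z)
  rw [map_one]
  rfl

theorem RelE.mul {σ σ' : N → N} {X X' : Wr G n} (h : RelE g φ σ X) (h' : RelE g φ σ' X') :
    RelE g φ (σ ∘ σ') (X * X') := by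
  intro l z
  change σ (σ' (φ l z)) = _
  rw [h' l z, h, wr_mul_right, wr_mul_left]
  have h1 : X.right⁻¹ ((X.right * X'.right) l) = X'.right l := by simp
  rw [h1, map_mul]
  rfl

theorem RelE.inv {σ : N ≃ N} {X : Wr G n} (h : RelE g φ σ X) : RelE g φ σ.symm X⁻¹ := by
  intro l z
  rw [Equiv.symm_apply_eq, h, wr_inv_left]
  have h2 : X⁻¹.right = X.right⁻¹ := rfl
  have h3 : X.right (X.right⁻¹ l) = l := by simp
  rw [h2, h3]
  change φ l z = φ l ((g (X.left l) * g (X.left l)⁻¹) z)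
  rw [← map_mul, mul_inv_cancel, map_one]
  rfl

end rel

theorem core (p : ℕ) [Fact p.Prime] (hp2 : p ≠ 2) (hMT : St_mt) (hPTS : St_pts) (hINT : St_int)
    (hPL : St_place) (hUNI : St_uni) (hPAR : St_par) (hTUP : St_tuple) (hIND : St_indep)
    (hLIFT : St_lift) (hARI : St_arith)
    (K K₀ E N G : Type) [Field K] [CharP K p] [Infinite K] [Field E] [Algebra (RatFunc K) E]
    [Algebra K E] [IsScalarTower K (RatFunc K) E] [FiniteDimensional (RatFunc K) E]
    [IsGalois (RatFunc K) E] [Group G] [Finite G] [Field K₀] [Algebra K K₀] [IsAlgClosed K₀]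
    [Algebra.IsAlgebraic K K₀] [Field N] [IsAlgClosed N] [Algebra K₀ N] [Algebra K N]
    [IsScalarTower K K₀ N] (hG : commutator G = ⊤)
    (hreg : ∀ y : E, IsAlgebraic K y → y ∈ Set.range (algebraMap K E))
    (g : G →* (E ≃ₐ[RatFunc K] E)) (hg : Function.Injective g) (θ : E) (Θ : K[X][X])
    (hθ : ∀ σ : E ≃ₐ[RatFunc K] E, σ θ = θ ↔ σ ∈ g.range)
    (hΘ : Θ.map (algebraMap K[X] (RatFunc K)) = minpoly (RatFunc K) θ) (D₀ : K[X]) (d : ℕ)
    (hDD : DD Θ D₀ d) (B r q : ℕ) (hBB : BB Θ B (r + 1)) (hBe : Even B)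
    (n : ℕ) (hnd : n = d * (p * (B + (D₀ ^ 4).natDegree))) (hn4 : 4 ∣ n) (hq : q.Prime)
    (hn : n = q + r) (hr : 5 ≤ r) (hrq : r < q) (hc : 2 * (Nat.card G) ^ 2 < (n - 2).factorial)
    (η : Option (Fin (r + 1)) → N) (hη : IsTranscendenceBasis K₀ η) :
    RegSol K K (AWr G n) 1 := by
  classical
  have hcN : CharP N p := charP_of_injective_algebraMap (algebraMap K N).injective p
  have hηK : IsTranscendenceBasis K η := Pool.Agent.W200.IJ.basis_down η hη
  obtain ⟨s, hs⟩ : ∃ s : N, s = η none := ⟨_, rfl⟩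
  obtain ⟨ν, hν⟩ : ∃ ν : Fin (r + 1) → N, ν = fun i => η (some i) := ⟨_, rfl⟩
  have hη' : (fun o : Option (Fin (r + 1)) => o.elim s ν) = η := by
    funext o
    cases o with
    | none => exact hs
    | some i => rw [hν]; rfl
  have hs0 : s ≠ 0 := by
    rw [hs]
    exact hη.1.ne_zero none
  have hPTS' := hPTS p K N Θ D₀ (D₀ ^ 4) d B (r + 1) hDD hBB rfl ν s hs0
  have hPL' := hPL p K N Θ D₀ (D₀ ^ 4) d B (r + 1) hDD hBB rfl hBe ν s (by rw [hη']; exact hηK.1)
  rw [← hnd] at hPTS' hPL'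
  obtain ⟨x, θx, hx, hpt, hall, hder⟩ := hPTS'
  have hPL'' := hPL' x θx hx hpt
  -- independence
  have hind : ∀ a : Fin (r + 1) → Fin n, Function.Injective a →
      AlgebraicIndependent (IntermediateField.adjoin K₀ {s}) (fun j => x (a j)) := fun a ha =>
    hIND p K K₀ N Θ D₀ (D₀ ^ 4) d B (r + 1) hDD rfl ν s (by rw [hη']; exact hη)
      (fun j => x (a j)) (fun j => θx (a j)) (hx.comp ha) (fun j => hpt _)
  have htr : ∀ l, Transcendental K (x l) := by
    intro l
    let z : Fin n := ⟨0, by omega⟩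
    let a : Fin (r + 1) → Fin n := fun j => Equiv.swap z l (Fin.castLE (by omega) j)
    have ha : Function.Injective a := fun i j h =>
      Fin.castLE_injective _ ((Equiv.swap z l).injective h)
    have ha0 : a ⟨0, by omega⟩ = l := Equiv.swap_apply_left z l
    have h1 := (hind a ha).transcendental ⟨0, by omega⟩
    rw [ha0] at h1
    have h2 : Transcendental K₀ (x l) := fun h => h1 (h.tower_top _)
    exact fun h => h2 (h.tower_top K₀)
  -- embeddings
  choose φ hφx hφθ using fun l => (hLIFT K E N G g θ Θ hθ hΘ).1 (x l) (θx l) (htr l) (hpt l).1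
  obtain ⟨y, hy⟩ : ∃ y : E, ∀ σ : E ≃ₐ[RatFunc K] E, σ y = y → σ = 1 := by
    obtain ⟨y, hy⟩ := Field.exists_primitive_element (RatFunc K) E
    refine ⟨y, fun σ h => AlgEquiv.ext fun z => ?_⟩
    exact eq_on_adjoin (σ : E →ₐ[RatFunc K] E) (AlgHom.id _ E) {y} (by
      rintro _ rfl
      exact h) z (by rw [hy]; trivial)
  have hgfix : ∀ (h : G) (l : Fin n), φ l (g h θ) = θx l := by
    intro h l
    rw [(hθ (g h)).2 ⟨h, rfl⟩, hφθ]
  have hgX : ∀ (h : G) (l : Fin n), φ l (g h (algebraMap (RatFunc K) E RatFunc.X)) = x l := by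
    intro h l
    rw [(g h).commutes, hφx]
  let vv : Fin n → G → N := fun l h => φ l (g h y)
  have hvv : ∀ l, Function.Injective (vv l) := by
    intro l h h' e
    have h1 : g h y = g h' y := (φ l).toRingHom.injective e
    have h2 : g (h'⁻¹ * h) y = y := by
      rw [map_mul, AlgEquiv.mul_apply, h1, ← AlgEquiv.mul_apply, ← map_mul, inv_mul_cancel,
        map_one]
      rfl
    have h3 := hy _ h2
    rw [← map_one g] at h3
    exact (inv_mul_eq_one.1 (hg h3)).symm
  -- consequences of the relation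
  have hrelx : ∀ (σ : N → N) (X : Wr G n), RelE g φ σ X → ∀ l, σ (x l) = x (X.right l) := by
    intro σ X h l
    have h1 := h l (algebraMap (RatFunc K) E RatFunc.X)
    rwa [hφx, hgX] at h1
  have hrelθ : ∀ (σ : N → N) (X : Wr G n), RelE g φ σ X → ∀ l, σ (θx l) = θx (X.right l) := by
    intro σ X h l
    have h1 := h l θ
    rwa [hφθ, hgfix] at h1
  have hrelv : ∀ (σ : N → N) (X : Wr G n), RelE g φ σ X → ∀ l h,
      σ (vv l h) = vv (X.right l) (X.left (X.right l) * h) := by
    intro σ X hX l h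
    have h1 := hX l (g h y)
    rw [← AlgEquiv.mul_apply, ← map_mul] at h1
    exact h1
  -- every automorphism over the parameters satisfies a relation
  have key : ∀ σ : N ≃ₐ[K] N, (∀ v, σ (η v) = η v) → ∃ X : Wr G n, RelE g φ σ X := by
    intro σ hσ
    have hσs : σ s = s := by rw [hs]; exact hσ none
    have hσν : (fun i => (σ : N →ₐ[K] N) (ν i)) = ν := by
      funext i
      rw [hν]
      exact hσ (some i)
    have h1 : ∀ l, ∃ l', σ (x l) = x l' ∧ σ (θx l) = θx l' := by
      intro l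
      have h2 := (hpt l).map (σ : N →ₐ[K] N)
      rw [hσν] at h2
      have h3 : (σ : N →ₐ[K] N) s = s := hσs
      rw [h3] at h2
      exact hall _ _ h2
    choose π hπx hπθ using h1
    have hπi : Function.Injective π := by
      intro l l' h
      apply hx
      apply σ.injective
      rw [hπx, hπx, h]
    let P : Equiv.Perm (Fin n) := Equiv.ofBijective π (Finite.injective_iff_bijective.1 hπi)
    have h2 : ∀ l, ∃ h : G, ∀ z, σ (φ l z) = φ (π l) (g h z) := by
      intro l
      exact (hLIFT K E N G g θ Θ hθ hΘ).2.2 ((σ : N →ₐ[K] N).comp (φ l)) (φ (π l)) (by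
        change σ (φ l _) = _
        rw [hφx, hφx, hπx]) (by
        change σ (φ l _) = _
        rw [hφθ, hφθ, hπθ])
    choose h hh using h2
    refine ⟨⟨fun j => h (P.symm j), P⟩, fun l z => ?_⟩
    change σ (φ l z) = φ (π l) (g (h (P.symm (P l))) z)
    rw [Equiv.symm_apply_apply]
    exact hh l z
  -- parity
  have hcne : (algebraMap K N (D₀ ^ 4).leadingCoeff) ^ (p * d) ≠ 0 := by
    refine pow_ne_zero _ ((map_ne_zero_iff _ (algebraMap K N).injective).2 ?_)
    exact leadingCoeff_ne_zero.2 (pow_ne_zero 4 hDD.ne)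
  have hZne : ∀ l, tZ Θ (x l) (θx l) ≠ 0 := by
    intro l h0
    have h1 := hder l
    rw [h0, zero_pow (Nat.Prime.ne_zero Fact.out), mul_zero] at h1
    refine (mul_ne_zero hcne ?_) h1
    rw [Finset.prod_ne_zero_iff]
    intro j hj
    rw [sub_ne_zero]
    exact fun h => (Finset.ne_of_mem_erase hj) (hx h).symm
  have hηA : ∀ v, η v ∈ Algebra.adjoin K (Set.range η) := fun v =>
    Algebra.subset_adjoin ⟨v, rfl⟩
  have hint : ∀ l, IsIntegral (Algebra.adjoin K (Set.range η)) (tZ Θ (x l) (θx l)) ∧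
      IsIntegral (Algebra.adjoin K (Set.range η)) (tZ Θ (x l) (θx l))⁻¹ := by
    intro l
    have h1 := hINT p K N Θ D₀ (D₀ ^ 4) d B (r + 1) hDD hBB rfl ν s _ _ (hpt l)
      (Algebra.adjoin K (Set.range η)) (by rw [hs]; exact hηA none) (fun i => by
        rw [hν]; exact hηA (some i))
    exact h1.2.2.2
  have hprodσ : ∀ σ : N ≃ₐ[K] N, (∀ v, σ (η v) = η v) →
      σ (∏ l, tZ Θ (x l) (θx l)) = ∏ l, tZ Θ (x l) (θx l) := by
    intro σ hσ
    obtain ⟨X, hX⟩ := key σ hσ
    rw [map_prod]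
    have h1 : ∀ l, σ (tZ Θ (x l) (θx l)) = tZ Θ (x (X.right l)) (θx (X.right l)) := by
      intro l
      rw [← hrelx σ X hX, ← hrelθ σ X hX]
      exact (tZ_map Θ (σ : N →ₐ[K] N) (x l) (θx l)).symm
    simp only [h1]
    exact Equiv.prod_comp X.right (fun l => tZ Θ (x l) (θx l))
  have halg : IsAlgebraic K (∏ l, tZ Θ (x l) (θx l)) := by
    refine hUNI p K N _ η hηK _ (Finset.prod_ne_zero_iff.2 fun l _ => hZne l)
      (IsIntegral.prod _ fun l _ => (hint l).1) ?_ hprodσ
    rw [← Finset.prod_inv_distrib]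
    exact IsIntegral.prod _ fun l _ => (hint l).2
  obtain ⟨e, he⟩ := hPL'' halg
  have h2N : (2 : N) ≠ 0 := by
    intro h2
    have h3 : ((2 : ℕ) : N) = 0 := by exact_mod_cast h2
    rw [CharP.cast_eq_zero_iff N p] at h3
    exact hp2 ((Nat.prime_dvd_prime_iff_eq Fact.out Nat.prime_two).1 h3)
  have par : ∀ (σ : N ≃ₐ[K] N) (X : Wr G n), (∀ v, σ (η v) = η v) → RelE g φ σ X →
      X ∈ AWr G n := by
    intro σ X hσ hX
    change Equiv.Perm.sign X.right = 1
    refine hPAR p N n d hn4 h2N x (fun l => aeval (x l) D₀) (fun l => tZ Θ (x l) (θx l)) s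
      ((algebraMap K N (D₀ ^ 4).leadingCoeff) ^ (p * d)) (algebraMap K N e) hx hcne hs0
      (fun l => ?_) (by rw [he, map_pow]) (fun l => ?_) σ.toRingEquiv X.right
      (fun l => hrelx σ X hX l) (fun l => ?_) ?_ ?_ ?_
    · have h1 := (hpt l).2.1
      rw [map_pow] at h1
      exact fun h => h1 (by rw [h, zero_pow (by norm_num)])
    · have h1 := hder l
      rw [map_pow (aeval (x l))] at h1
      exact h1
    · change σ (aeval (x l) D₀) = aeval (x (X.right l)) D₀
      rw [← hrelx σ X hX]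
      exact (aeval_algHom_apply (σ : N →ₐ[K] N) (x l) D₀).symm
    · change σ s = s
      rw [hs]
      exact hσ none
    · change σ (_ ^ _) = _
      rw [map_pow, σ.commutes]
    · exact σ.commutes e
  -- the geometric group
  let H : Subgroup (Wr G n) :=
    { carrier := {X | ∃ τ : N ≃ₐ[K₀] N, (∀ v, τ (η v) = η v) ∧ RelE g φ τ X}
      one_mem' := ⟨1, fun v => rfl, RelE.one⟩
      mul_mem' := by
        rintro X X' ⟨τ, h1, h2⟩ ⟨τ', h1', h2'⟩
        have h3 : RelE g φ (τ ∘ τ') (X * X') := RelE.mul h2 h2'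
        exact ⟨τ * τ', fun v => by rw [AlgEquiv.mul_apply, h1', h1], h3⟩
      inv_mem' := by
        rintro X ⟨τ, h1, h2⟩
        refine ⟨τ.symm, fun v => ?_, RelE.inv (σ := τ.toEquiv) h2⟩
        rw [AlgEquiv.symm_apply_eq, h1] }
  have hHA : AWr G n ≤ H := by
    refine grw hMT G hG n r q hq hn hr hrq hc H fun a b ha hb h => ?_
    let F : IntermediateField K N := (IntermediateField.adjoin K₀ {s}).restrictScalars K
    obtain ⟨τ, hτ⟩ := hTUP K E N hreg ⟨_, inferInstance, η, hηK⟩ F (r + 1) (fun j => φ (a j))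
      (fun j => (φ (b j)).comp (((g (h j)).restrictScalars K : E ≃ₐ[K] E) : E →ₐ[K] E)) (by
        simp only [hφx]
        exact hind a ha) (by
        have h1 : (fun j => ((φ (b j)).comp (((g (h j)).restrictScalars K : E ≃ₐ[K] E) :
            E →ₐ[K] E)) (algebraMap (RatFunc K) E RatFunc.X)) = fun j => x (b j) := by
          funext j
          exact hgX (h j) (b j)
        rw [h1]
        exact hind b hb)
    have hτ' : ∀ j z, τ (φ (a j) z) = φ (b j) (g (h j) z) := hτ
    have hτx : ∀ j, τ (x (a j)) = x (b j) := by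
      intro j
      rw [← hφx (a j), hτ', hgX]
    have hτθ : ∀ j, τ (θx (a j)) = θx (b j) := by
      intro j
      rw [← hφθ (a j), hτ', hgfix]
    have hτK₀ : ∀ c : K₀, τ (algebraMap K₀ N c) = algebraMap K₀ N c := fun c =>
      τ.commutes (⟨algebraMap K₀ N c, (IntermediateField.adjoin K₀ {s}).algebraMap_mem c⟩ : F)
    have hτs : τ s = s := τ.commutes
      (⟨s, IntermediateField.mem_adjoin_simple_self K₀ s⟩ : F)
    let σ : N ≃ₐ[K₀] N := AlgEquiv.ofRingEquiv (f := (τ : N ≃+* N)) hτK₀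
    let σK : N ≃ₐ[K] N := σ.restrictScalars K
    have hσν : (fun i => (σK : N →ₐ[K] N) (ν i)) = ν := by
      refine lin (p := p) (Θ := Θ) (D := D₀ ^ 4) (B := B) (s := s) (fun j => x (b j))
        (fun j => θx (b j)) (hx.comp hb) (fun j => ?_) (fun j => hpt (b j))
      have h1 := (hpt (a j)).map (σK : N →ₐ[K] N)
      have h2 : (σK : N →ₐ[K] N) s = s := hτs
      have h3 : (σK : N →ₐ[K] N) (x (a j)) = x (b j) := hτx j
      have h4 : (σK : N →ₐ[K] N) (θx (a j)) = θx (b j) := hτθ j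
      rwa [h2, h3, h4] at h1
    have hση : ∀ v, σ (η v) = η v := by
      intro v
      cases v with
      | none => rw [← hs]; exact hτs
      | some i =>
        have h1 := congrFun hσν i
        rw [hν] at h1
        exact h1
    obtain ⟨X, hX⟩ := key σK hση
    have hXr : ∀ j, X.right (a j) = b j := by
      intro j
      apply hx
      rw [← hrelx _ X hX]
      exact hτx j
    refine ⟨X, ⟨σ, hση, hX⟩, fun j => ⟨hXr j, ?_⟩⟩
    have h1 := hX (a j) y
    rw [hXr j] at h1
    have h2 : σK (φ (a j) y) = φ (b j) (g (h j) y) := hτ' j y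
    rw [h2] at h1
    exact (hvv (b j) h1).symm
  -- conclusion
  refine hARI K K₀ N _ η hη G n (AWr G n) x hx vv hvv (fun σ hσ => ?_) (fun X hX => ?_)
  · obtain ⟨X, hX⟩ := key σ hσ
    exact ⟨X, par σ X hσ hX, fun l => ⟨hrelx σ X hX l, fun h => hrelv σ X hX l h⟩⟩
  · obtain ⟨τ, hτ, hX'⟩ := hHA hX
    exact ⟨τ, hτ, fun l => ⟨hrelx τ X hX' l, fun h => hrelv τ X hX' l h⟩⟩

end Pool.Agent.Y140.AW
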