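import Mathlib
import Pool.Agent.Y140.AW.Core
import Pool.Agent.Y140.AW.Stm2

/-!
The main construction, étale version, over a general field of constants (project AW, owner
helper140).
-/

set_option autoImplicit false

namespace Pool.Agent.Y140.AW

open Polynomial Pool.Agent.H391R2 Pool.Agent.H391R2.T4 Pool.Agent.Y793

/-- The relation between a map and an element of the wreath product, for two families. -/
def Rl {N G : Type} [Group G] {n : ℕ} (x y : Fin n → N) (vv ww : Fin n → G → N) (σ : N → N)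
    (X : Wr G n) : Prop :=
  ∀ i, σ (x i) = y (X.right i) ∧ ∀ g, σ (vv i g) = ww (X.right i) (X.left (X.right i) * g)

/-- The properties of the family attached to the parameters `ν`. -/
structure Fam (K K₀ : Type) {N G V : Type} [Field K] [Field K₀] [Field N] [Algebra K N]
    [Algebra K₀ N] [Group G] {n : ℕ} (ν : V → N) (x : Fin n → N) (vv : Fin n → G → N) : Prop where
  inj : Function.Injective x
  inj' : ∀ i, Function.Injective (vv i)
  rel : ∀ σ : N ≃ₐ[K] N, (∀ v, σ (ν v) = ν v) → ∃ X ∈ AWr G n, Rl x x vv vv σ X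
  geo : ∀ X ∈ AWr G n, ∃ σ : N ≃ₐ[K₀] N, (∀ v, σ (ν v) = ν v) ∧ Rl x x vv vv σ X
  i1 : ∀ i, IsIntegral (Algebra.adjoin K (Set.range ν)) (x i)
  i2 : ∀ i j, i ≠ j → IsIntegral (Algebra.adjoin K (Set.range ν)) (x i - x j)⁻¹
  i3 : ∀ i g, IsIntegral (Algebra.adjoin K (Set.range ν)) (vv i g)
  i4 : ∀ i g g', g ≠ g' → IsIntegral (Algebra.adjoin K (Set.range ν)) (vv i g - vv i g')⁻¹

theorem core4 (p : ℕ) [Fact p.Prime] (hp2 : p ≠ 2) (hMT : St_mt) (hPTS : St_pts2)
    (hINT : St_int2) (hSQ : St_sq) (hPAR : St_par) (hTUP : St_tuple2) (hIND : St_indep2)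
    (hLIFT : St_lift)
    (K K₀ E N G : Type) [Field K] [CharP K p] [Finite K] [Field E] [Algebra (RatFunc K) E]
    [Algebra K E] [IsScalarTower K (RatFunc K) E] [FiniteDimensional (RatFunc K) E]
    [IsGalois (RatFunc K) E] [Group G] [Finite G] [Field K₀]
    [IsAlgClosed K₀] [Field N] [IsAlgClosed N]
    [Algebra K₀ N] [Algebra K N] [Algebra K K₀] [IsScalarTower K K₀ N]
    (hG : commutator G = ⊤)
    (hreg : ∀ y : E, IsAlgebraic K y → y ∈ Set.range (algebraMap K E))
    (g : G →* (E ≃ₐ[RatFunc K] E)) (hg : Function.Injective g) (θ : E) (Θ : K[X][X])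
    (hθ : ∀ σ : E ≃ₐ[RatFunc K] E, σ θ = θ ↔ σ ∈ g.range)
    (hΘ : Θ.map (algebraMap K[X] (RatFunc K)) = minpoly (RatFunc K) θ) (D₀ D₁ : K[X])
    (hD₁ : D₁ ≠ 0) (y : E)
    (hyi : IsIntegral (Algebra.adjoin K {algebraMap (RatFunc K) E RatFunc.X}) y)
    (hyD : ∀ σ : E ≃ₐ[RatFunc K] E, σ ≠ 1 → σ y ≠ y ∧
      IsIntegral (Algebra.adjoin K {algebraMap (RatFunc K) E RatFunc.X})
        (aeval (algebraMap (RatFunc K) E RatFunc.X) D₁ / (σ y - y))) (d : ℕ)
    (hDD : DD Θ D₀ d) (B r q : ℕ) (hBB : BB Θ B (r + 1)) (hBe : Even B)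
    (n : ℕ) (hnd : n = d * (p * (B + ((D₀ * D₁) ^ 4).natDegree))) (hn4 : 4 ∣ n) (hq : q.Prime)
    (hn : n = q + r) (hr : 5 ≤ r) (hrq : r < q) (hc : 2 * (Nat.card G) ^ 2 < (n - 2).factorial)
    (ν : Fin (r + 1) → N) (hη : IsTranscendenceBasis K₀ ν)
    (hfin : ∃ (ι : Type) (_ : Finite ι) (η : ι → N), IsTranscendenceBasis K η) :
    ∃ (x : Fin n → N) (vv : Fin n → G → N), Fam K K₀ ν x vv := by
  classical
  have hcN : CharP N p := charP_of_injective_algebraMap (algebraMap K N).injective p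
  obtain ⟨s, hs⟩ : ∃ s : N, s = 1 := ⟨_, rfl⟩
  have hs0 : s ≠ 0 := by
    rw [hs]
    exact one_ne_zero
  have hPTS' := hPTS p K N Θ D₀ D₁ ((D₀ * D₁) ^ 4) d B (r + 1) hDD hBB hD₁ rfl ν s hs0
  obtain ⟨e, he'⟩ := hSQ p K Θ D₀ D₁ ((D₀ * D₁) ^ 4) d B (r + 1) hDD hBB hD₁ rfl hBe
  have hSQ' := he' N ν s hs0
  rw [← hnd] at hPTS' hSQ'
  obtain ⟨x, θx, hx, hpt, hall, hder⟩ := hPTS'
  have he := hSQ' x θx hx hpt
  -- independence
  have hind : ∀ a : Fin (r + 1) → Fin n, Function.Injective a →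
      AlgebraicIndependent K₀ (fun j => x (a j)) := fun a ha =>
    hIND p K K₀ N Θ D₀ D₁ ((D₀ * D₁) ^ 4) d B (r + 1) hDD hD₁ rfl ν 1 hη
      (fun j => x (a j)) (fun j => θx (a j)) (hx.comp ha) (fun j => by
        rw [map_one, ← hs]
        exact hpt _)
  have htr : ∀ l, Transcendental K (x l) := by
    intro l
    let z : Fin n := ⟨0, by omega⟩
    let a : Fin (r + 1) → Fin n := fun j => Equiv.swap z l (Fin.castLE (by omega) j)
    have ha : Function.Injective a := fun i j h =>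
      Fin.castLE_injective _ ((Equiv.swap z l).injective h)
    have ha0 : a ⟨0, by omega⟩ = l := Equiv.swap_apply_left z l
    have h1 := (hind a ha).transcendental ⟨0, by omega⟩
    rw [ha0] at h1
    exact fun h => h1 (h.tower_top K₀)
  -- embeddings
  choose φ hφx hφθ using fun l => (hLIFT K E N G g θ Θ hθ hΘ).1 (x l) (θx l) (htr l) (hpt l).1
  have hy : ∀ σ : E ≃ₐ[RatFunc K] E, σ y = y → σ = 1 := by
    intro σ h
    by_contra h1
    exact (hyD σ h1).1 h
  have hgfix : ∀ (h : G) (l : Fin n), φ l (g h θ) = θx l := by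
    intro h l
    rw [(hθ (g h)).2 ⟨h, rfl⟩, hφθ]
  have hgX : ∀ (h : G) (l : Fin n), φ l (g h (algebraMap (RatFunc K) E RatFunc.X)) = x l := by
    intro h l
    rw [(g h).commutes, hφx]
  let vv : Fin n → G → N := fun l h => φ l (g h y)
  have hvv : ∀ l, Function.Injective (vv l) := by
    intro l h h' e
    have h1 : g h y = g h' y := (φ l).toRingHom.injective e
    have h2 : g (h'⁻¹ * h) y = y := by
      rw [map_mul, AlgEquiv.mul_apply, h1, ← AlgEquiv.mul_apply, ← map_mul, inv_mul_cancel,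
        map_one]
      rfl
    have h3 := hy _ h2
    rw [← map_one g] at h3
    exact (inv_mul_eq_one.1 (hg h3)).symm
  -- consequences of the relation
  have hrelx : ∀ (σ : N → N) (X : Wr G n), RelE g φ σ X → ∀ l, σ (x l) = x (X.right l) := by
    intro σ X h l
    have h1 := h l (algebraMap (RatFunc K) E RatFunc.X)
    rwa [hφx, hgX] at h1
  have hrelθ : ∀ (σ : N → N) (X : Wr G n), RelE g φ σ X → ∀ l, σ (θx l) = θx (X.right l) := by
    intro σ X h l
    have h1 := h l θ
    rwa [hφθ, hgfix] at h1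
  have hrelv : ∀ (σ : N → N) (X : Wr G n), RelE g φ σ X → ∀ l h,
      σ (vv l h) = vv (X.right l) (X.left (X.right l) * h) := by
    intro σ X hX l h
    have h1 := hX l (g h y)
    rw [← AlgEquiv.mul_apply, ← map_mul] at h1
    exact h1
  -- every automorphism over the parameters satisfies a relation
  have key : ∀ σ : N ≃ₐ[K] N, (∀ v, σ (ν v) = ν v) → ∃ X : Wr G n, RelE g φ σ X := by
    intro σ hσ
    have hσs : σ s = s := by rw [hs, map_one]
    have hσν : (fun i => (σ : N →ₐ[K] N) (ν i)) = ν := funext hσ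
    have h1 : ∀ l, ∃ l', σ (x l) = x l' ∧ σ (θx l) = θx l' := by
      intro l
      have h2 := (hpt l).map (σ : N →ₐ[K] N)
      rw [hσν] at h2
      have h3 : (σ : N →ₐ[K] N) s = s := hσs
      rw [h3] at h2
      exact hall _ _ h2
    choose π hπx hπθ using h1
    have hπi : Function.Injective π := by
      intro l l' h
      apply hx
      apply σ.injective
      rw [hπx, hπx, h]
    let P : Equiv.Perm (Fin n) := Equiv.ofBijective π (Finite.injective_iff_bijective.1 hπi)
    have h2 : ∀ l, ∃ h : G, ∀ z, σ (φ l z) = φ (π l) (g h z) := by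
      intro l
      exact (hLIFT K E N G g θ Θ hθ hΘ).2.2 ((σ : N →ₐ[K] N).comp (φ l)) (φ (π l)) (by
        change σ (φ l _) = _
        rw [hφx, hφx, hπx]) (by
        change σ (φ l _) = _
        rw [hφθ, hφθ, hπθ])
    choose h hh using h2
    refine ⟨⟨fun j => h (P.symm j), P⟩, fun l z => ?_⟩
    change σ (φ l z) = φ (π l) (g (h (P.symm (P l))) z)
    rw [Equiv.symm_apply_apply]
    exact hh l z
  -- parity
  have hDne : (D₀ * D₁) ^ 4 ≠ 0 := pow_ne_zero 4 (mul_ne_zero hDD.ne hD₁)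
  have hcne : (algebraMap K N ((D₀ * D₁) ^ 4).leadingCoeff) ^ (p * d) ≠ 0 := by
    refine pow_ne_zero _ ((map_ne_zero_iff _ (algebraMap K N).injective).2 ?_)
    exact leadingCoeff_ne_zero.2 hDne
  have h2N : (2 : N) ≠ 0 := by
    intro h2
    have h3 : ((2 : ℕ) : N) = 0 := by exact_mod_cast h2
    rw [CharP.cast_eq_zero_iff N p] at h3
    exact hp2 ((Nat.prime_dvd_prime_iff_eq Fact.out Nat.prime_two).1 h3)
  have par : ∀ (σ : N ≃ₐ[K] N) (X : Wr G n), RelE g φ σ X → X ∈ AWr G n := by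
    intro σ X hX
    change Equiv.Perm.sign X.right = 1
    refine hPAR p N n d hn4 h2N x (fun l => aeval (x l) (D₀ * D₁)) (fun l => tZ Θ (x l) (θx l)) s
      ((algebraMap K N ((D₀ * D₁) ^ 4).leadingCoeff) ^ (p * d)) (algebraMap K N e) hx hcne hs0
      (fun l => ?_) (by rw [he, map_pow]) (fun l => ?_) σ.toRingEquiv X.right
      (fun l => hrelx σ X hX l) (fun l => ?_) ?_ ?_ ?_
    · have h1 := (hpt l).2.1
      rw [map_pow] at h1
      exact fun h => h1 (by rw [h, zero_pow (by norm_num)])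
    · have h1 := hder l
      rw [map_pow (aeval (x l))] at h1
      exact h1
    · change σ (aeval (x l) (D₀ * D₁)) = aeval (x (X.right l)) (D₀ * D₁)
      rw [← hrelx σ X hX]
      exact (aeval_algHom_apply (σ : N →ₐ[K] N) (x l) (D₀ * D₁)).symm
    · change σ s = s
      rw [hs, map_one]
    · change σ (_ ^ _) = _
      rw [map_pow, σ.commutes]
    · exact σ.commutes e
  -- the geometric group
  let H : Subgroup (Wr G n) :=
    { carrier := {X | ∃ τ : N ≃ₐ[K₀] N, (∀ v, τ (ν v) = ν v) ∧ RelE g φ τ X}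
      one_mem' := ⟨1, fun v => rfl, RelE.one⟩
      mul_mem' := by
        rintro X X' ⟨τ, h1, h2⟩ ⟨τ', h1', h2'⟩
        have h3 : RelE g φ (τ ∘ τ') (X * X') := RelE.mul h2 h2'
        exact ⟨τ * τ', fun v => by rw [AlgEquiv.mul_apply, h1', h1], h3⟩
      inv_mem' := by
        rintro X ⟨τ, h1, h2⟩
        refine ⟨τ.symm, fun v => ?_, RelE.inv (σ := τ.toEquiv) h2⟩
        rw [AlgEquiv.symm_apply_eq, h1] }
  have hHA : AWr G n ≤ H := by
    refine grw hMT G hG n r q hq hn hr hrq hc H fun a b ha hb h => ?_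
    let F : IntermediateField K N := (IsScalarTower.toAlgHom K K₀ N).fieldRange
    have hindF : ∀ a : Fin (r + 1) → Fin n, Function.Injective a →
        AlgebraicIndependent F (fun j => x (a j)) := by
      intro a ha
      have h1 := hind a ha
      let eF : K₀ ≃ₐ[K] F := AlgEquiv.ofInjectiveField (IsScalarTower.toAlgHom K K₀ N)
      exact h1.ringHom_of_comp_eq (eF : K₀ →+* F) (RingHom.id N) eF.surjective
        Function.injective_id (by ext c; rfl)
    obtain ⟨τ, hτ⟩ := hTUP K E N hreg hfin F (r + 1) (fun j => φ (a j))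
      (fun j => (φ (b j)).comp (((g (h j)).restrictScalars K : E ≃ₐ[K] E) : E →ₐ[K] E)) (by
        simp only [hφx]
        exact hindF a ha) (by
        have h1 : (fun j => ((φ (b j)).comp (((g (h j)).restrictScalars K : E ≃ₐ[K] E) :
            E →ₐ[K] E)) (algebraMap (RatFunc K) E RatFunc.X)) = fun j => x (b j) := by
          funext j
          exact hgX (h j) (b j)
        rw [h1]
        exact hindF b hb)
    have hτ' : ∀ j z, τ (φ (a j) z) = φ (b j) (g (h j) z) := hτ
    have hτx : ∀ j, τ (x (a j)) = x (b j) := by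
      intro j
      rw [← hφx (a j), hτ', hgX]
    have hτθ : ∀ j, τ (θx (a j)) = θx (b j) := by
      intro j
      rw [← hφθ (a j), hτ', hgfix]
    have hτK₀ : ∀ c : K₀, τ (algebraMap K₀ N c) = algebraMap K₀ N c := fun c =>
      τ.commutes (⟨algebraMap K₀ N c, ⟨c, rfl⟩⟩ : F)
    have hτs : τ s = s := by rw [hs, map_one]
    let σ : N ≃ₐ[K₀] N := AlgEquiv.ofRingEquiv (f := (τ : N ≃+* N)) hτK₀
    let σK : N ≃ₐ[K] N := σ.restrictScalars K
    have hσν : (fun i => (σK : N →ₐ[K] N) (ν i)) = ν := by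
      refine lin (p := p) (Θ := Θ) (D := (D₀ * D₁) ^ 4) (B := B) (s := s) (fun j => x (b j))
        (fun j => θx (b j)) (hx.comp hb) (fun j => ?_) (fun j => hpt (b j))
      have h1 := (hpt (a j)).map (σK : N →ₐ[K] N)
      have h2 : (σK : N →ₐ[K] N) s = s := hτs
      have h3 : (σK : N →ₐ[K] N) (x (a j)) = x (b j) := hτx j
      have h4 : (σK : N →ₐ[K] N) (θx (a j)) = θx (b j) := hτθ j
      rwa [h2, h3, h4] at h1
    have hση : ∀ v, σ (ν v) = ν v := fun i => congrFun hσν i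
    obtain ⟨X, hX⟩ := key σK hση
    have hXr : ∀ j, X.right (a j) = b j := by
      intro j
      apply hx
      rw [← hrelx _ X hX]
      exact hτx j
    refine ⟨X, ⟨σ, hση, hX⟩, fun j => ⟨hXr j, ?_⟩⟩
    have h1 := hX (a j) y
    rw [hXr j] at h1
    have h2 : σK (φ (a j) y) = φ (b j) (g (h j) y) := hτ' j y
    rw [h2] at h1
    exact (hvv (b j) h1).symm
  -- integrality
  have hνA : ∀ v, ν v ∈ Algebra.adjoin K (Set.range ν) := fun v =>
    Algebra.subset_adjoin ⟨v, rfl⟩
  have h1A : s ∈ Algebra.adjoin K (Set.range ν) := by rw [hs]; exact one_mem _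
  have hint := fun l => hINT p K N Θ D₀ D₁ ((D₀ * D₁) ^ 4) d B (r + 1) hDD hBB hD₁ rfl ν s _ _
    (hpt l) (Algebra.adjoin K (Set.range ν)) h1A hνA
  have hconst : ∀ c : K, IsIntegral (Algebra.adjoin K (Set.range ν)) (algebraMap K N c) :=
    fun c => isIntegral_algebraMap (R := Algebra.adjoin K (Set.range ν)) (A := N)
      (x := algebraMap K _ c)
  have hpolyint : ∀ (l : Fin n) (P : K[X]), IsIntegral (Algebra.adjoin K (Set.range ν))
      (aeval (x l) P) := by
    intro l P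
    rw [aeval_eq_sum_range]
    refine IsIntegral.sum _ fun i _ => ?_
    rw [Algebra.smul_def]
    exact (hconst _).mul ((hint l).1.pow _)
  have hφint : ∀ (l : Fin n) (ψ : E →ₐ[K] N), ψ (algebraMap (RatFunc K) E RatFunc.X) = x l →
      ∀ z : E, IsIntegral (Algebra.adjoin K {algebraMap (RatFunc K) E RatFunc.X}) z →
      IsIntegral (Algebra.adjoin K (Set.range ν)) (ψ z) := by
    intro l ψ hψ z hz
    obtain ⟨P, hP, hPz⟩ := hz
    -- the coefficients are polynomials in `x l`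
    have hmem : ∀ c ∈ Algebra.adjoin K {algebraMap (RatFunc K) E RatFunc.X},
        ψ c ∈ integralClosure (Algebra.adjoin K (Set.range ν)) N := by
      intro c hc
      rw [Algebra.adjoin_singleton_eq_range_aeval] at hc
      obtain ⟨Q, rfl⟩ := hc
      have h1 : ψ (aeval (algebraMap (RatFunc K) E RatFunc.X) Q) = aeval (x l) Q := by
        rw [← aeval_algHom_apply, hψ]
      change ψ (aeval (algebraMap (RatFunc K) E RatFunc.X) Q) ∈ _
      rw [h1]
      exact hpolyint l Q
    let f : Algebra.adjoin K {algebraMap (RatFunc K) E RatFunc.X} →+*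
        integralClosure (Algebra.adjoin K (Set.range ν)) N :=
      ((ψ : E →+* N).comp (algebraMap (Algebra.adjoin K {algebraMap (RatFunc K) E RatFunc.X})
        E)).codRestrict
        (integralClosure (Algebra.adjoin K (Set.range ν)) N).toSubring
        (fun c => hmem c c.2)
    have h2 : IsIntegral (integralClosure (Algebra.adjoin K (Set.range ν)) N) (ψ z) := by
      refine ⟨P.map f, hP.map _, ?_⟩
      rw [eval₂_map]
      have h3 := congrArg ψ hPz
      rw [map_zero] at h3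
      rw [← h3]
      exact (hom_eval₂ P (algebraMap (Algebra.adjoin K {algebraMap (RatFunc K) E RatFunc.X}) E)
        (ψ : E →+* N) z).symm
    exact isIntegral_trans (R := Algebra.adjoin K (Set.range ν)) (ψ z) h2
  -- conclusion
  refine ⟨x, vv, hx, hvv, fun σ hσ => ?_, fun X hX => ?_, fun l => (hint l).1,
    fun l j hlj => ?_, fun l h => ?_, fun l h h' hhh => ?_⟩
  · obtain ⟨X, hX⟩ := key σ hσ
    exact ⟨X, par σ X hX, fun l => ⟨hrelx σ X hX l, fun h => hrelv σ X hX l h⟩⟩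
  · obtain ⟨τ, hτ, hX'⟩ := hHA hX
    exact ⟨τ, hτ, fun l => ⟨hrelx τ X hX' l, fun h => hrelv τ X hX' l h⟩⟩
  · -- the inverse of a difference
    have hxj : x l - x j ≠ 0 := sub_ne_zero.2 fun h => hlj (hx h)
    have h1 := hder l
    have hjm : j ∈ Finset.univ.erase l := Finset.mem_erase.2 ⟨fun h => hlj h.symm, Finset.mem_univ _⟩
    rw [← Finset.mul_prod_erase _ _ hjm] at h1
    have hR0 : (aeval (x l) ((D₀ * D₁) ^ 4)) ^ p *
        (s * (aeval (x l) ((D₀ * D₁) ^ 4)) ^ p) ^ (d - 1) * (tZ Θ (x l) (θx l)) ^ p ≠ 0 := by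
      intro h0
      rw [h0, mul_eq_zero] at h1
      refine h1.elim hcne fun h2 => ?_
      refine (mul_eq_zero.1 h2).elim hxj fun h3 => ?_
      obtain ⟨i, hi, hi0⟩ := Finset.prod_eq_zero_iff.1 h3
      have h4 := Finset.mem_erase.1 (Finset.mem_erase.1 hi).2
      exact h4.1 (hx (sub_eq_zero.1 hi0)).symm
    have h2 : (x l - x j)⁻¹ = (algebraMap K N ((D₀ * D₁) ^ 4).leadingCoeff) ^ (p * d) *
        (∏ i ∈ (Finset.univ.erase l).erase j, (x l - x i)) *
        (((aeval (x l) ((D₀ * D₁) ^ 4))⁻¹) ^ p *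
        ((aeval (x l) ((D₀ * D₁) ^ 4))⁻¹ ^ p) ^ (d - 1) * ((tZ Θ (x l) (θx l))⁻¹) ^ p) := by
      have h3 : (((aeval (x l) ((D₀ * D₁) ^ 4))⁻¹) ^ p *
        ((aeval (x l) ((D₀ * D₁) ^ 4))⁻¹ ^ p) ^ (d - 1) * ((tZ Θ (x l) (θx l))⁻¹) ^ p) =
        ((aeval (x l) ((D₀ * D₁) ^ 4)) ^ p *
        (s * (aeval (x l) ((D₀ * D₁) ^ 4)) ^ p) ^ (d - 1) * (tZ Θ (x l) (θx l)) ^ p)⁻¹ := by
        rw [hs, one_mul]
        simp only [mul_inv, inv_pow]
      rw [h3, ← h1]
      rw [← h1] at hR0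
      have hPne := right_ne_zero_of_mul (right_ne_zero_of_mul hR0)
      have hcne' := left_ne_zero_of_mul hR0
      field_simp
    rw [h2]
    refine ((IsIntegral.pow (hconst _) _).mul (IsIntegral.prod _ fun i _ =>
      (hint l).1.sub (hint i).1)).mul ?_
    exact (((hint l).2.2.1.pow _).mul (((hint l).2.2.1.pow _).pow _)).mul ((hint l).2.2.2.2.pow _)
  · exact hφint l ((φ l).comp (((g h).restrictScalars K : E ≃ₐ[K] E) : E →ₐ[K] E)) (hgX h l) y hyi
  · have h1 : g (h'⁻¹ * h) ≠ 1 := by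
      intro h1
      rw [← map_one g] at h1
      exact hhh (inv_mul_eq_one.1 (hg h1)).symm
    have h2 := (hyD _ h1).2
    have h3 := hφint l ((φ l).comp (((g h').restrictScalars K : E ≃ₐ[K] E) : E →ₐ[K] E))
      (hgX h' l) _ h2
    have h4 : ((φ l).comp (((g h').restrictScalars K : E ≃ₐ[K] E) : E →ₐ[K] E))
        (aeval (algebraMap (RatFunc K) E RatFunc.X) D₁ / (g (h'⁻¹ * h) y - y)) =
        aeval (x l) D₁ * (vv l h - vv l h')⁻¹ := by
      rw [map_div₀, map_sub, ← aeval_algHom_apply]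
      have h5 : ((φ l).comp (((g h').restrictScalars K : E ≃ₐ[K] E) : E →ₐ[K] E))
          (algebraMap (RatFunc K) E RatFunc.X) = x l := hgX h' l
      have h6 : ((φ l).comp (((g h').restrictScalars K : E ≃ₐ[K] E) : E →ₐ[K] E))
          (g (h'⁻¹ * h) y) = vv l h := by
        change φ l (g h' (g (h'⁻¹ * h) y)) = φ l (g h y)
        rw [← AlgEquiv.mul_apply, ← map_mul, mul_inv_cancel_left]
      rw [h5, h6, div_eq_mul_inv]
      rfl
    rw [h4] at h3
    have hD1 : aeval (x l) D₁ ≠ 0 := by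
      intro h0
      apply (hpt l).2.1
      rw [map_pow, map_mul, h0, mul_zero, zero_pow (by norm_num)]
    have hD0 : aeval (x l) D₀ ≠ 0 := by
      intro h0
      apply (hpt l).2.1
      rw [map_pow, map_mul, h0, zero_mul, zero_pow (by norm_num)]
    have h7 : (vv l h - vv l h')⁻¹ = aeval (x l) (D₀ ^ 4 * D₁ ^ 3) *
        (aeval (x l) ((D₀ * D₁) ^ 4))⁻¹ * (aeval (x l) D₁ * (vv l h - vv l h')⁻¹) := by
      simp only [map_mul, map_pow]
      field_simp
    rw [h7]
    exact ((hpolyint l _).mul (hint l).2.2.1).mul h3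

end Pool.Agent.Y140.AW
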