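import Mathlib
import Pool.Agent.Y140.AW.Core
import Pool.Agent.W200.IG.GeoB

/-!
The main theorem from its pieces (project AW, owner helper140).
-/

set_option autoImplicit false

namespace Pool.Agent.Y140.AW

open Polynomial Pool.Agent.H391R2 Pool.Agent.H391R2.T4 Pool.Agent.Y793

theorem main_of (hMT : St_mt) (hPTS : St_pts) (hINT : St_int)
    (hPL : St_place) (hUNI : St_uni) (hPAR : St_par) (hTUP : St_tuple) (hIND : St_indep)
    (hLIFT : St_lift) (hARI : St_arith) (hDATA : St_data) : St_main := by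
  intro p hp hp2 K _ _ _ Γ G _ _ _ _ f hf hR hG n₀
  obtain ⟨E, _, _, _, _, _, _, g, θ, Θ, D₀, hreg, hg, hθ, hΘ, hDD⟩ := hDATA K Γ G f hf hR
  obtain ⟨d, hd⟩ : ∃ d, d = Θ.natDegree := ⟨_, rfl⟩
  rw [← hd] at hDD
  have hp0 : 0 < p := hp.out.pos
  have hd0 := hDD.pos
  obtain ⟨M, hM⟩ : ∃ M, M = 4 * d * p := ⟨_, rfl⟩
  have hMp : 0 < M := by rw [hM]; positivity
  obtain ⟨L, hL⟩ : ∃ L : ℕ, ∀ k, (Θ.coeff k).natDegree ≤ L := by
    refine ⟨(Finset.range (d + 1)).sup fun k => (Θ.coeff k).natDegree, fun k => ?_⟩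
    by_cases hk : k ≤ d
    · exact Finset.le_sup (f := fun k => (Θ.coeff k).natDegree)
        (Finset.mem_range.2 (Nat.lt_succ_of_le hk))
    · rw [coeff_eq_zero_of_natDegree_lt (by omega), natDegree_zero]
      exact Nat.zero_le _
  obtain ⟨r, hr⟩ : ∃ r, r = M + 1 := ⟨_, rfl⟩
  obtain ⟨T, hT⟩ : ∃ T, T = D₀.natDegree + L + r + 3 := ⟨_, rfl⟩
  obtain ⟨q, hq1, hq, k', hk'⟩ := exists_q M (n₀ + M * T + r + 2 * (Nat.card G) ^ 2 + 2) hMp
  have hM4 : 4 ≤ M := by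
    rw [hM, mul_assoc]
    nlinarith [Nat.mul_pos hd0 hp0]
  have hk : T < k' + 1 := by
    by_contra h
    have h1 : M * (k' + 1) ≤ M * T := Nat.mul_le_mul_left M (by omega)
    rw [mul_add, ← hk', mul_one] at h1
    omega
  obtain ⟨n, hn⟩ : ∃ n, n = q + r := ⟨_, rfl⟩
  have hnM : n = M * (k' + 1) := by rw [hn, hr, mul_add, ← hk']; ring
  obtain ⟨B, hB⟩ : ∃ B, B = 4 * (k' + 1 - D₀.natDegree) := ⟨_, rfl⟩
  have hBδ : B + (D₀ ^ 4).natDegree = 4 * (k' + 1) := by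
    rw [natDegree_pow, hB]
    omega
  have hnd : n = d * (p * (B + (D₀ ^ 4).natDegree)) := by
    rw [hBδ, hnM, hM]
    ring
  have hc : 2 * (Nat.card G) ^ 2 < (n - 2).factorial :=
    lt_of_lt_of_le (by omega) (Nat.self_le_factorial _)
  let K₀ := AlgebraicClosure K
  let V := Option (Fin (r + 1))
  let F₁ := FractionRing (MvPolynomial V K₀)
  let N := AlgebraicClosure F₁
  have hT1 : IsScalarTower K K₀ N := inferInstance
  let η : V → N := fun v : V => algebraMap F₁ N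
    (algebraMap (MvPolynomial V K₀) F₁ (MvPolynomial.X v))
  have hη : IsTranscendenceBasis K₀ η := Pool.Agent.W200.IG.basis_vars
  refine ⟨n, by omega, core p hp2 hMT hPTS hINT hPL hUNI hPAR hTUP hIND hLIFT hARI K K₀ E N G hG
    hreg g hg θ Θ hθ hΘ D₀ d hDD B r q ⟨by omega, by omega, fun k => ?_⟩ ?_ n hnd ?_ hq hn
    (by omega) (by omega) hc η hη⟩
  · have := hL k
    omega
  · rw [hB]
    exact ⟨2 * (k' + 1 - D₀.natDegree), by ring⟩
  · rw [hnM, hM]
    exact ⟨d * p * (k' + 1), by ring⟩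

end Pool.Agent.Y140.AW
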