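import Mathlib
import Pool.Agent.Y140.AW.Core3
import Pool.Agent.Y140.AW.Main2
import Pool.Agent.W200.IG.GeoB

/-!
The third main theorem from its pieces (project AW, owner helper140).
-/

set_option autoImplicit false

namespace Pool.Agent.Y140.AW

open Polynomial Pool.Agent.H391R2 Pool.Agent.H391R2.T4 Pool.Agent.Y793

/-- The third main theorem of the project. -/
def St_main3 : Prop :=
  ∀ (p : ℕ) [Fact p.Prime], p ≠ 2 → ∀ (κ : Type) [Field κ] [CharP κ p] [Finite κ]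
    (Γ G : Type) [Group Γ] [Finite Γ] [Group G] [Finite G] (f : G →* Γ), Function.Injective f →
    RegSol κ κ Γ 1 → commutator G = ⊤ → ∀ n₀ : ℕ, ∃ n ≥ n₀, ∀ (κ' : Type) [Field κ'] [Finite κ']
      [Algebra κ κ'], UnrAff κ (AWr G n × (κ' ≃ₐ[κ] κ'))

theorem main3_of (hMT : St_mt) (hPTS : St_pts2)
    (hINT : St_int2) (hSQ : St_sq) (hPAR : St_par) (hTUP : St_tuple2) (hIND : St_indep2)
    (hLIFT : St_lift) (hARI : St_arith3) (hDATA : St_data2) : St_main3 := by
  intro p hp hp2 K _ _ _ Γ G _ _ _ _ f hf hR hG n₀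
  obtain ⟨E, _, _, _, _, _, _, g, θ, Θ, D₀, D₁, y, hreg, hg, hθ, hΘ, hDD, hD₁, hyi, hyD⟩ :=
    hDATA K Γ G f hf hR
  obtain ⟨d, hd⟩ : ∃ d, d = Θ.natDegree := ⟨_, rfl⟩
  rw [← hd] at hDD
  have hp0 : 0 < p := hp.out.pos
  have hd0 := hDD.pos
  obtain ⟨M, hM⟩ : ∃ M, M = 4 * d * p := ⟨_, rfl⟩
  have hMp : 0 < M := by rw [hM]; positivity
  obtain ⟨L, hL⟩ : ∃ L : ℕ, ∀ k, (Θ.coeff k).natDegree ≤ L := by
    refine ⟨(Finset.range (d + 1)).sup fun k => (Θ.coeff k).natDegree, fun k => ?_⟩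
    by_cases hk : k ≤ d
    · exact Finset.le_sup (f := fun k => (Θ.coeff k).natDegree)
        (Finset.mem_range.2 (Nat.lt_succ_of_le hk))
    · rw [coeff_eq_zero_of_natDegree_lt (by omega), natDegree_zero]
      exact Nat.zero_le _
  obtain ⟨r, hr⟩ : ∃ r, r = M + 1 := ⟨_, rfl⟩
  obtain ⟨T, hT⟩ : ∃ T, T = (D₀ * D₁).natDegree + L + r + 3 := ⟨_, rfl⟩
  obtain ⟨q, hq1, hq, k', hk'⟩ := exists_q M (n₀ + M * T + r + 2 * (Nat.card G) ^ 2 + 2) hMp
  have hM4 : 4 ≤ M := by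
    rw [hM, mul_assoc]
    nlinarith [Nat.mul_pos hd0 hp0]
  have hk : T < k' + 1 := by
    by_contra h
    have h1 : M * (k' + 1) ≤ M * T := Nat.mul_le_mul_left M (by omega)
    rw [mul_add, ← hk', mul_one] at h1
    omega
  obtain ⟨n, hn⟩ : ∃ n, n = q + r := ⟨_, rfl⟩
  have hnM : n = M * (k' + 1) := by rw [hn, hr, mul_add, ← hk']; ring
  obtain ⟨B, hB⟩ : ∃ B, B = 4 * (k' + 1 - (D₀ * D₁).natDegree) := ⟨_, rfl⟩
  have hBδ : B + ((D₀ * D₁) ^ 4).natDegree = 4 * (k' + 1) := by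
    rw [natDegree_pow, hB]
    omega
  have hnd : n = d * (p * (B + ((D₀ * D₁) ^ 4).natDegree)) := by
    rw [hBδ, hnM, hM]
    ring
  have hc : 2 * (Nat.card G) ^ 2 < (n - 2).factorial :=
    lt_of_lt_of_le (by omega) (Nat.self_le_factorial _)
  let K₁ := RatFunc K
  let K₀ := AlgebraicClosure K₁
  let V := Fin (r + 1)
  let F₁ := FractionRing (MvPolynomial V K₀)
  let N := AlgebraicClosure F₁
  have hT1 : IsScalarTower K₁ K₀ N := inferInstance
  have hT2 : IsScalarTower K K₁ N := inferInstance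
  have hT3 : IsScalarTower K K₀ N := inferInstance
  let η : V → N := fun v : V => algebraMap F₁ N
    (algebraMap (MvPolynomial V K₀) F₁ (MvPolynomial.X v))
  have hη : IsTranscendenceBasis K₀ η := Pool.Agent.W200.IG.basis_vars
  have ht : IsTranscendenceBasis K (fun _ : Unit => (RatFunc.X : K₁)) := by
    have h1 : AlgebraicIndependent K (fun _ : Unit => (RatFunc.X : K₁)) :=
      (algebraicIndependent_unique_type_iff (ι := Unit)).2 (RatFunc.transcendental_X (K := K))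
    rw [h1.isTranscendenceBasis_iff_isAlgebraic]
    have h2 : ∀ q : K[X], algebraMap K[X] (RatFunc K) q ∈
        Algebra.adjoin K (Set.range (fun _ : Unit => (RatFunc.X : K₁))) := by
      intro q
      have h3 : algebraMap K[X] (RatFunc K) q = aeval (RatFunc.X : K₁) q := by
        rw [← RatFunc.algebraMap_X, aeval_algebraMap_apply, aeval_X_left_apply]
      rw [h3]
      exact aeval_mem_adjoin_singleton K _ |> fun h => by
        rw [Set.range_const]
        exact h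
    refine ⟨fun z => ?_⟩
    rw [← RatFunc.num_div_denom z]
    have h4 : ∀ q : K[X], IsAlgebraic (Algebra.adjoin K
        (Set.range (fun _ : Unit => (RatFunc.X : K₁)))) (algebraMap K[X] (RatFunc K) q) := fun q =>
      isAlgebraic_algebraMap (R := Algebra.adjoin K
        (Set.range (fun _ : Unit => (RatFunc.X : K₁)))) (⟨_, h2 q⟩ : Algebra.adjoin K
        (Set.range (fun _ : Unit => (RatFunc.X : K₁))))
    rw [div_eq_mul_inv]
    exact (h4 _).mul (h4 _).inv
  have hfin := fin_basis (K := K) (K₁ := K₁) (K₀ := K₀) (N := N) η hη _ ht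
  refine ⟨n, by omega, core3 p hp2 hMT hPTS hINT hSQ hPAR hTUP hIND hLIFT hARI K K₀ E N G hG
    hreg g hg θ Θ hθ hΘ D₀ D₁ hD₁ y hyi hyD d hDD B r q ⟨by omega, by omega, fun k => ?_⟩ ?_ n hnd
    ?_ hq hn (by omega) (by omega) hc η hη hfin⟩
  · have := hL k
    omega
  · rw [hB]
    exact ⟨2 * (k' + 1 - (D₀ * D₁).natDegree), by ring⟩
  · rw [hnM, hM]
    exact ⟨d * p * (k' + 1), by ring⟩

end Pool.Agent.Y140.AW
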