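import Mathlib
import Pool.Agent.Y140.AW.Core4
import Pool.Agent.Y140.AW.Main2
import Pool.Agent.W200.IG.GeoB

/-!
The families from their pieces (project AW, owner helper140).
-/

set_option autoImplicit false

namespace Pool.Agent.Y140.AW

open Polynomial Pool.Agent.H391R2 Pool.Agent.H391R2.T4 Pool.Agent.Y793

/-- There are families with parameters in `V`, for all fields. -/
def St_fam (κ G V : Type) [Field κ] [Group G] (n : ℕ) : Prop :=
  ∀ (K₀ N : Type) [Field K₀] [IsAlgClosed K₀] [Field N] [IsAlgClosed N] [Algebra K₀ N] [Algebra κ N]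
    [Algebra κ K₀] [IsScalarTower κ K₀ N] (ν : V → N), IsTranscendenceBasis K₀ ν →
    (∃ (ι : Type) (_ : Finite ι) (η : ι → N), IsTranscendenceBasis κ η) →
    ∃ (x : Fin n → N) (vv : Fin n → G → N), Fam κ K₀ ν x vv

/-- The main theorem on families. -/
def St_main4 : Prop :=
  ∀ (p : ℕ) [Fact p.Prime], p ≠ 2 → ∀ (κ : Type) [Field κ] [CharP κ p] [Finite κ]
    (Γ G : Type) [Group Γ] [Finite Γ] [Group G] [Finite G] (f : G →* Γ), Function.Injective f →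
    RegSol κ κ Γ 1 → commutator G = ⊤ → ∀ n₀ : ℕ, ∃ n ≥ n₀, ∃ (V : Type) (_ : Finite V),
      St_fam κ G V n

theorem main4_of (hMT : St_mt) (hPTS : St_pts2)
    (hINT : St_int2) (hSQ : St_sq) (hPAR : St_par) (hTUP : St_tuple2) (hIND : St_indep2)
    (hLIFT : St_lift) (hDATA : St_data2) : St_main4 := by
  intro p hp hp2 K _ _ _ Γ G _ _ _ _ f hf hR hG n₀
  obtain ⟨E, _, _, _, _, _, _, g, θ, Θ, D₀, D₁, y, hreg, hg, hθ, hΘ, hDD, hD₁, hyi, hyD⟩ :=
    hDATA K Γ G f hf hR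
  obtain ⟨d, hd⟩ : ∃ d, d = Θ.natDegree := ⟨_, rfl⟩
  rw [← hd] at hDD
  have hp0 : 0 < p := hp.out.pos
  have hd0 := hDD.pos
  obtain ⟨M, hM⟩ : ∃ M, M = 4 * d * p := ⟨_, rfl⟩
  have hMp : 0 < M := by rw [hM]; positivity
  obtain ⟨L, hL⟩ : ∃ L : ℕ, ∀ k, (Θ.coeff k).natDegree ≤ L := by
    refine ⟨(Finset.range (d + 1)).sup fun k => (Θ.coeff k).natDegree, fun k => ?_⟩
    by_cases hk : k ≤ d
    · exact Finset.le_sup (f := fun k => (Θ.coeff k).natDegree)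
        (Finset.mem_range.2 (Nat.lt_succ_of_le hk))
    · rw [coeff_eq_zero_of_natDegree_lt (by omega), natDegree_zero]
      exact Nat.zero_le _
  obtain ⟨r, hr⟩ : ∃ r, r = M + 1 := ⟨_, rfl⟩
  obtain ⟨T, hT⟩ : ∃ T, T = (D₀ * D₁).natDegree + L + r + 3 := ⟨_, rfl⟩
  obtain ⟨q, hq1, hq, k', hk'⟩ := exists_q M (n₀ + M * T + r + 2 * (Nat.card G) ^ 2 + 2) hMp
  have hM4 : 4 ≤ M := by
    rw [hM, mul_assoc]
    nlinarith [Nat.mul_pos hd0 hp0]
  have hk : T < k' + 1 := by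
    by_contra h
    have h1 : M * (k' + 1) ≤ M * T := Nat.mul_le_mul_left M (by omega)
    rw [mul_add, ← hk', mul_one] at h1
    omega
  obtain ⟨n, hn⟩ : ∃ n, n = q + r := ⟨_, rfl⟩
  have hnM : n = M * (k' + 1) := by rw [hn, hr, mul_add, ← hk']; ring
  obtain ⟨B, hB⟩ : ∃ B, B = 4 * (k' + 1 - (D₀ * D₁).natDegree) := ⟨_, rfl⟩
  have hBδ : B + ((D₀ * D₁) ^ 4).natDegree = 4 * (k' + 1) := by
    rw [natDegree_pow, hB]
    omega
  have hnd : n = d * (p * (B + ((D₀ * D₁) ^ 4).natDegree)) := by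
    rw [hBδ, hnM, hM]
    ring
  have hc : 2 * (Nat.card G) ^ 2 < (n - 2).factorial :=
    lt_of_lt_of_le (by omega) (Nat.self_le_factorial _)
  refine ⟨n, by omega, Fin (r + 1), inferInstance, ?_⟩
  intro K₀ N _ _ _ _ _ _ _ _ ν hη hfin
  refine core4 p hp2 hMT hPTS hINT hSQ hPAR hTUP hIND hLIFT K K₀ E N G hG
    hreg g hg θ Θ hθ hΘ D₀ D₁ hD₁ y hyi hyD d hDD B r q ⟨by omega, by omega, fun k => ?_⟩ ?_ n hnd
    ?_ hq hn (by omega) (by omega) hc ν hη hfin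
  · have := hL k
    omega
  · rw [hB]
    exact ⟨2 * (k' + 1 - (D₀ * D₁).natDegree), by ring⟩
  · rw [hnM, hM]
    exact ⟨d * p * (k' + 1), by ring⟩

end Pool.Agent.Y140.AW
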