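import Mathlib
import Pool.Agent.Y140.AW.Core4
import Pool.Agent.Y140.AW.Abs3
import Pool.Agent.TH15.IGP.WrA

/-!
Wreath products over étale covers of the affine line: auxiliary lemmas (project AW, owner
helper140).
-/

set_option autoImplicit false

namespace Pool.Agent.Y140.AW

open Pool.Agent.W200.IJ (desc desc_iff desc_inv desc_basis exists_dual exists_semi_auto basis_down)
open Pool.Agent.W200.IH (alg_mono alg_of_alg basis_of_card basis_over)
open Pool.Agent.H391R2 Pool.Agent.H391R2.T4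

set_option linter.unusedSectionVars false

section ev

variable {Γ Ω V N : Type} [Group Γ] [Fintype Γ] [MulAction Γ Ω] [Field N]

/-- The parameters attached to a point of `Ω`. -/
noncomputable def ev (Z : Unit ⊕ (Γ × (Ω × V)) → N) (w : Ω) (v : V) : N :=
  ∑ γ : Γ, Z (Sum.inr (γ, (γ⁻¹ • w, v)))

theorem ev_move (Z : Unit ⊕ (Γ × (Ω × V)) → N) (σ : N →+* N) (ρ : Γ)
    (hσ : ∀ γ j, σ (Z (Sum.inr (γ, j))) = Z (Sum.inr (ρ * γ, j))) (w : Ω) (v : V) :
    σ (ev Z w v) = ev Z (ρ • w) v := by
  unfold ev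
  rw [map_sum]
  refine Fintype.sum_bijective (fun γ => ρ * γ) (Group.mulLeft_bijective ρ) _ _ fun γ => ?_
  rw [hσ]
  have h1 : (ρ * γ)⁻¹ • ρ • w = γ⁻¹ • w := by
    rw [mul_inv_rev, mul_smul, inv_smul_smul]
  rw [h1]

theorem ev_split [DecidableEq Γ] (Z : Unit ⊕ (Γ × (Ω × V)) → N) (w : Ω) (v : V) :
    ev Z w v = Z (Sum.inr (1, (w, v))) +
      ∑ γ ∈ Finset.univ.erase (1 : Γ), Z (Sum.inr (γ, (γ⁻¹ • w, v))) := by
  unfold ev
  rw [← Finset.add_sum_erase _ _ (Finset.mem_univ (1 : Γ)), inv_one, one_smul]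

end ev

section dw

variable {Γ Ω V K N : Type} [Group Γ] [Fintype Γ] [MulAction Γ Ω] [Finite Ω] [Finite V] [Field K]
  [Field N] [Algebra K N] [IsAlgClosed N]

/-- A field of constants over which only the parameters at `w` are transcendental. -/
theorem exists_D' (Z : Unit ⊕ (Γ × (Ω × V)) → N) (hZ : IsTranscendenceBasis K Z) (w : Ω) :
    ∃ (D : Type) (_ : Field D) (_ : IsAlgClosed D) (_ : Algebra K D) (_ : Algebra D N)
      (_ : IsScalarTower K D N), IsTranscendenceBasis D (ev Z w) ∧
      ∀ u, (∀ v : V, u ≠ Sum.inr (1, (w, v))) → Z u ∈ Set.range (algebraMap D N) := by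
  classical
  let P : Unit ⊕ (Γ × (Ω × V)) → Prop := fun u => ∀ v : V, u ≠ Sum.inr (1, (w, v))
  let x' : {u // P u} → N := fun u => Z u
  let w' : {u // ¬ P u} → N := fun u => Z u
  let e : ({u // P u} ⊕ {u // ¬ P u}) ≃ (Unit ⊕ (Γ × (Ω × V))) := Equiv.sumCompl _
  have he : Z ∘ e = Sum.elim x' w' := by
    funext v
    rcases v with a | a
    · rfl
    · rfl
  have h1 : IsTranscendenceBasis K (Sum.elim x' w') := by
    rw [← he]
    exact (isTranscendenceBasis_equiv e).2 hZ
  have h2 := basis_over x' w' h1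
  let F₀ := IntermediateField.adjoin K (Set.range x')
  let D := algebraicClosure F₀ N
  have hD : IsAlgClosed D := (algebraicClosure.isAlgClosure F₀ N).isAlgClosed
  have hmem : ∀ u, P u → Z u ∈ Set.range (algebraMap D N) := by
    intro u hu
    have h3 : Z u ∈ F₀ := IntermediateField.subset_adjoin _ _ ⟨⟨u, hu⟩, rfl⟩
    exact ⟨algebraMap F₀ D ⟨Z u, h3⟩, rfl⟩
  have hne : ∀ (γ : Γ) (v : V), γ ≠ 1 → P (Sum.inr (γ, (γ⁻¹ • w, v))) := by
    intro γ v hγ v' h
    exact hγ (congrArg Prod.fst (Sum.inr_injective h))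
  let aKD : Algebra K D := ((algebraMap F₀ D).comp (algebraMap K F₀)).toAlgebra
  have tKD : IsScalarTower K D N := IsScalarTower.of_algebraMap_eq fun x => rfl
  refine ⟨D, inferInstance, hD, aKD, inferInstance, tKD, ?_, hmem⟩
  have hind : AlgebraicIndependent D w' := h2.1.extendScalars D
  have hP : ∀ v : V, ¬ P (Sum.inr (1, (w, v))) := fun v h => h v rfl
  have hcard : Nat.card V ≤ Nat.card {u // ¬ P u} := by
    refine Nat.card_le_card_of_injective
      (fun v : V => (⟨Sum.inr (1, (w, v)), hP v⟩ : {u // ¬ P u})) ?_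
    intro v v' h
    have h3 := Sum.inr_injective (congrArg Subtype.val h)
    exact congrArg (fun z : Γ × (Ω × V) => z.2.2) h3
  refine basis_of_card hcard w' hind _ ?_
  have h3 : IntermediateField.adjoin F₀ (Set.range w') ≤
      IntermediateField.restrictScalars F₀
        (IntermediateField.adjoin D (Set.range (ev Z w))) := by
    rw [IntermediateField.adjoin_le_iff]
    rintro _ ⟨⟨u, hu⟩, rfl⟩
    obtain ⟨v, hv⟩ : ∃ v : V, u = Sum.inr (1, (w, v)) := by
      by_contra h
      push Not at h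
      exact hu h
    subst hv
    change Z _ ∈ IntermediateField.adjoin D (Set.range (ev Z w))
    have h4 : Z (Sum.inr (1, (w, v))) = ev Z w v -
        ∑ γ ∈ Finset.univ.erase (1 : Γ), Z (Sum.inr (γ, (γ⁻¹ • w, v))) := by
      rw [ev_split, add_sub_cancel_right]
    rw [h4]
    refine sub_mem (IntermediateField.subset_adjoin _ _ ⟨v, rfl⟩) (sum_mem fun γ hγ => ?_)
    obtain ⟨d, hd⟩ := hmem _ (hne γ v (Finset.ne_of_mem_erase hγ))
    rw [← hd]
    exact IntermediateField.algebraMap_mem _ _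
  have h5 : Algebra.IsAlgebraic (IntermediateField.restrictScalars F₀
      (IntermediateField.adjoin D (Set.range (ev Z w)))) N :=
    alg_mono h3 h2.isAlgebraic_field
  exact h5

end dw

section int

/-- Transitivity of integrality. -/
theorem int_trans {κ N V R : Type} [Field κ] [Field N] [Algebra κ N] [CommRing R] [Algebra R N]
    (hκ : ∀ c : κ, IsIntegral R (algebraMap κ N c)) (ν : V → N) (hν : ∀ v, IsIntegral R (ν v))
    (z : N) (hz : IsIntegral (Algebra.adjoin κ (Set.range ν)) z) : IsIntegral R z := by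
  have hmem : ∀ c ∈ Algebra.adjoin κ (Set.range ν), c ∈ integralClosure R N := by
    intro c hc
    induction hc using Algebra.adjoin_induction with
    | mem x hx =>
      obtain ⟨v, rfl⟩ := hx
      exact hν v
    | algebraMap c => exact hκ c
    | add x y hx hy h1 h2 => exact add_mem h1 h2
    | mul x y hx hy h1 h2 => exact mul_mem h1 h2
  obtain ⟨P, hP, hPz⟩ := hz
  let f : Algebra.adjoin κ (Set.range ν) →+* integralClosure R N :=
    (algebraMap (Algebra.adjoin κ (Set.range ν)) N).codRestrict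
      (integralClosure R N).toSubring (fun c => hmem c c.2)
  have h2 : IsIntegral (integralClosure R N) z := by
    refine ⟨P.map f, hP.map _, ?_⟩
    rw [Polynomial.eval₂_map]
    exact hPz
  exact isIntegral_trans (R := R) z h2

/-- Integrality is transported by homomorphisms. -/
theorem int_map {κ N V : Type} [Field κ] [Field N] [Algebra κ N] (σ : N →ₐ[κ] N) (ν ν' : V → N)
    (h : ∀ v, σ (ν v) = ν' v) (z : N) (hz : IsIntegral (Algebra.adjoin κ (Set.range ν)) z) :
    IsIntegral (Algebra.adjoin κ (Set.range ν')) (σ z) := by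
  have hmem : ∀ c ∈ Algebra.adjoin κ (Set.range ν), σ c ∈ Algebra.adjoin κ (Set.range ν') := by
    intro c hc
    induction hc using Algebra.adjoin_induction with
    | mem x hx =>
      obtain ⟨v, rfl⟩ := hx
      rw [h]
      exact Algebra.subset_adjoin ⟨v, rfl⟩
    | algebraMap c =>
      rw [AlgHom.commutes]
      exact Subalgebra.algebraMap_mem _ c
    | add x y hx hy h1 h2 =>
      rw [map_add]
      exact add_mem h1 h2
    | mul x y hx hy h1 h2 =>
      rw [map_mul]
      exact mul_mem h1 h2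
  obtain ⟨P, hP, hPz⟩ := hz
  let f : Algebra.adjoin κ (Set.range ν) →+* Algebra.adjoin κ (Set.range ν') :=
    ((σ : N →+* N).comp (algebraMap (Algebra.adjoin κ (Set.range ν)) N)).codRestrict
      (Algebra.adjoin κ (Set.range ν')).toSubring (fun c => hmem c c.2)
  refine ⟨P.map f, hP.map _, ?_⟩
  rw [Polynomial.eval₂_map]
  have h3 := congrArg σ hPz
  rw [map_zero] at h3
  rw [← h3]
  exact (Polynomial.hom_eval₂ P (algebraMap (Algebra.adjoin κ (Set.range ν)) N)
    (σ : N →+* N) z).symm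

end int

section dual

open Polynomial

/-- Dual bases, one of them integral. -/
theorem exists_dual_int (κ L : Type) [Field κ] [Field L] [Algebra (RatFunc κ) L] [Algebra κ[X] L]
    [IsScalarTower κ[X] (RatFunc κ) L] [FiniteDimensional (RatFunc κ) L] [IsGalois (RatFunc κ) L]
    [Fintype (L ≃ₐ[RatFunc κ] L)] [DecidableEq (L ≃ₐ[RatFunc κ] L)] :
    ∃ ω ω' : (L ≃ₐ[RatFunc κ] L) → L, (∀ γ γ' : L ≃ₐ[RatFunc κ] L,
      ∑ i, γ (ω i) * γ' (ω' i) = if γ = γ' then 1 else 0) ∧ ∀ i, IsIntegral κ[X] (ω' i) := by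
  have _ : DecidableEq L := Classical.decEq L
  obtain ⟨ω, ω', hω⟩ := exists_dual (RatFunc κ) L
  obtain ⟨y, hy, hy2⟩ := exists_integral_multiples κ[X] (RatFunc κ) (L := L)
    (Finset.univ.image ω')
  let c : RatFunc κ := algebraMap κ[X] (RatFunc κ) y
  have hc : c ≠ 0 := fun h => hy (IsFractionRing.injective κ[X] (RatFunc κ) (by
    rw [map_zero]
    exact h))
  refine ⟨fun i => c⁻¹ • ω i, fun i => c • ω' i, fun γ γ' => ?_, fun i => ?_⟩
  · rw [← hω γ γ']
    refine Finset.sum_congr rfl fun i _ => ?_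
    rw [map_smul, map_smul, smul_mul_smul_comm, inv_mul_cancel₀ hc, one_smul]
  · have h1 := hy2 (ω' i) (Finset.mem_image_of_mem _ (Finset.mem_univ _))
    have h2 : c • ω' i = y • ω' i := by
      rw [Algebra.smul_def, Algebra.smul_def, IsScalarTower.algebraMap_apply κ[X] (RatFunc κ) L]
    change IsIntegral κ[X] (c • ω' i)
    rw [h2]
    exact h1

end dual

section rl

open Pool.Agent.Y793

variable {N G : Type} [Group G] {n : ℕ}

theorem Rl.comp {x y z : Fin n → N} {vx vy vz : Fin n → G → N} {σ τ : N → N} {X Y : Wr G n}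
    (h1 : Rl x y vx vy σ X) (h2 : Rl y z vy vz τ Y) : Rl x z vx vz (τ ∘ σ) (Y * X) := by
  refine fun i => ⟨?_, fun g => ?_⟩
  · change τ (σ (x i)) = _
    rw [(h1 i).1, (h2 _).1]
    rfl
  · change τ (σ (vx i g)) = _
    rw [(h1 i).2, (h2 _).2, wr_mul_right, wr_mul_left]
    change _ = vz (Y.right (X.right i)) (Y.left (Y.right (X.right i)) *
      X.left (Y.right⁻¹ (Y.right (X.right i))) * g)
    have h1 : Y.right⁻¹ (Y.right (X.right i)) = X.right i := by simp
    rw [h1, mul_assoc]

theorem Rl.uniq {x y : Fin n → N} {vx vy : Fin n → G → N} {σ : N → N} {X Y : Wr G n}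
    (hy : Function.Injective y) (hvy : ∀ i, Function.Injective (vy i))
    (h1 : Rl x y vx vy σ X) (h2 : Rl x y vx vy σ Y) : X = Y := by
  have h3 : X.right = Y.right := by
    apply Equiv.ext
    intro i
    apply hy
    rw [← (h1 i).1, (h2 i).1]
  apply SemidirectProduct.ext _ h3
  funext j
  obtain ⟨i, rfl⟩ := X.right.surjective j
  have h4 := (h1 i).2 1
  have h5 := (h2 i).2 1
  rw [h4, mul_one, mul_one, ← h3] at h5
  exact hvy _ h5

end rl

end Pool.Agent.Y140.AW
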