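import Mathlib
import Pool.Agent.Y140.AW.Tw2
import Pool.Agent.Y140.AW.Abs4
import Pool.Agent.Y140.AW.Main4
import Pool.Agent.Y140.AW.Ari2

/-!
Embedding problems over the affine line: the assembly (project AW, owner helper140).
-/

set_option autoImplicit false

namespace Pool.Agent.Y140.AW

open MvPolynomial
open Pool.Agent.W200.IJ (desc desc_iff desc_inv desc_basis exists_dual exists_semi_auto basis_down
  finite_descent2)
open Pool.Agent.W200.IH (alg_mono alg_of_alg basis_of_card basis_over)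
open Pool.Agent.H391R2 Pool.Agent.H391R2.T4 Pool.Agent.Y793 Pool.Agent.W200.IJ

set_option linter.unusedSectionVars false

section

variable {κ K₀ N G V Ω L : Type} [Field κ] [Finite κ] [Field K₀] [Algebra (RatFunc κ) K₀]
  [IsAlgClosed K₀] [Algebra.IsAlgebraic (RatFunc κ) K₀] [Field N] [IsAlgClosed N] [Algebra K₀ N]
  [Algebra (RatFunc κ) N] [IsScalarTower (RatFunc κ) K₀ N] [Algebra κ N]
  [IsScalarTower κ (RatFunc κ) N] [Algebra κ K₀] [IsScalarTower κ K₀ N] [Group G] [Finite G]
  [Finite V] [Finite Ω] [Field L] [Algebra (RatFunc κ) L] [Algebra (Polynomial κ) L]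
  [IsScalarTower (Polynomial κ) (RatFunc κ) L] [FiniteDimensional (RatFunc κ) L]
  [IsGalois (RatFunc κ) L] [Algebra L K₀] [IsScalarTower (RatFunc κ) L K₀] [Algebra L N]
  [IsScalarTower L K₀ N] [MulAction (L ≃ₐ[RatFunc κ] L) Ω]

theorem wr_ep (hABS : St_abs4) {n : ℕ} (hfam : St_fam κ G V n)
    (hL : ∀ τ : L ≃ₐ[RatFunc κ] L, τ ≠ 1 → ∃ (m : ℕ) (b c : Fin m → L),
      (∀ i, IsIntegral (Polynomial κ) (b i)) ∧ (∀ i, IsIntegral (Polynomial κ) (c i)) ∧
      ∑ i, c i * (τ (b i) - b i) = 1)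
    (Z : Unit ⊕ ((L ≃ₐ[RatFunc κ] L) × (Ω × V)) → N) (hZ : IsTranscendenceBasis K₀ Z)
    (hfin : ∃ (ι : Type) (_ : Finite ι) (η : ι → N), IsTranscendenceBasis κ η) :
    UnrEP κ L ((Ω → AWr G n) ⋊[mulAutArrow] (L ≃ₐ[RatFunc κ] L)) SemidirectProduct.rightHom := by
  classical
  let K := RatFunc κ
  let Γ := L ≃ₐ[RatFunc κ] L
  have hfG : Fintype Γ := Fintype.ofFinite _
  have hTKLN : IsScalarTower K L N := IsScalarTower.of_algebraMap_eq fun x => by
    rw [IsScalarTower.algebraMap_apply K K₀ N, IsScalarTower.algebraMap_apply K L K₀,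
      ← IsScalarTower.algebraMap_apply L K₀ N]
  obtain ⟨ω, ω', hω, hω'⟩ := exists_dual_int κ L
  have hd : IsTranscendenceBasis K₀ (desc ω Z) := desc_basis ω ω' hω Z hZ
  obtain ⟨d, hdd⟩ : ∃ d, d = desc ω Z := ⟨_, rfl⟩
  rw [← hdd] at hd
  have hdK : IsTranscendenceBasis K d := basis_down d hd
  have hLK₀ : Algebra.IsAlgebraic L K₀ := ⟨fun z =>
    (Algebra.IsAlgebraic.isAlgebraic (R := K) z).tower_top L⟩
  have hZL : IsTranscendenceBasis L Z := basis_down Z hZ
  obtain ⟨E, iE1, iE2, iE3, iE4, iE5, ψ, hψ⟩ := exists_field hdK.1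
  let _ : Algebra E N := ψ.toRingHom.toAlgebra
  have hTKEN : IsScalarTower K E N := IsScalarTower.of_algebraMap_eq fun x => (ψ.commutes x).symm
  have hdE : ∀ v, d v = algebraMap E N (algebraMap (MvPolynomial _ K) E (MvPolynomial.X v)) := by
    intro v
    change _ = ψ _
    rw [hψ, aeval_X]
  have halg : Algebra.IsAlgebraic E N := alg_of_range d hdK fun v => ⟨_, (hdE v).symm⟩
  have hcl : IsAlgClosure E N := ⟨inferInstance, halg⟩
  have hnorm : Normal E N := IsAlgClosure.normal E N
  let _ : Algebra κ E := ((algebraMap K E).comp (algebraMap κ K)).toAlgebra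
  have hTκEN : IsScalarTower κ E N := IsScalarTower.of_algebraMap_eq fun c => by
    change _ = algebraMap E N (algebraMap K E (algebraMap κ K c))
    rw [← IsScalarTower.algebraMap_apply K E N, ← IsScalarTower.algebraMap_apply κ K N]
  -- automorphisms over E
  have hσd : ∀ (σ : N ≃ₐ[E] N), ∀ v, σ (d v) = d v := by
    intro σ v
    rw [hdE, σ.commutes]
  have hEfix : ∀ (j : N →+* N), (∀ a : K, j (algebraMap K N a) = algebraMap K N a) →
      (∀ v, j (d v) = d v) → ∀ x : E, j (algebraMap E N x) = algebraMap E N x := by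
    intro j h1 h2 x
    let j' : N →ₐ[K] N := { j with commutes' := h1 }
    exact eq_on_adjoin j' (AlgHom.id K N) (Set.range d) (by
      rintro _ ⟨v, rfl⟩
      exact h2 v) _ (field_le d hdE x)
  have hresL : ∀ σ : N ≃ₐ[E] N, ∃ ρ : Γ, ∀ a : L, σ (algebraMap L N a) = algebraMap L N (ρ a) :=
    fun σ => ⟨(σ.restrictScalars K).restrictNormal L, fun a =>
      (AlgEquiv.restrictNormal_commutes (σ.restrictScalars K) L a).symm⟩
  have hmoveZ : ∀ (σ : N ≃ₐ[E] N) (ρ : Γ), (∀ a : L, σ (algebraMap L N a) =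
      algebraMap L N (ρ a)) → ∀ γ j, σ (Z (Sum.inr (γ, j))) = Z (Sum.inr (ρ * γ, j)) := by
    intro σ ρ hρ
    exact ((desc_iff ω ω' hω Z (σ : N →+* N) ρ hρ).1 (fun v => by
      rw [← hdd]
      exact hσd σ v)).2
  have hmove : ∀ (σ : N ≃ₐ[E] N) (ρ : Γ), (∀ a : L, σ (algebraMap L N a) =
      algebraMap L N (ρ a)) → ∀ w v, σ (ev Z w v) = ev Z (ρ • w) v := fun σ ρ hρ w v =>
    ev_move Z (σ : N →+* N) ρ (hmoveZ σ ρ hρ) w v
  have hlift : ∀ ρ : Γ, ∃ σ : N ≃ₐ[E] N, ∀ a : L, σ (algebraMap L N a) =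
      algebraMap L N (ρ a) := by
    intro ρ
    let e : Unit ⊕ (Γ × (Ω × V)) ≃ Unit ⊕ (Γ × (Ω × V)) :=
      Equiv.sumCongr (Equiv.refl _) (Equiv.prodCongr (Equiv.mulLeft ρ) (Equiv.refl _))
    obtain ⟨σ, hσ, hσZ⟩ := exists_semi_auto (k := K) hZL (hZL.comp_equiv e) ρ
    have h1 : ∀ v, σ (d v) = d v := by
      rw [hdd]
      exact (desc_iff ω ω' hω Z (σ : N →+* N) ρ hσ).2 ⟨hσZ (Sum.inl ()), fun γ j =>
        hσZ (Sum.inr (γ, j))⟩
    exact ⟨AlgEquiv.ofRingEquiv (f := σ.toRingEquiv)
      (hEfix (σ : N →+* N) (fun a => σ.commutes a) h1), hσ⟩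
  choose s hs using hlift
  -- the families
  have hF : ∀ w₀ : Ω, ∃ (x : Fin n → N) (vv : Fin n → G → N), Function.Injective x ∧
      (∀ i, Function.Injective (vv i)) ∧
      (∀ σ : N ≃ₐ[κ] N, (∀ v, σ (ev Z w₀ v) = ev Z w₀ v) → ∃ X ∈ AWr G n, Rl x x vv vv σ X) ∧
      (∀ X ∈ AWr G n, ∃ τ : N ≃ₐ[E] N, (∀ a : L, τ (algebraMap L N a) = algebraMap L N a) ∧
        Rl x x vv vv τ X ∧ ∀ w, w ≠ w₀ → ∀ z,
          IsIntegral (Algebra.adjoin κ (Set.range (ev Z w))) z → τ z = z) ∧
      (∀ i, IsIntegral (Algebra.adjoin κ (Set.range (ev Z w₀))) (x i)) ∧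
      (∀ i j, i ≠ j → IsIntegral (Algebra.adjoin κ (Set.range (ev Z w₀))) (x i - x j)⁻¹) ∧
      (∀ i g, IsIntegral (Algebra.adjoin κ (Set.range (ev Z w₀))) (vv i g)) ∧
      (∀ i g g', g ≠ g' →
        IsIntegral (Algebra.adjoin κ (Set.range (ev Z w₀))) (vv i g - vv i g')⁻¹) := by
    intro w₀
    obtain ⟨D, iD1, iD2, iD3, iD4, iD5, hx, hD⟩ := exists_D' Z hZ w₀
    let _ : Algebra κ D := ((algebraMap K₀ D).comp (algebraMap κ K₀)).toAlgebra
    have hT : IsScalarTower κ D N := IsScalarTower.of_algebraMap_eq fun c => by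
      change _ = algebraMap D N (algebraMap K₀ D (algebraMap κ K₀ c))
      rw [← IsScalarTower.algebraMap_apply K₀ D N, ← IsScalarTower.algebraMap_apply κ K₀ N]
    obtain ⟨x, vv, hfm⟩ := hfam D N (ev Z w₀) hx hfin
    refine ⟨x, vv, hfm.inj, hfm.inj', hfm.rel, fun X hX => ?_, hfm.i1, hfm.i2, hfm.i3, hfm.i4⟩
    obtain ⟨σ, hσ1, hσ2⟩ := hfm.geo X hX
    have hσD : ∀ z ∈ Set.range (algebraMap D N), σ z = z := by
      rintro _ ⟨d, rfl⟩
      exact σ.commutes d
    have hσL : ∀ a : L, σ (algebraMap L N a) = algebraMap L N a := by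
      intro a
      apply hσD
      exact ⟨algebraMap K₀ D (algebraMap L K₀ a), by
        rw [← IsScalarTower.algebraMap_apply K₀ D N, ← IsScalarTower.algebraMap_apply L K₀ N]⟩
    have hne : ∀ (γ : Γ) (v v' : V), γ ≠ 1 →
        (Sum.inr (γ, (γ⁻¹ • w₀, v)) : Unit ⊕ (Γ × (Ω × V))) ≠ Sum.inr (1, (w₀, v')) := by
      intro γ v v' hγ h
      exact hγ (congrArg Prod.fst (Sum.inr_injective h))
    have hσZ : ∀ u, σ (Z u) = Z u := by
      intro u
      by_cases hu : ∃ v : V, u = Sum.inr (1, (w₀, v))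
      · obtain ⟨v, rfl⟩ := hu
        have h1 := hσ1 v
        rw [ev_split, map_add, map_sum, Finset.sum_congr rfl (fun γ hγ =>
          hσD _ (hD _ (fun v' => hne γ v v' (Finset.ne_of_mem_erase hγ))))] at h1
        exact add_right_cancel h1
      · push Not at hu
        exact hσD _ (hD u hu)
    have hσd' : ∀ v, σ (d v) = d v := by
      rw [hdd]
      refine (desc_iff ω ω' hω Z (σ : N →+* N) 1 hσL).2 ⟨hσZ _, fun δ j => ?_⟩
      rw [one_mul]
      exact hσZ _
    have hσK : ∀ a : K, σ (algebraMap K N a) = algebraMap K N a := by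
      intro a
      rw [IsScalarTower.algebraMap_apply K L N]
      exact hσL _
    refine ⟨AlgEquiv.ofRingEquiv (f := σ.toRingEquiv) (hEfix (σ : N →+* N) hσK hσd'), hσL, hσ2,
      fun w hw z hz => ?_⟩
    change σ z = z
    apply hσD
    have hev : ∀ v, IsIntegral D (ev Z w v) := by
      intro v
      have h1 : ∃ y, algebraMap D N y = ev Z w v := by
        have h2 : ∀ γ : Γ, ∃ y, algebraMap D N y = Z (Sum.inr (γ, (γ⁻¹ • w, v))) := by
          intro γ
          refine hD _ fun v' h => hw ?_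
          have h1 := Sum.inr_injective h
          have h2 : γ = 1 := congrArg Prod.fst h1
          have h3 : γ⁻¹ • w = w₀ := congrArg (fun z : Γ × (Ω × V) => z.2.1) h1
          rwa [h2, inv_one, one_smul] at h3
        choose y hy using h2
        refine ⟨∑ γ, y γ, ?_⟩
        rw [map_sum]
        exact Finset.sum_congr rfl fun γ _ => hy γ
      obtain ⟨y, hy⟩ := h1
      rw [← hy]
      exact isIntegral_algebraMap
    have h1 : IsIntegral D z := int_trans (fun c => by
      rw [IsScalarTower.algebraMap_apply κ D N]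
      exact isIntegral_algebraMap) (ev Z w) hev z hz
    exact minpoly.mem_range_of_degree_eq_one D z
      (IsAlgClosed.degree_eq_one_of_irreducible D (minpoly.irreducible h1))
  choose x vv hxi hvi hrel hgeo hi1 hi2 hi3 hi4 using hF
  obtain ⟨rep, c, hc, hrep⟩ := exists_rep Γ Ω
  let X : Ω → Fin n → N := fun w i => s (c w) (x (rep w) i)
  let VV : Ω → Fin n → G → N := fun w i g => s (c w) (vv (rep w) i g)
  have hXi : ∀ w, Function.Injective (X w) := fun w => (s (c w)).injective.comp (hxi _)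
  have hVi : ∀ w i, Function.Injective (VV w i) := fun w i =>
    (s (c w)).injective.comp (hvi _ i)
  -- transport of integrality
  have htr : ∀ (σ : N ≃ₐ[E] N) (ρ : Γ), (∀ a : L, σ (algebraMap L N a) = algebraMap L N (ρ a)) →
      ∀ w z, IsIntegral (Algebra.adjoin κ (Set.range (ev Z w))) z →
      IsIntegral (Algebra.adjoin κ (Set.range (ev Z (ρ • w)))) (σ z) := by
    intro σ ρ hρ w z hz
    exact int_map ((σ.restrictScalars κ : N ≃ₐ[κ] N) : N →ₐ[κ] N) (ev Z w) (ev Z (ρ • w))
      (hmove σ ρ hρ w) z hz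
  have hsI : ∀ w z, IsIntegral (Algebra.adjoin κ (Set.range (ev Z (rep w)))) z →
      IsIntegral (Algebra.adjoin κ (Set.range (ev Z w))) (s (c w) z) := by
    intro w z hz
    have h1 := htr (s (c w)) (c w) (hs (c w)) (rep w) z hz
    rwa [hc w] at h1
  have hX1 : ∀ w i, IsIntegral (Algebra.adjoin κ (Set.range (ev Z w))) (X w i) := fun w i =>
    hsI w _ (hi1 (rep w) i)
  have hX2 : ∀ w i j, i ≠ j →
      IsIntegral (Algebra.adjoin κ (Set.range (ev Z w))) (X w i - X w j)⁻¹ := by
    intro w i j hij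
    have h1 := hsI w _ (hi2 (rep w) i j hij)
    rwa [map_inv₀, map_sub] at h1
  have hX3 : ∀ w i g, IsIntegral (Algebra.adjoin κ (Set.range (ev Z w))) (VV w i g) :=
    fun w i g => hsI w _ (hi3 (rep w) i g)
  have hX4 : ∀ w i g g', g ≠ g' →
      IsIntegral (Algebra.adjoin κ (Set.range (ev Z w))) (VV w i g - VV w i g')⁻¹ := by
    intro w i g g' hg
    have h1 := hsI w _ (hi4 (rep w) i g g' hg)
    rwa [map_inv₀, map_sub] at h1
  -- inverses
  have hinvL : ∀ (σ : N ≃ₐ[E] N) (ρ : Γ), (∀ a : L, σ (algebraMap L N a) =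
      algebraMap L N (ρ a)) → ∀ a : L, σ⁻¹ (algebraMap L N a) = algebraMap L N (ρ⁻¹ a) := by
    intro σ ρ hρ a
    change σ.symm _ = _
    rw [AlgEquiv.symm_apply_eq, hρ]
    congr 1
    exact (AlgEquiv.apply_symm_apply ρ a).symm
  -- the relation
  let W := (Ω → AWr G n) ⋊[mulAutArrow] Γ
  let Rw : (N → N) → W → Prop := fun σ f =>
    (∀ a : L, σ (algebraMap L N a) = algebraMap L N (f.right a)) ∧
    ∀ w, Rl (X w) (X (f.right • w)) (VV w) (VV (f.right • w)) σ
      ((f.left (f.right • w) : AWr G n) : Wr G n)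
  have hRuniq : ∀ σ f f', Rw σ f → Rw σ f' → f = f' := by
    intro σ f f' h h'
    have h1 : f.right = f'.right := by
      apply AlgEquiv.ext
      intro a
      apply (algebraMap L N).injective
      rw [← h.1, h'.1]
    apply SemidirectProduct.ext _ h1
    funext w
    obtain ⟨w', rfl⟩ : ∃ w', w = f.right • w' := ⟨f.right⁻¹ • w, (smul_inv_smul _ _).symm⟩
    apply Subtype.ext
    have h2 := h.2 w'
    have h3 := h'.2 w'
    rw [← h1] at h3
    exact Rl.uniq (hXi _) (hVi _) h2 h3
  have hRmul : ∀ σ σ' f f', Rw σ f → Rw σ' f' → Rw (σ ∘ σ') (f * f') := by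
    intro σ σ' f f' h h'
    refine ⟨fun a => ?_, fun w => ?_⟩
    · change σ (σ' _) = _
      rw [h'.1, h.1]
      rfl
    · have h1 : (f * f').right • w = f.right • f'.right • w := by
        rw [SemidirectProduct.mul_right, mul_smul]
      have h2 : (f * f').left (f.right • f'.right • w) =
          f.left (f.right • f'.right • w) * f'.left (f'.right • w) := by
        change f.left _ * f'.left (f.right⁻¹ • f.right • f'.right • w) = _
        rw [inv_smul_smul]
      rw [h1, h2]
      exact (h'.2 w).comp (h.2 (f'.right • w))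
  have hRex : ∀ σ : N ≃ₐ[E] N, ∃ f : W, Rw σ f := by
    intro σ
    obtain ⟨ρ, hρ⟩ := hresL σ
    have h1 : ∀ w, ∃ A : AWr G n, Rl (X w) (X (ρ • w)) (VV w) (VV (ρ • w)) σ (A : Wr G n) := by
      intro w
      let τ : N ≃ₐ[E] N := (s (c (ρ • w)))⁻¹ * σ * s (c w)
      have hτ : ∀ a : L, τ (algebraMap L N a) =
          algebraMap L N (((c (ρ • w))⁻¹ * ρ * c w) a) := by
        intro a
        change (s (c (ρ • w)))⁻¹ (σ (s (c w) _)) = _
        rw [hs, hρ, hinvL _ _ (hs _)]
        rfl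
      have hfix : ((c (ρ • w))⁻¹ * ρ * c w) • rep w = rep w := by
        rw [mul_smul, hc w, mul_smul, inv_smul_eq_iff, ← hrep ρ w, hc]
      have hτv : ∀ v, τ (ev Z (rep w) v) = ev Z (rep w) v := by
        intro v
        rw [hmove τ _ hτ, hfix]
      obtain ⟨A, hA, hA2⟩ := hrel (rep w) (τ.restrictScalars κ) hτv
      have h2 : ∀ z, σ (s (c w) z) = s (c (ρ • w)) (τ z) := by
        intro z
        change _ = s (c (ρ • w)) ((s (c (ρ • w))).symm (σ (s (c w) z)))
        rw [AlgEquiv.apply_symm_apply]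
      refine ⟨⟨A, hA⟩, fun i => ⟨?_, fun g => ?_⟩⟩
      · change σ (s (c w) (x (rep w) i)) = s (c (ρ • w)) (x (rep (ρ • w)) (A.right i))
        rw [h2, hrep]
        congr 1
        exact (hA2 i).1
      · change σ (s (c w) (vv (rep w) i g)) = s (c (ρ • w)) (vv (rep (ρ • w)) (A.right i) _)
        rw [h2, hrep]
        congr 1
        exact (hA2 i).2 g
    choose A hA using h1
    refine ⟨⟨fun w => A (ρ⁻¹ • w), ρ⟩, hρ, fun w => ?_⟩
    change Rl (X w) (X (ρ • w)) (VV w) (VV (ρ • w)) σ ((A (ρ⁻¹ • ρ • w) : AWr G n) : Wr G n)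
    rw [inv_smul_smul]
    exact hA w
  choose Pf hPf using hRex
  let π : (N ≃ₐ[E] N) →* W := MonoidHom.mk' Pf (fun σ' σ =>
    hRuniq _ _ _ (hPf _) (hRmul σ' σ _ _ (hPf σ') (hPf σ)))
  have hπ : ∀ σ : N ≃ₐ[E] N, Rw σ (π σ) := hPf
  -- surjectivity
  have hsingle : ∀ (w : Ω) (A : AWr G n), ∃ τ : N ≃ₐ[E] N,
      π τ = SemidirectProduct.inl (Pi.mulSingle w A) := by
    intro w A
    obtain ⟨τ₀, h1, h2, h3⟩ := hgeo (rep w) A A.2
    let τ : N ≃ₐ[E] N := s (c w) * τ₀ * (s (c w))⁻¹
    refine ⟨τ, hRuniq τ _ _ (hπ τ) ⟨fun a => ?_, fun w' => ?_⟩⟩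
    · change s (c w) (τ₀ ((s (c w))⁻¹ _)) = algebraMap L N a
      rw [hinvL _ _ (hs _), h1, hs]
      congr 1
      exact AlgEquiv.apply_symm_apply (c w) a
    · have h4 : ((SemidirectProduct.inl (Pi.mulSingle w A) : W)).right = 1 := rfl
      have h5 : ((SemidirectProduct.inl (Pi.mulSingle w A) : W)).left = Pi.mulSingle w A := rfl
      rw [h4, h5, one_smul]
      by_cases hw : w' = w
      · subst hw
        rw [Pi.mulSingle_eq_same]
        have h6 : ∀ z, τ (s (c w') z) = s (c w') (τ₀ z) := by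
          intro z
          change s (c w') (τ₀ ((s (c w')).symm (s (c w') z))) = _
          rw [AlgEquiv.symm_apply_apply]
        refine fun i => ⟨?_, fun g => ?_⟩
        · change τ (s (c w') (x (rep w') i)) = _
          rw [h6, (h2 i).1]
        · change τ (s (c w') (vv (rep w') i g)) = _
          rw [h6, (h2 i).2 g]
      · rw [Pi.mulSingle_eq_of_ne hw]
        have h6 : ∀ z, IsIntegral (Algebra.adjoin κ (Set.range (ev Z w'))) z → τ z = z := by
          intro z hz
          change s (c w) (τ₀ ((s (c w))⁻¹ z)) = z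
          have h7 := htr (s (c w))⁻¹ (c w)⁻¹ (hinvL _ _ (hs _)) w' z hz
          have h8 : (c w)⁻¹ • w' ≠ rep w := by
            intro h
            apply hw
            rw [inv_smul_eq_iff] at h
            rw [h, hc]
          rw [h3 _ h8 _ h7]
          exact AlgEquiv.apply_symm_apply (s (c w)) z
        refine fun i => ⟨?_, fun g => ?_⟩
        · rw [h6 _ (hX1 w' i)]
          rfl
        · rw [h6 _ (hX3 w' i g)]
          change VV w' i g = VV w' i (1 * g)
          rw [one_mul]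
  have hinl : ∀ f : Ω → AWr G n, (SemidirectProduct.inl f : W) ∈ π.range := by
    intro f
    have h1 : f ∈ π.range.comap (SemidirectProduct.inl : (Ω → AWr G n) →* W) := by
      refine Subgroup.pi_mem_of_mulSingle_mem _ fun w => ?_
      obtain ⟨τ, hτ⟩ := hsingle w (f w)
      exact ⟨τ, hτ⟩
    exact h1
  have hsurj : Function.Surjective π := by
    intro f
    have h1 : (π (s f.right)).right = f.right := by
      apply AlgEquiv.ext
      intro a
      apply (algebraMap L N).injective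
      rw [← (hπ (s f.right)).1, hs]
    obtain ⟨τ, hτ⟩ := hinl (f.left * ((π (s f.right)).left)⁻¹)
    refine ⟨τ * s f.right, ?_⟩
    rw [map_mul, hτ]
    apply SemidirectProduct.ext
    · funext w
      change (f.left w * ((π (s f.right)).left w)⁻¹) *
        (π (s f.right)).left ((1 : Γ)⁻¹ • w) = f.left w
      rw [inv_one, one_smul, inv_mul_cancel_right]
    · change (1 : Γ) * (π (s f.right)).right = f.right
      rw [one_mul, h1]
  -- finite descent
  let bL := Module.finBasis K L
  let S : Set N := ((⋃ w, Set.range (X w)) ∪ ⋃ w, ⋃ i, Set.range (VV w i)) ∪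
    Set.range fun i => algebraMap L N (bL i)
  have hSf : S.Finite := ((Set.finite_iUnion fun w => Set.finite_range _).union
    (Set.finite_iUnion fun w => Set.finite_iUnion fun i => Set.finite_range _)).union
    (Set.finite_range _)
  have hS : ∀ γ : N ≃ₐ[E] N, (∀ s ∈ S, γ s = s) → π γ = 1 := by
    intro γ hγ
    refine hRuniq γ _ _ (hπ γ) ⟨fun a => ?_, fun w => ?_⟩
    · change γ (algebraMap L N a) = algebraMap L N a
      rw [← bL.sum_repr a, map_sum, map_sum]
      refine Finset.sum_congr rfl fun i _ => ?_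
      rw [Algebra.smul_def, map_mul, map_mul, ← IsScalarTower.algebraMap_apply K L N,
        hγ _ (Or.inr ⟨i, rfl⟩), IsScalarTower.algebraMap_apply K E N, γ.commutes]
    · change Rl (X w) (X ((1 : Γ) • w)) (VV w) (VV ((1 : Γ) • w)) γ 1
      rw [one_smul]
      refine fun i => ⟨hγ _ (Or.inl (Or.inl (Set.mem_iUnion.2 ⟨w, ⟨i, rfl⟩⟩))), fun g => ?_⟩
      rw [hγ (VV w i g) (Or.inl (Or.inr (Set.mem_iUnion.2 ⟨w, Set.mem_iUnion.2 ⟨i, ⟨g, rfl⟩⟩⟩)))]
      change VV w i g = VV w i (1 * g)
      rw [one_mul]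
  obtain ⟨F, iF1, iF2, iF3, iF4, iF5, iF6, e, he1, he2⟩ := finite_descent2 π hsurj S hSf hS
  let T := Unit ⊕ (Γ × (Ω × V))
  let _ : Algebra (MvPolynomial T K) F := ((algebraMap E F).comp
    (algebraMap (MvPolynomial T K) E)).toAlgebra
  have hT1 : IsScalarTower (MvPolynomial T K) E F := IsScalarTower.of_algebraMap_eq fun x => rfl
  let j : MvPolynomial T (Polynomial κ) →+* F := (algebraMap (MvPolynomial T K) F).comp
    (MvPolynomial.map (algebraMap (Polynomial κ) K))
  let R := MvPolynomial T (Polynomial κ)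
  let _ : Algebra R N := ((algebraMap F N).comp j).toAlgebra
  have hjN : ∀ r : R, algebraMap R N r = algebraMap F N (j r) := fun r => rfl
  have hjC : ∀ q : Polynomial κ, algebraMap R N (MvPolynomial.C q) =
      algebraMap K N (algebraMap (Polynomial κ) K q) := by
    intro q
    rw [hjN]
    change algebraMap F N (algebraMap E F (algebraMap (MvPolynomial T K) E
      (MvPolynomial.map (algebraMap (Polynomial κ) K) (MvPolynomial.C q)))) = _
    rw [MvPolynomial.map_C, ← IsScalarTower.algebraMap_apply E F N]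
    change algebraMap E N (algebraMap (MvPolynomial T K) E (algebraMap K (MvPolynomial T K) _)) = _
    rw [← IsScalarTower.algebraMap_apply K (MvPolynomial T K) E,
      ← IsScalarTower.algebraMap_apply K E N]
  have hjX : ∀ v : T, algebraMap R N (MvPolynomial.X v) = d v := by
    intro v
    rw [hjN]
    change algebraMap F N (algebraMap E F (algebraMap (MvPolynomial T K) E
      (MvPolynomial.map (algebraMap (Polynomial κ) K) (MvPolynomial.X v)))) = _
    rw [MvPolynomial.map_X, ← IsScalarTower.algebraMap_apply E F N, ← hdE]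
  have hlift : ∀ b : F, IsIntegral R (algebraMap F N b) → j.IsIntegralElem b := by
    rintro b ⟨P, hP, hPb⟩
    refine ⟨P, hP, (algebraMap F N).injective ?_⟩
    rw [Polynomial.hom_eval₂, map_zero]
    exact hPb
  have hRκ : ∀ c : κ, IsIntegral R (algebraMap κ N c) := by
    intro c
    have h1 : algebraMap κ N c = algebraMap R N (MvPolynomial.C (Polynomial.C c)) := by
      rw [hjC, IsScalarTower.algebraMap_apply κ K N]
      rfl
    rw [h1]
    exact isIntegral_algebraMap
  have hRL : ∀ a : L, IsIntegral (Polynomial κ) a → IsIntegral R (algebraMap L N a) := by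
    rintro a ⟨P, hP, hPa⟩
    refine ⟨P.map (MvPolynomial.C : Polynomial κ →+* R), hP.map _, ?_⟩
    have h1 : (algebraMap R N).comp (MvPolynomial.C : Polynomial κ →+* R) =
        (algebraMap L N).comp (algebraMap (Polynomial κ) L) := by
      apply RingHom.ext
      intro q
      change algebraMap R N (MvPolynomial.C q) = algebraMap L N (algebraMap (Polynomial κ) L q)
      rw [hjC, IsScalarTower.algebraMap_apply (Polynomial κ) K L,
        ← IsScalarTower.algebraMap_apply K L N]
    rw [Polynomial.eval₂_map, h1, ← Polynomial.hom_eval₂, hPa, map_zero]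
  have hRev : ∀ w v, IsIntegral R (ev Z w v) := by
    intro w v
    refine IsIntegral.sum _ fun γ _ => ?_
    rw [desc_inv ω ω' hω Z γ, ← hdd]
    refine IsIntegral.sum _ fun t _ => (hRL _ ?_).mul ?_
    · exact (hω' t).map ((γ.restrictScalars (Polynomial κ) : L ≃ₐ[Polynomial κ] L) :
        L →ₐ[Polynomial κ] L)
    · rw [← hjX]
      exact isIntegral_algebraMap
  have hRint : ∀ w z, IsIntegral (Algebra.adjoin κ (Set.range (ev Z w))) z → IsIntegral R z :=
    fun w z hz => int_trans hRκ (ev Z w) (hRev w) z hz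
  -- elements of `N` with a power in `F`
  obtain ⟨q, hq⟩ := ExpChar.exists E
  have hq' : ExpChar N q := expChar_of_injective_algebraMap (algebraMap E N).injective q
  have hpow : ∀ z : N, (∀ γ' : N ≃ₐ[E] N, π γ' = 1 → γ' z = z) →
      ∃ k, ∀ k' ≥ k, ∃ b : F, algebraMap F N b = z ^ q ^ k' := by
    intro z hfixz
    obtain ⟨k, y, hy⟩ := IsPurelyInseparable.pow_mem (separableClosure E N) q z
    refine ⟨k, fun k' hk' => ?_⟩
    obtain ⟨m, rfl⟩ := Nat.exists_eq_add_of_le hk'
    have h1 : z ^ q ^ (k + m) = ((y : N)) ^ q ^ m := by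
      have h2 : algebraMap (separableClosure E N) N y = z ^ q ^ k := hy
      change _ = (algebraMap (separableClosure E N) N y) ^ q ^ m
      rw [h2, ← pow_mul, ← pow_add]
    have hsep : IsSeparable E (z ^ q ^ (k + m)) := by
      rw [h1]
      exact mem_separableClosure_iff.1 (pow_mem y.2 _)
    exact he2 _ hsep (fun γ' hγ' => by rw [map_pow, hfixz γ' hγ'])
  have hmain : ∀ (γ : N ≃ₐ[E] N) (σ : F ≃ₐ[E] F), π γ = e σ → ∀ (m : ℕ) (b c : Fin m → N),
      (∀ i, ∀ γ' : N ≃ₐ[E] N, π γ' = 1 → γ' (b i) = b i) →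
      (∀ i, ∀ γ' : N ≃ₐ[E] N, π γ' = 1 → γ' (c i) = c i) →
      (∀ i, IsIntegral R (b i)) → (∀ i, IsIntegral R (c i)) →
      ∑ i, c i * (γ (b i) - b i) = 1 →
      ∃ (m : ℕ) (b c : Fin m → F), (∀ i, j.IsIntegralElem (b i)) ∧
        (∀ i, j.IsIntegralElem (c i)) ∧ ∑ i, c i * (σ (b i) - b i) = 1 := by
    intro γ σ hγσ m b c hb hc hbi hci hsum
    choose kb hkb using fun i => hpow (b i) (hb i)
    choose kc hkc using fun i => hpow (c i) (hc i)
    let k := ∑ i, kb i + ∑ i, kc i
    have hk1 : ∀ i, kb i ≤ k := fun i =>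
      (Finset.single_le_sum (f := kb) (fun _ _ => Nat.zero_le _) (Finset.mem_univ i)).trans
        (Nat.le_add_right _ _)
    have hk2 : ∀ i, kc i ≤ k := fun i =>
      (Finset.single_le_sum (f := kc) (fun _ _ => Nat.zero_le _) (Finset.mem_univ i)).trans
        (Nat.le_add_left _ _)
    choose B hB using fun i => hkb i k (hk1 i)
    choose C' hC using fun i => hkc i k (hk2 i)
    refine ⟨m, B, C', fun i => hlift _ (by rw [hB]; exact (hbi i).pow _),
      fun i => hlift _ (by rw [hC]; exact (hci i).pow _), ?_⟩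
    apply (algebraMap F N).injective
    rw [map_sum, map_one]
    have h1 := congrArg (iterateFrobenius N q k) hsum
    rw [map_one, map_sum] at h1
    rw [← h1]
    refine Finset.sum_congr rfl fun i _ => ?_
    have h2 : algebraMap F N (σ (B i)) = γ (b i ^ q ^ k) := by
      rw [← hB, he1 γ (B i), hγσ, MulEquiv.symm_apply_apply]
    rw [map_mul, map_sub, h2, hB, hC, map_mul, map_sub, iterateFrobenius_def,
      iterateFrobenius_def, iterateFrobenius_def, map_pow]
  have hone : ∀ (γ : N ≃ₐ[E] N) (σ : F ≃ₐ[E] F), π γ = e σ → ∀ z : N,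
      (∀ γ' : N ≃ₐ[E] N, π γ' = 1 → γ' z = z) → (∀ γ' : N ≃ₐ[E] N, π γ' = 1 → γ' (γ z) = γ z) →
      γ z ≠ z → IsIntegral R z → IsIntegral R (γ z - z)⁻¹ →
      ∃ (m : ℕ) (b c : Fin m → F), (∀ i, j.IsIntegralElem (b i)) ∧
        (∀ i, j.IsIntegralElem (c i)) ∧ ∑ i, c i * (σ (b i) - b i) = 1 := by
    intro γ σ hγσ z h1 h2 h3 h4 h5
    refine hmain γ σ hγσ 1 (fun _ => z) (fun _ => (γ z - z)⁻¹) (fun _ => h1)
      (fun _ γ' hγ' => ?_) (fun _ => h4) (fun _ => h5) ?_
    · rw [map_inv₀, map_sub, h1 γ' hγ', h2 γ' hγ']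
    · rw [Fin.sum_univ_one]
      exact inv_mul_cancel₀ (sub_ne_zero.2 h3)
  have hfixL : ∀ γ' : N ≃ₐ[E] N, π γ' = 1 → ∀ a : L, γ' (algebraMap L N a) = algebraMap L N a := by
    intro γ' h a
    have h1 := (hπ γ').1 a
    rw [h] at h1
    exact h1
  -- the embedding of `L`
  have hLF : ∀ a : L, ∃ b : F, algebraMap F N b = algebraMap L N a := by
    intro a
    have h1 : IsSeparable K a := Algebra.IsSeparable.isSeparable K a
    have h2 : IsSeparable K (algebraMap L N a) :=
      h1.map (IsScalarTower.toAlgHom K L N) (algebraMap L N).injective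
    exact he2 _ (h2.tower_top E) (fun γ' h => hfixL γ' h a)
  choose jf hjf using hLF
  let jF : L →+* F :=
    { toFun := jf
      map_one' := (algebraMap F N).injective (by rw [hjf, map_one, map_one])
      map_mul' := fun a b => (algebraMap F N).injective (by
        rw [hjf, map_mul, map_mul, hjf, hjf])
      map_zero' := (algebraMap F N).injective (by rw [hjf, map_zero, map_zero])
      map_add' := fun a b => (algebraMap F N).injective (by
        rw [hjf, map_add, map_add, hjf, hjf]) }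
  let _ : Algebra L F := jF.toAlgebra
  have hjF : ∀ a : L, algebraMap F N (algebraMap L F a) = algebraMap L N a := hjf
  refine hABS κ T E F W L (fun k => (algebraMap F N).injective ?_) e SemidirectProduct.rightHom
    (fun σ a => (algebraMap F N).injective ?_) fun σ hσ => ?_
  · rw [hjF]
    change _ = algebraMap F N (algebraMap E F (algebraMap (MvPolynomial T K) E
      (algebraMap K (MvPolynomial T K) k)))
    rw [← IsScalarTower.algebraMap_apply E F N, ← IsScalarTower.algebraMap_apply K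
      (MvPolynomial T K) E, ← IsScalarTower.algebraMap_apply K E N,
      ← IsScalarTower.algebraMap_apply K L N]
  · obtain ⟨γ, hγ⟩ := hsurj (e σ)
    rw [hjF]
    have h1 := he1 γ (algebraMap L F a)
    rw [hγ, MulEquiv.symm_apply_apply, hjF] at h1
    rw [← h1, (hπ γ).1 a, hγ]
    rfl
  obtain ⟨γ, hγ⟩ := hsurj (e σ)
  have hfix : ∀ γ' : N ≃ₐ[E] N, π γ' = 1 → ∀ w, (∀ i, γ' (X w i) = X w i) ∧
      ∀ i g, γ' (VV w i g) = VV w i g := by
    intro γ' h w
    have h1 := (hπ γ').2 w
    rw [h] at h1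
    change Rl (X w) (X ((1 : Γ) • w)) (VV w) (VV ((1 : Γ) • w)) γ' 1 at h1
    rw [one_smul] at h1
    refine ⟨fun i => (h1 i).1, fun i g => ?_⟩
    have h2 := (h1 i).2 g
    rw [h2]
    change VV w i (1 * g) = VV w i g
    rw [one_mul]
  by_cases hρ : (π γ).right = 1
  swap
  · obtain ⟨m, b, c, hb, hc, hsum⟩ := hL _ hρ
    refine hmain γ σ hγ m (fun i => algebraMap L N (b i)) (fun i => algebraMap L N (c i))
      (fun i γ' h => hfixL γ' h _) (fun i γ' h => hfixL γ' h _) (fun i => hRL _ (hb i))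
      (fun i => hRL _ (hc i)) ?_
    have h1 := congrArg (algebraMap L N) hsum
    rw [map_sum, map_one] at h1
    rw [← h1]
    refine Finset.sum_congr rfl fun i _ => ?_
    rw [(hπ γ).1, map_mul, map_sub]
  · obtain ⟨w, hw⟩ : ∃ w, (π γ).left w ≠ 1 := by
      by_contra hcon
      push Not at hcon
      apply hσ
      apply e.injective
      rw [map_one, ← hγ]
      apply SemidirectProduct.ext
      · funext w
        exact hcon w
      · exact hρ
    have hR := (hπ γ).2 w
    rw [hρ, one_smul] at hR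
    obtain ⟨A, hA⟩ : ∃ A : Wr G n, A = (((π γ).left w : AWr G n) : Wr G n) := ⟨_, rfl⟩
    rw [← hA] at hR
    have hA1 : A ≠ 1 := fun h => hw (Subtype.ext (by rw [← hA, h]; rfl))
    by_cases hr1 : ∃ i, A.right i ≠ i
    · obtain ⟨i, hi⟩ := hr1
      have h1 : γ (X w i) = X w (A.right i) := (hR i).1
      refine hone γ σ hγ (X w i) (fun γ' h => (hfix γ' h w).1 i) (fun γ' h => ?_)
        (fun h => hi (hXi w (by rw [← h1, h]))) (hRint w _ (hX1 w i)) ?_
      · rw [h1]
        exact (hfix γ' h w).1 _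
      · rw [h1]
        exact hRint w _ (hX2 w _ _ hi)
    · push Not at hr1
      have hex1 : ∃ i, A.left i ≠ 1 := by
        by_contra hcon
        push Not at hcon
        apply hA1
        apply SemidirectProduct.ext
        · funext i
          exact hcon i
        · apply Equiv.ext
          intro i
          exact hr1 i
      obtain ⟨i, hi⟩ := hex1
      have h1 : γ (VV w i 1) = VV w i (A.left i) := by
        have h2 := (hR i).2 1
        rw [hr1 i, mul_one] at h2
        exact h2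
      refine hone γ σ hγ (VV w i 1) (fun γ' h => (hfix γ' h w).2 i 1) (fun γ' h => ?_)
        (fun h => hi (hVi w i (by rw [← h1, h]))) (hRint w _ (hX3 w i 1)) ?_
      · rw [h1]
        exact (hfix γ' h w).2 i _
      · rw [h1]
        exact hRint w _ (hX4 w i _ _ hi)

end

end Pool.Agent.Y140.AW
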